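import Pool.Agent.Full.P5.ZChart

/-!
# Positions and distances in the domain with an interior end
-/

set_option autoImplicit false

namespace Full.P5
open Function Relation

/-- a tile and a corner of it -/
lemma tile_near {x y : ℤ} {u : Half ZT} {t : ℤ × ℤ} (ht : u.1 = .inl t ∨ u.1 = .inr t) :
    |t.1 - x - (zpos x y u).1| ≤ 1 ∧ |t.2 - y - (zpos x y u).2| ≤ 1 := by
  obtain ⟨c, d⟩ := u
  have h1 := off_cases d
  rw [abs_le, abs_le]
  rcases ht with rfl | rfl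
  · have h3 := clps_cases x (t.1 + (off d).1)
    simp only [zpos_low]
    omega
  · simp only [zpos_up]
    omega

lemma nrm_iff {p : ℤ × ℤ} {k : ℤ} : nrm p ≤ k ↔ |p.1| ≤ k ∧ |p.2| ≤ k := by
  unfold nrm
  rw [max_le_iff]

lemma abs_co_le {p : ℤ × ℤ} : |p.1| ≤ nrm p ∧ |p.2| ≤ nrm p := nrm_iff.1 le_rfl

section
variable {n : ℕ} (hn : 8 ≤ n) {z : ℂ} {x y : ℤ} (hx : |(x : ℝ) - n * z.re| ≤ 1) (hy : |(y : ℝ) - n * z.im| ≤ 1)
include hn hx hy

/-- the distance from `z` to the point of a tile with a corner at the position `p` -/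
theorem dist_le_of_zpos {u : Half ZT} {t : ℤ × ℤ} (ht : u.1 = .inl t ∨ u.1 = .inr t) {ρ : ℝ}
    (hρ : (nrm (zpos x y u) : ℝ) ≤ n * ρ) : dist z (⟨(t.1 : ℝ) / n, (t.2 : ℝ) / n⟩ : ℂ) ≤ 2 * ρ + 1 / 2 := by
  obtain ⟨h1, h2⟩ := tile_near (x := x) (y := y) ht
  obtain ⟨h3, h4⟩ := abs_co_le (p := zpos x y u)
  have hn0 : (0 : ℝ) < n := by
    have : 0 < n := by omega
    exact_mod_cast this
  have hn8 : (8 : ℝ) ≤ n := by exact_mod_cast hn
  have g1 : |(t.1 : ℝ) - x - ((zpos x y u).1 : ℤ)| ≤ 1 := by exact_mod_cast h1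
  have g2 : |(t.2 : ℝ) - y - ((zpos x y u).2 : ℤ)| ≤ 1 := by exact_mod_cast h2
  have g3 : |(((zpos x y u).1 : ℤ) : ℝ)| ≤ n * ρ := le_trans (by exact_mod_cast h3) hρ
  have g4 : |(((zpos x y u).2 : ℤ) : ℝ)| ≤ n * ρ := le_trans (by exact_mod_cast h4) hρ
  rw [Complex.dist_eq]
  refine (Complex.norm_le_abs_re_add_abs_im _).trans ?_
  rw [Complex.sub_re, Complex.sub_im]
  have key : ∀ {a b c e : ℝ}, |a - b - e| ≤ 1 → |e| ≤ n * ρ → |b - n * c| ≤ 1 → |c - a / n| ≤ ρ + 1 / 4 := by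
    intro a b c e k1 k2 k3
    have k4 : c - a / n = (n * c - a) / n := by field_simp
    rw [k4, abs_div, abs_of_pos hn0, div_le_iff₀ hn0]
    rw [abs_le] at k1 k2 k3 ⊢
    constructor <;> nlinarith
  have e1 := key g1 g3 hx
  have e2 := key g2 g4 hy
  simp only at e1 e2 ⊢
  linarith

/-- conversely -/
theorem zpos_le_of_dist {u : Half ZT} {t : ℤ × ℤ} (ht : u.1 = .inl t ∨ u.1 = .inr t) {ρ : ℝ}
    (hρ : dist z (⟨(t.1 : ℝ) / n, (t.2 : ℝ) / n⟩ : ℂ) ≤ ρ) : (nrm (zpos x y u) : ℝ) ≤ n * ρ + 2 := by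
  obtain ⟨h1, h2⟩ := tile_near (x := x) (y := y) ht
  have hn0 : (0 : ℝ) < n := by
    have : 0 < n := by omega
    exact_mod_cast this
  have g1 : |(t.1 : ℝ) - x - ((zpos x y u).1 : ℤ)| ≤ 1 := by exact_mod_cast h1
  have g2 : |(t.2 : ℝ) - y - ((zpos x y u).2 : ℤ)| ≤ 1 := by exact_mod_cast h2
  rw [Complex.dist_eq] at hρ
  have e1 := (Complex.abs_re_le_norm _).trans hρ
  have e2 := (Complex.abs_im_le_norm _).trans hρ
  rw [Complex.sub_re] at e1
  rw [Complex.sub_im] at e2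
  have key : ∀ {a b c e : ℝ}, |a - b - e| ≤ 1 → |c - a / n| ≤ ρ → |b - n * c| ≤ 1 → |e| ≤ n * ρ + 2 := by
    intro a b c e k1 k2 k3
    have k4 : c - a / n = (n * c - a) / n := by field_simp
    rw [k4, abs_div, abs_of_pos hn0, div_le_iff₀ hn0] at k2
    rw [abs_le] at k1 k2 k3 ⊢
    constructor <;> nlinarith
  have k1 := key g1 e1 hx
  have k2 := key g2 e2 hy
  unfold nrm
  rw [Int.cast_max, max_le_iff]
  exact ⟨by push_cast; exact k1, by push_cast; exact k2⟩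

/-- **(b)** a set near the tile of a corner at the position `p` -/
theorem infDist_le_of_zpos {u : Half ZT} {t : ℤ × ℤ} (ht : u.1 = .inl t ∨ u.1 = .inr t) {ρ : ℝ}
    (hρ : (nrm (zpos x y u) : ℝ) ≤ n * ρ) {A : Set ℂ}
    (hA : Metric.infDist (⟨(t.1 : ℝ) / n, (t.2 : ℝ) / n⟩ : ℂ) A ≤ 1 / 2) : Metric.infDist z A ≤ 2 * ρ + 1 := by
  have h1 := dist_le_of_zpos hn hx hy ht hρ
  have h2 := Metric.infDist_le_infDist_add_dist (s := A) (x := z) (y := (⟨(t.1 : ℝ) / n, (t.2 : ℝ) / n⟩ : ℂ))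
  linarith

end

/-- the lattice point of `z` used by the observable -/
theorem point_near {n : ℕ} {z : ℂ} {b : ℤ} (h : n * z.im < b) :
    |((⌊n * z.re⌋ : ℤ) : ℝ) - n * z.re| ≤ 1 ∧ |((min (⌊n * z.im⌋ + 1) (b - 1) : ℤ) : ℝ) - n * z.im| ≤ 1 := by
  have h1 := Int.floor_le (n * z.re)
  have h2 := Int.lt_floor_add_one (n * z.re)
  have h3 := Int.floor_le (n * z.im)
  have h4 := Int.lt_floor_add_one (n * z.im)
  have h5 : ⌊n * z.im⌋ < b := Int.floor_lt.2 h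
  rw [abs_le, abs_le]
  refine ⟨⟨by linarith, by linarith⟩, ?_⟩
  rcases le_total (⌊n * z.im⌋ + 1) (b - 1) with h6 | h6
  · rw [min_eq_left h6]
    push_cast
    constructor <;> linarith
  · rw [min_eq_right h6]
    rcases (show b - 1 = ⌊n * z.im⌋ ∨ b - 1 = ⌊n * z.im⌋ + 1 by omega) with h7 | h7
    · rw [h7]
      constructor <;> linarith
    · rw [h7]
      push_cast
      constructor <;> linarith

end Full.P5
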