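import Pool.Agent.Full.P5.NearArc
import Pool.Agent.Full.Geo.Deep
import Pool.Agent.Full.Geo.LabelZ
import Pool.Agent.Full.Geo.WallsF
import Pool.Agent.Full.Def.Stat

/-!
# (S3a), (S3b): the observable near the arcs and near the marks
-/

set_option autoImplicit false
set_option linter.unusedSectionVars false

namespace Full
open Function Relation Shape Filter Metric P5
open Pool.Agent.Helper69.RSW (P_le_one)

/-- the labels of the boundary of the domain with the end `z` -/
theorem P5.exists_ZL {S : Shape} (hS : S.Ok) {m : S.Marks} (hm : m.Ok) {n : ℕ} {s : S.Q × Bool → ℕ}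
    (hs : S.Small n s) {σ : Fin 4 → ℕ} (hσ : ∀ j, 4 * σ j ≤ n) {q : S.Q} {x y : ℤ} (h : S.In n s q x y) :
    ∃ lab, ZL m n s σ q x y lab := by
  obtain ⟨lab, h1, h2, h3, h4⟩ := lab_z hS hm hs hσ h
  refine ⟨lab, h1, h2, h3, fun u hu huz t ht => ?_⟩
  have h5 := h4 u hu huz
  have h6 : pz u.1 = t := by
    rcases ht with ht | ht
    · rw [ht]; rfl
    · rw [ht]; rfl
  rw [h6] at h5
  exact h5

/-- **(S3a)** the three arcs -/
theorem s3a : S3a := by
  obtain ⟨C, c, hC, hc, harc⟩ := arc_le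
  refine ⟨2 * C, c, hc, ?_⟩
  intro S hS m hm j δ R hδ hδR ε hε
  filter_upwards [eventually_ge_atTop 8] with n hn z hz h1 h2
  obtain ⟨q, hq, hF, hIn⟩ := deep_F hS m hn hz
  have hnear := floor_near (n := n) (q := q) (z := z) (by omega) hq.2.2
  rw [hF]
  have key : infDist (Fav m n q ⌊n * z.re⌋ (min (⌊n * z.im⌋ + 1) (S.ft n q - 1))) (side j) ≤
      2 * (C * (δ / R) ^ c) := by
    unfold Fav
    refine infDist_avSh (convex_segment _ _) (exists_wall hS m hm hn q hIn) fun a ha => ?_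
    obtain ⟨lab, hl⟩ := exists_ZL hS hm (a.small hn) a.σ_le (hIn a)
    have hL := zlab hS (a.small hn) (hIn a) hl.step hl.bd hl.lab_e ha.choose_spec
    obtain ⟨y, hy, hy'⟩ := hL.dist_side j
    refine ⟨y, hy, ?_⟩
    have e1 : Fz m n q ⌊n * z.re⌋ (min (⌊n * z.im⌋ + 1) (S.ft n q - 1)) a =
        obs (S.zT n a.s q (min (⌊n * z.im⌋ + 1) (S.ft n q - 1))) ha.choose
          (zz ⌊n * z.re⌋ (min (⌊n * z.im⌋ + 1) (S.ft n q - 1))) fun j => m.ez n a.σ q j.castSucc := dif_pos ha
    rw [e1]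
    refine hy'.trans (mul_le_mul_of_nonneg_left ?_ (by norm_num))
    exact harc S hS m hm n a.s (a.small hn) a.σ q _ _ (hIn a) z (by rw [abs_sub_comm]; exact hnear.1)
      (by rw [abs_sub_comm]; exact hnear.2) lab hl _ ha.choose_spec j δ R hδ hδR h1 h2
  linarith

/-- **(S3b)** the three marks -/
theorem s3b : S3b := by
  obtain ⟨C, c, hC, hc, hmark⟩ := mark_le
  refine ⟨4 * max 1 C * 2 ^ c, c, hc, ?_⟩
  intro S hS m hm j δ R hδ hδR ε hε
  filter_upwards [eventually_ge_atTop 8] with n hn z hz h1 h2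
  obtain ⟨q, hq, hF, hIn⟩ := deep_F hS m hn hz
  have hnear := floor_near (n := n) (q := q) (z := z) (by omega) hq.2.2
  have hR0 : 0 < R := by linarith
  have hn8 : (8 : ℝ) ≤ n := by exact_mod_cast hn
  have hp0 : (0 : ℝ) ≤ 2 ^ c * (δ / R) ^ c := by positivity
  have hM : (1 : ℝ) ≤ max 1 C := le_max_left _ _
  have hMC : C ≤ max 1 C := le_max_right _ _
  rw [hF, ← infDist_singleton]
  have key : infDist (Fav m n q ⌊n * z.re⌋ (min (⌊n * z.im⌋ + 1) (S.ft n q - 1))) {vert j} ≤
      4 * (max 1 C * (2 ^ c * (δ / R) ^ c)) := by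
    unfold Fav
    refine infDist_avSh (convex_singleton _) (exists_wall hS m hm hn q hIn) fun a ha => ?_
    obtain ⟨lab, hl⟩ := exists_ZL hS hm (a.small hn) a.σ_le (hIn a)
    have hL := zlab hS (a.small hn) (hIn a) hl.step hl.bd hl.lab_e ha.choose_spec
    refine ⟨vert j, rfl, ?_⟩
    have e1 : Fz m n q ⌊n * z.re⌋ (min (⌊n * z.im⌋ + 1) (S.ft n q - 1)) a =
        obs (S.zT n a.s q (min (⌊n * z.im⌋ + 1) (S.ft n q - 1))) ha.choose
          (zz ⌊n * z.re⌋ (min (⌊n * z.im⌋ + 1) (S.ft n q - 1))) fun j => m.ez n a.σ q j.castSucc := dif_pos ha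
    rw [e1]
    refine (hL.dist_vert j).trans ?_
    have hex : ∀ h : Fin 3, h ≠ j → ex (S.zT n a.s q (min (⌊n * z.im⌋ + 1) (S.ft n q - 1))) ha.choose
          (zz ⌊n * z.re⌋ (min (⌊n * z.im⌋ + 1) (S.ft n q - 1))) (fun j => m.ez n a.σ q j.castSucc) h ≤
          max 1 C * (2 ^ c * (δ / R) ^ c) := by
      intro h hh
      by_cases hR : R ≤ 2 * δ
      · refine (P_le_one _ _).trans ?_
        have h3 : (1 : ℝ) ≤ 2 * (δ / R) := by
          rw [mul_div_assoc', le_div_iff₀ hR0]
          linarith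
        have h4 : (1 : ℝ) ≤ (2 * (δ / R)) ^ c := Real.one_le_rpow h3 hc.le
        rw [Real.mul_rpow (by norm_num) (by positivity)] at h4
        nlinarith
      · have hR : 2 * δ < R := not_le.1 hR
        set r : ℕ := ⌈4 * n * δ⌉₊ with hr
        have hr1 : 4 * n * δ ≤ r := Nat.le_ceil _
        have hr2 : (r : ℝ) < 4 * n * δ + 1 := Nat.ceil_lt_add_one (by positivity)
        have hr3 : 1 ≤ r := by
          have : (1 : ℝ) ≤ r := by nlinarith
          exact_mod_cast this
        have hp := path_mark (r := (r : ℤ)) hS (tree hS) hm (a.small hn) (a.σ_le j.castSucc) (hIn a)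
          ⟨⟨hq.1.1.le, hq.1.2.le⟩, hq.2.1, hq.2.2.le⟩ hnear.1 hnear.2 hδ h1 (by exact_mod_cast hr1)
        have h3 := hmark S hS m hm n a.s (a.small hn) a.σ q _ _ (hIn a) z (by rw [abs_sub_comm]; exact hnear.1)
          (by rw [abs_sub_comm]; exact hnear.2) lab hl _ ha.choose_spec j h δ (R / 2) r hh hδ (by linarith) hr3
          (by nlinarith) hp (fun w hw => by
            have h4 := h2 w hw
            have h5 : dist z (m.pt j.castSucc) < δ := h1.source_mem.2
            have h6 := dist_triangle (m.pt j.castSucc) z w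
            rw [dist_comm (m.pt j.castSucc) z] at h6
            linarith)
        refine h3.trans ?_
        have h4 : δ / (R / 2) = 2 * (δ / R) := by field_simp
        rw [h4, Real.mul_rpow (by norm_num) (by positivity)]
        nlinarith
    have h3 := hex (j + 1) (fn1 j)
    have h4 := hex (j + 2) (fj2 j)
    linarith
  linarith

end Full
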