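import Pool.Agent.Full.P5.ZChart

/-!
# Discrete paths in the domain with an interior end

Paths of half edges (turn inside a tile, cross a glued side) from the end `z`: to a boundary half edge near
a tile outside of the region, and to the marks.  All paths stay in a ball around `z`.
-/

set_option autoImplicit false

namespace Full.P5
open Function Relation

/-! ### paths of tiles and of half edges -/

section walk
variable {τ : Type*}

/-- neighbouring tiles in `A` -/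
def NbT (σ : Surf τ) (A : τ → Prop) (t t' : τ) : Prop := A t ∧ A t' ∧ ∃ d, t' ∈ σ.nb d t

lemma NbT.symm {σ : Surf τ} {A : τ → Prop} {t t' : τ} (h : NbT σ A t t') : NbT σ A t' t := by
  obtain ⟨h1, h2, d, h3⟩ := h
  exact ⟨h2, h1, d.opp, Surf.mem_nb.1 h3⟩

lemma nbT_symm {σ : Surf τ} {A : τ → Prop} {t t' : τ} (h : ReflTransGen (NbT σ A) t t') :
    ReflTransGen (NbT σ A) t' t := by
  induction h with
  | refl => exact ReflTransGen.refl
  | tail _ h2 ih => exact ReflTransGen.head h2.symm ih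

/-- one step of a path of half edges in `Q` -/
def PS (T : Finset τ) (g : Half τ → Half τ) (Q : Half τ → Prop) (u v : Half τ) : Prop :=
  u.1 ∈ T ∧ Q u ∧ (v = rho u ∨ v = g u)

/-- turning inside a tile -/
lemma turn {T : Finset τ} {g : Half τ → Half τ} {Q : Half τ → Prop} {t : τ} (ht : t ∈ T)
    (hQ : ∀ d, Q (t, d)) (d d' : Dir) : ReflTransGen (PS T g Q) (t, d) (t, d') := by
  have s : ∀ d, PS T g Q (t, d) (t, d.ccw) := fun d => ⟨ht, hQ d, Or.inl rfl⟩
  have h1 := ReflTransGen.single (s d)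
  have h2 := h1.tail (s _)
  have h3 := h2.tail (s _)
  cases d <;> cases d' <;> first | exact ReflTransGen.refl | exact h1 | exact h2 | exact h3

/-- a path of tiles is a path of half edges -/
lemma tile_path [DecidableEq τ] {σ : Surf τ} {T : Finset τ} {A : τ → Prop} {Q : Half τ → Prop}
    (hA : ∀ t, A t → t ∈ T ∧ ∀ d, Q (t, d)) {t t' : τ} (h : ReflTransGen (NbT σ A) t t') (ht : A t)
    (d d' : Dir) : ReflTransGen (PS T (σ.glue T) Q) (t, d) (t', d') := by
  induction h generalizing d' with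
  | refl => exact turn (hA t ht).1 (hA t ht).2 d d'
  | @tail b c _ h2 ih =>
    obtain ⟨h3, h4, e, h5⟩ := h2
    have h6 := ih e
    have h7 : σ.glue T (b, e) = (c, e.opp) := Surf.glue_of_mem h5 (hA b h3).1 (hA c h4).1
    exact (h6.tail ⟨(hA b h3).1, (hA b h3).2 e, Or.inr h7.symm⟩).trans
      (turn (hA c h4).1 (hA c h4).2 _ d')

lemma line {σ : Surf τ} {A : τ → Prop} (e : ℤ → τ) (d : Dir) {a b : ℤ} (hab : a ≤ b)
    (hA : ∀ i, a ≤ i → i ≤ b → A (e i)) (hn : ∀ i, a ≤ i → i < b → e (i + 1) ∈ σ.nb d (e i)) :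
    ReflTransGen (NbT σ A) (e a) (e b) := by
  induction b, hab using Int.leInduction with
  | base => exact ReflTransGen.refl
  | succ b hab ih =>
    refine (ih (fun i h1 h2 => hA i h1 (by omega)) fun i h1 h2 => hn i h1 (by omega)).tail ?_
    exact ⟨hA b hab (by omega), hA (b + 1) (by omega) le_rfl, d, hn b hab (by omega)⟩

/-- two tiles of a rectangle are joined -/
lemma rect {σ : Surf τ} {A : τ → Prop} (e : ℤ × ℤ → τ) {a b c d : ℤ}
    (hA : ∀ i j, a ≤ i → i < b → c ≤ j → j < d → A (e (i, j)))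
    (hE : ∀ i j, a ≤ i → i + 1 < b → c ≤ j → j < d → e (i + 1, j) ∈ σ.nb .E (e (i, j)))
    (hN : ∀ i j, a ≤ i → i < b → c ≤ j → j + 1 < d → e (i, j + 1) ∈ σ.nb .N (e (i, j)))
    {t t' : ℤ × ℤ} (h : (a ≤ t.1 ∧ t.1 < b) ∧ c ≤ t.2 ∧ t.2 < d)
    (h' : (a ≤ t'.1 ∧ t'.1 < b) ∧ c ≤ t'.2 ∧ t'.2 < d) :
    ReflTransGen (NbT σ A) (e t) (e t') := by
  have key : ∀ t : ℤ × ℤ, ((a ≤ t.1 ∧ t.1 < b) ∧ c ≤ t.2 ∧ t.2 < d) →
      ReflTransGen (NbT σ A) (e (a, c)) (e t) := by
    rintro ⟨i, j⟩ ⟨⟨h1, h2⟩, h3, h4⟩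
    simp only at h1 h2 h3 h4
    have k1 := line (σ := σ) (A := A) (fun k => e (a, k)) .N h3
      (fun k h5 h6 => hA a k le_rfl (by omega) h5 (by omega))
      (fun k h5 h6 => hN a k le_rfl (by omega) h5 (by omega))
    have k2 := line (σ := σ) (A := A) (fun k => e (k, j)) .E h1
      (fun k h5 h6 => hA k j h5 (by omega) h3 h4)
      (fun k h5 h6 => hE k j h5 (by omega) h3 h4)
    exact k1.trans k2
  exact (nbT_symm (key t h)).trans (key t' h')

/-- a straight walk which leaves the region -/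
lemma walk [DecidableEq τ] {σ : Surf τ} {T : Finset τ} {A : τ → Prop} (t : ℕ → τ) (d : Dir) (K : ℕ)
    (h0 : t 0 ∈ T) (hA : ∀ k < K, t k ∈ T → A (t k)) (hn : ∀ k < K, σ.nb d (t k) = some (t (k + 1)))
    (hK : t K ∉ T) : ∃ k < K, A (t k) ∧ ReflTransGen (NbT σ A) (t 0) (t k) ∧
      Bd T (σ.glue T) (t k, d) := by
  classical
  have hex : ∃ k, t k ∉ T := ⟨K, hK⟩
  set m := Nat.find hex with hm
  have hm1 : t m ∉ T := Nat.find_spec hex
  have hm2 : ∀ k < m, t k ∈ T := fun k hk => by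
    by_contra h
    exact Nat.find_min hex hk h
  have hmK : m ≤ K := Nat.find_min' hex hK
  have hm0 : m ≠ 0 := fun h => hm1 (by rw [h]; exact h0)
  obtain ⟨k, hk⟩ := Nat.exists_eq_succ_of_ne_zero hm0
  have hkA : ∀ i ≤ k, A (t i) := fun i hi => hA i (by omega) (hm2 i (by omega))
  refine ⟨k, by omega, hkA k le_rfl, ?_, hm2 k (by omega), ?_⟩
  · have key : ∀ i ≤ k, ReflTransGen (NbT σ A) (t 0) (t i) := by
      intro i
      induction i with
      | zero => intro _; exact ReflTransGen.refl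
      | succ i ih =>
        intro hi
        exact (ih (by omega)).tail ⟨hkA i (by omega), hkA (i + 1) hi, d, hn i (by omega)⟩
    exact key k le_rfl
  · rcases σ.glue_cases (T := T) (t k, d) with h1 | ⟨t', h1, h2, h3, -⟩
    · exact h1
    · exfalso
      have h4 := hn k (by omega)
      simp only at h1
      rw [h4, Option.mem_def, Option.some_inj] at h1
      rw [← h1] at h3
      rw [hk] at hm1
      exact hm1 h3

end walk

/-! ### the two sheets -/

section sheets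
open Shape
variable {S : Shape} {n : ℕ} {s : S.Q × Bool → ℕ} {q : S.Q} {x y ρ : ℤ}

/-- the tile is at distance at most `ρ` of `(x, y)` -/
def Nr (x y ρ : ℤ) (t : ℤ × ℤ) : Prop := (x - ρ ≤ t.1 ∧ t.1 ≤ x + ρ) ∧ y - ρ ≤ t.2 ∧ t.2 ≤ y + ρ

/-- the tiles of the two sheets near `z` -/
def ZA (S : Shape) (n : ℕ) (s : S.Q × Bool → ℕ) (q : S.Q) (x y ρ : ℤ) (t : ZT) : Prop :=
  t ∈ S.zT n s q y ∧ Nr x y ρ (Sum.elim id id t)

/-- the tiles of the room `p` in the two sheets -/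
def Lf (S : Shape) (n : ℕ) (s : S.Q × Bool → ℕ) (q : S.Q) (y : ℤ) (p : S.Q) : ZT → Prop
  | .inl t => (p ∈ S.part q false ∧ t ∈ S.room n s p) ∨
      (p = q ∧ (S.fl n s q ≤ t.1 ∧ t.1 < S.fr n s q + 1) ∧ S.fb n q ≤ t.2 ∧ t.2 < y)
  | .inr t => (p ∈ S.part q true ∧ t ∈ S.room n s p) ∨
      (p = q ∧ (S.fl n s q ≤ t.1 ∧ t.1 < S.fr n s q) ∧ y ≤ t.2 ∧ t.2 < S.ft n q)

lemma mem_zT_iff {t : ZT} : t ∈ S.zT n s q y ↔ ∃ p, Lf S n s q y p t := by
  unfold Shape.zT
  rcases t with t | t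
  · rw [Finset.inl_mem_disjSum, Finset.mem_union, mem_side]
    obtain ⟨i, j⟩ := t
    rw [mem_box]
    constructor
    · rintro (⟨p, h1, h2⟩ | h)
      · exact ⟨p, Or.inl ⟨h1, h2⟩⟩
      · exact ⟨q, Or.inr ⟨rfl, h⟩⟩
    · rintro ⟨p, h | ⟨rfl, h⟩⟩
      · exact Or.inl ⟨p, h⟩
      · exact Or.inr h
  · rw [Finset.inr_mem_disjSum, Finset.mem_union, mem_side]
    obtain ⟨i, j⟩ := t
    rw [mem_box]
    constructor
    · rintro (⟨p, h1, h2⟩ | h)
      · exact ⟨p, Or.inl ⟨h1, h2⟩⟩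
      · exact ⟨q, Or.inr ⟨rfl, h⟩⟩
    · rintro ⟨p, h | ⟨rfl, h⟩⟩
      · exact Or.inl ⟨p, h⟩
      · exact Or.inr h

lemma Lf.mem {p : S.Q} {t : ZT} (h : Lf S n s q y p t) : t ∈ S.zT n s q y := mem_zT_iff.2 ⟨p, h⟩

/-- joined near `z` -/
abbrev JZ (S : Shape) (n : ℕ) (s : S.Q × Bool → ℕ) (q : S.Q) (x y ρ : ℤ) : ZT → ZT → Prop :=
  ReflTransGen (NbT (zsurf (S.fl n s q) (S.fr n s q) x y y y) (ZA S n s q x y ρ))

lemma nbE_low {i j : ℤ} : (Sum.inl (i + 1, j) : ZT) ∈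
    (zsurf (S.fl n s q) (S.fr n s q) x y y y).nb .E (.inl (i, j)) := zs_E_low_open (by omega)

lemma nbE_up {i j : ℤ} : (Sum.inr (i + 1, j) : ZT) ∈
    (zsurf (S.fl n s q) (S.fr n s q) x y y y).nb .E (.inr (i, j)) := zs_E_up_open (by omega)

variable (hS : S.Ok) (hs : S.Small2 n s) (hd : S.Tree) (hIn : S.In n s q x y)
include hS hs hd hIn

/-- the tiles of a room near `z` are joined near `z` -/
theorem room_join (hρ : 1 ≤ ρ) {p : S.Q} {t t' : ZT} (h : Lf S n s q y p t) (h' : Lf S n s q y p t')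
    (hn : Nr x y ρ (Sum.elim id id t)) (hn' : Nr x y ρ (Sum.elim id id t')) :
    JZ S n s q x y ρ t t' := by
  obtain ⟨⟨i1, i2⟩, i3, i4⟩ := hIn
  -- the lower part
  have low : ∀ {t t' : ℤ × ℤ}, p ∈ S.part q false → t ∈ S.room n s p → t' ∈ S.room n s p →
      Nr x y ρ t → Nr x y ρ t' → JZ S n s q x y ρ (.inl t) (.inl t') := by
    intro t t' hp ht ht' hn hn'
    rw [mem_room] at ht ht'
    obtain ⟨⟨n1, n2⟩, n3, n4⟩ := hn
    obtain ⟨⟨m1, m2⟩, m3, m4⟩ := hn'
    refine rect (fun t => Sum.inl t) (a := max (S.fl n s p) (x - ρ)) (b := min (S.fr n s p) (x + ρ + 1))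
      (c := max (S.fb n p) (y - ρ)) (d := min (S.ft n p) (y + ρ + 1)) ?_ ?_ ?_ ?_ ?_
    · intro i j h1 h2 h3 h4
      refine ⟨Lf.mem (p := p) (Or.inl ⟨hp, mem_room.2 ?_⟩), ?_⟩
      · simp only; omega
      · show (_ ∧ _) ∧ _
        simp only [Sum.elim_inl, id]
        omega
    · intro i j _ _ _ _
      exact nbE_low
    · intro i j h1 h2 h3 h4
      refine zs_N_low ?_
      rintro ⟨h5, h6, h7⟩
      exact side_low_near hS hs hd q (i := i) (j := j) (by omega) (by omega) (by omega) (by omega)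
        (mem_side.2 ⟨p, hp, mem_room.2 (by simp only; omega)⟩)
    · omega
    · omega
  have up : ∀ {t t' : ℤ × ℤ}, p ∈ S.part q true → t ∈ S.room n s p → t' ∈ S.room n s p →
      Nr x y ρ t → Nr x y ρ t' → JZ S n s q x y ρ (.inr t) (.inr t') := by
    intro t t' hp ht ht' hn hn'
    rw [mem_room] at ht ht'
    obtain ⟨⟨n1, n2⟩, n3, n4⟩ := hn
    obtain ⟨⟨m1, m2⟩, m3, m4⟩ := hn'
    refine rect (fun t => Sum.inr t) (a := max (S.fl n s p) (x - ρ)) (b := min (S.fr n s p) (x + ρ + 1))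
      (c := max (S.fb n p) (y - ρ)) (d := min (S.ft n p) (y + ρ + 1)) ?_ ?_ ?_ ?_ ?_
    · intro i j h1 h2 h3 h4
      refine ⟨Lf.mem (p := p) (Or.inl ⟨hp, mem_room.2 ?_⟩), ?_⟩
      · simp only; omega
      · show (_ ∧ _) ∧ _
        simp only [Sum.elim_inr, id]
        omega
    · intro i j _ _ _ _
      exact nbE_up
    · intro i j h1 h2 h3 h4
      refine zs_N_up ?_
      rintro ⟨h5, h6, h7⟩
      exact side_up_near hS hs hd q (i := i) (j := j) (by omega) (by omega) (by omega) (by omega)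
        (mem_side.2 ⟨p, hp, mem_room.2 (by simp only; omega)⟩)
    · omega
    · omega
  -- the room of `z`
  have qlow : ∀ {t t' : ℤ × ℤ}, ((S.fl n s q ≤ t.1 ∧ t.1 < S.fr n s q + 1) ∧ S.fb n q ≤ t.2 ∧ t.2 < y) →
      ((S.fl n s q ≤ t'.1 ∧ t'.1 < S.fr n s q + 1) ∧ S.fb n q ≤ t'.2 ∧ t'.2 < y) →
      Nr x y ρ t → Nr x y ρ t' → JZ S n s q x y ρ (.inl t) (.inl t') := by
    intro t t' ht ht' hn hn'
    obtain ⟨⟨n1, n2⟩, n3, n4⟩ := hn
    obtain ⟨⟨m1, m2⟩, m3, m4⟩ := hn'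
    refine rect (fun t => Sum.inl t) (a := max (S.fl n s q) (x - ρ)) (b := min (S.fr n s q + 1) (x + ρ + 1))
      (c := max (S.fb n q) (y - ρ)) (d := min y (y + ρ + 1)) ?_ ?_ ?_ ?_ ?_
    · intro i j h1 h2 h3 h4
      refine ⟨Lf.mem (p := q) (Or.inr ⟨rfl, ?_⟩), ?_⟩
      · simp only; omega
      · show (_ ∧ _) ∧ _
        simp only [Sum.elim_inl, id]
        omega
    · intro i j _ _ _ _
      exact nbE_low
    · intro i j h1 h2 h3 h4
      exact zs_N_low (by omega)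
    · omega
    · omega
  have qup : ∀ {t t' : ℤ × ℤ}, ((S.fl n s q ≤ t.1 ∧ t.1 < S.fr n s q) ∧ y ≤ t.2 ∧ t.2 < S.ft n q) →
      ((S.fl n s q ≤ t'.1 ∧ t'.1 < S.fr n s q) ∧ y ≤ t'.2 ∧ t'.2 < S.ft n q) →
      Nr x y ρ t → Nr x y ρ t' → JZ S n s q x y ρ (.inr t) (.inr t') := by
    intro t t' ht ht' hn hn'
    obtain ⟨⟨n1, n2⟩, n3, n4⟩ := hn
    obtain ⟨⟨m1, m2⟩, m3, m4⟩ := hn'
    refine rect (fun t => Sum.inr t) (a := max (S.fl n s q) (x - ρ)) (b := min (S.fr n s q) (x + ρ + 1))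
      (c := max y (y - ρ)) (d := min (S.ft n q) (y + ρ + 1)) ?_ ?_ ?_ ?_ ?_
    · intro i j h1 h2 h3 h4
      refine ⟨Lf.mem (p := q) (Or.inr ⟨rfl, ?_⟩), ?_⟩
      · simp only; omega
      · show (_ ∧ _) ∧ _
        simp only [Sum.elim_inr, id]
        omega
    · intro i j _ _ _ _
      exact nbE_up
    · intro i j h1 h2 h3 h4
      exact zs_N_up (by omega)
    · omega
    · omega
  have cross : ∀ {t t' : ℤ × ℤ}, ((S.fl n s q ≤ t.1 ∧ t.1 < S.fr n s q + 1) ∧ S.fb n q ≤ t.2 ∧ t.2 < y) →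
      ((S.fl n s q ≤ t'.1 ∧ t'.1 < S.fr n s q) ∧ y ≤ t'.2 ∧ t'.2 < S.ft n q) →
      Nr x y ρ t → Nr x y ρ t' → JZ S n s q x y ρ (.inl t) (.inr t') := by
    intro t t' ht ht' hn hn'
    have k1 : ((S.fl n s q ≤ x - 1 ∧ x - 1 < S.fr n s q + 1) ∧ S.fb n q ≤ y - 1 ∧ y - 1 < y) := by omega
    have k2 : ((S.fl n s q ≤ x - 1 ∧ x - 1 < S.fr n s q) ∧ y ≤ y ∧ y < S.ft n q) := by omega
    have k3 : Nr x y ρ (x - 1, y - 1) := by unfold Nr; simp only; omega
    have k4 : Nr x y ρ (x - 1, y) := by unfold Nr; simp only; omega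
    have h1 := qlow (t := t) (t' := (x - 1, y - 1)) ht k1 hn k3
    have h2 := qup (t := (x - 1, y)) (t' := t') k2 ht' k4 hn'
    have k5 : Lf S n s q y q (.inl (x - 1, y - 1)) := Or.inr ⟨rfl, k1⟩
    have k6 : Lf S n s q y q (.inr (x - 1, y)) := Or.inr ⟨rfl, k2⟩
    refine (h1.tail ⟨⟨k5.mem, k3⟩, ⟨k6.mem, k4⟩, .N, ?_⟩).trans h2
    exact zs_N_left (by omega) (by omega) (by omega)
  rcases t with t | t <;> rcases t' with t' | t'
  · rcases h with ⟨h1, h2⟩ | ⟨rfl, h2⟩ <;> rcases h' with ⟨h3, h4⟩ | ⟨h3, h4⟩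
    · exact low h1 h2 h4 hn hn'
    · subst h3; exact absurd h1 (not_mem_part _ _)
    · exact absurd h3 (not_mem_part _ _)
    · exact qlow h2 h4 hn hn'
  · rcases h with ⟨h1, h2⟩ | ⟨rfl, h2⟩ <;> rcases h' with ⟨h3, h4⟩ | ⟨h3, h4⟩
    · exact absurd h3 (Set.disjoint_left.1 (hd q) h1)
    · subst h3; exact absurd h1 (not_mem_part _ _)
    · exact absurd h3 (not_mem_part _ _)
    · exact cross h2 h4 hn hn'
  · rcases h with ⟨h1, h2⟩ | ⟨rfl, h2⟩ <;> rcases h' with ⟨h3, h4⟩ | ⟨h3, h4⟩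
    · exact absurd h1 (Set.disjoint_left.1 (hd q) h3)
    · subst h3; exact absurd h1 (not_mem_part _ _)
    · exact absurd h3 (not_mem_part _ _)
    · exact nbT_symm (cross h4 h2 hn' hn)
  · rcases h with ⟨h1, h2⟩ | ⟨rfl, h2⟩ <;> rcases h' with ⟨h3, h4⟩ | ⟨h3, h4⟩
    · exact up h1 h2 h4 hn hn'
    · subst h3; exact absurd h1 (not_mem_part _ _)
    · exact absurd h3 (not_mem_part _ _)
    · exact qup h2 h4 hn hn'

/-- two rooms which touch near `z` are joined near `z` -/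
theorem iface {a b : S.Q} (h : S.On a b) {i : ℤ} (ha : (i, S.ft n a - 1) ∈ S.room n s a)
    (hb : (i, S.ft n a) ∈ S.room n s b) (na : Nr x y ρ (i, S.ft n a - 1)) (nb : Nr x y ρ (i, S.ft n a)) :
    ∃ t t' : ZT, Lf S n s q y a t ∧ Lf S n s q y b t' ∧ Nr x y ρ (Sum.elim id id t) ∧
      Nr x y ρ (Sum.elim id id t') ∧ JZ S n s q x y ρ t t' := by
  obtain ⟨⟨i1, i2⟩, i3, i4⟩ := hIn
  have e1 : S.ft n a - 1 + 1 = S.ft n a := by omega
  have hlow : ∀ {b' : S.Q}, a ∈ S.part q false → Lf S n s q y b' (.inl (i, S.ft n a)) →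
      ∃ t t' : ZT, Lf S n s q y a t ∧ Lf S n s q y b' t' ∧ Nr x y ρ (Sum.elim id id t) ∧
      Nr x y ρ (Sum.elim id id t') ∧ JZ S n s q x y ρ t t' := by
    intro b' h1 h2
    have k1 : Lf S n s q y a (.inl (i, S.ft n a - 1)) := Or.inl ⟨h1, ha⟩
    refine ⟨_, _, k1, h2, na, nb, ReflTransGen.single ⟨⟨k1.mem, na⟩, ⟨h2.mem, nb⟩, .N, ?_⟩⟩
    have k2 := zs_N_low (l := S.fl n s q) (r := S.fr n s q) (x := x) (y := y) (b := y) (t := y)
      (i := i) (j := S.ft n a - 1) (by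
        rintro ⟨h5, h6, h7⟩
        exact side_low_near hS hs hd q (i := i) (j := S.ft n a - 1) (by omega) (by omega) (by omega)
          (by omega) (mem_side.2 ⟨a, h1, ha⟩))
    rw [e1] at k2
    exact k2
  by_cases hbq : b = q
  · subst hbq
    refine hlow (part_of_on' h) (Or.inr ⟨rfl, ?_⟩)
    have := on_ft (n := n) hS h
    rw [mem_room] at hb
    simp only at hb ⊢
    omega
  by_cases haq : a = q
  · subst haq
    have h2 := part_of_on h
    have k1 : Lf S n s a y a (.inr (i, S.ft n a - 1)) := by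
      refine Or.inr ⟨rfl, ?_⟩
      rw [mem_room] at ha
      simp only at ha ⊢
      omega
    have k2 : Lf S n s a y b (.inr (i, S.ft n a)) := Or.inl ⟨h2, hb⟩
    refine ⟨_, _, k1, k2, na, nb, ReflTransGen.single ⟨⟨k1.mem, na⟩, ⟨k2.mem, nb⟩, .N, ?_⟩⟩
    have k2 := zs_N_up (l := S.fl n s a) (r := S.fr n s a) (x := x) (y := y) (b := y) (t := y)
      (i := i) (j := S.ft n a - 1) (by omega)
    rw [e1] at k2
    exact k2
  rcases part_cover hS q a haq with h1 | h1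
  · exact hlow h1 (Or.inl ⟨part_step h1 hbq (Or.inl h), hb⟩)
  · have k1 : Lf S n s q y a (.inr (i, S.ft n a - 1)) := Or.inl ⟨h1, ha⟩
    have k2 : Lf S n s q y b (.inr (i, S.ft n a)) := Or.inl ⟨part_step h1 hbq (Or.inl h), hb⟩
    refine ⟨_, _, k1, k2, na, nb, ReflTransGen.single ⟨⟨k1.mem, na⟩, ⟨k2.mem, nb⟩, .N, ?_⟩⟩
    have k2 := zs_N_up (l := S.fl n s q) (r := S.fr n s q) (x := x) (y := y) (b := y) (t := y)
      (i := i) (j := S.ft n a - 1) (by
        rintro ⟨h5, h6, h7⟩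
        exact side_up_near hS hs hd q (i := i) (j := S.ft n a - 1) (by omega) (by omega) (by omega)
          (by omega) (mem_side.2 ⟨a, h1, ha⟩))
    rw [e1] at k2
    exact k2

omit hS hs hd hIn in
/-- two rooms which touch near `z` -/
def Tch (S : Shape) (n : ℕ) (s : S.Q × Bool → ℕ) (x y ρ : ℤ) (a b : S.Q) : Prop :=
  S.On a b ∧ ∃ i : ℤ, (i, S.ft n a - 1) ∈ S.room n s a ∧ (i, S.ft n a) ∈ S.room n s b ∧
    Nr x y ρ (i, S.ft n a - 1) ∧ Nr x y ρ (i, S.ft n a)

/-- a chain of rooms which touch near `z` -/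
theorem chain_join (hρ : 1 ≤ ρ) {a b : S.Q}
    (h : ReflTransGen (fun a b => Tch S n s x y ρ a b ∨ Tch S n s x y ρ b a) a b) {t t' : ZT}
    (ht : Lf S n s q y a t) (ht' : Lf S n s q y b t') (hn : Nr x y ρ (Sum.elim id id t))
    (hn' : Nr x y ρ (Sum.elim id id t')) : JZ S n s q x y ρ t t' := by
  induction h generalizing t' with
  | refl => exact room_join hS hs hd hIn hρ ht ht' hn hn'
  | @tail b c _ h2 ih =>
    rcases h2 with ⟨h3, i, h4, h5, h6, h7⟩ | ⟨h3, i, h4, h5, h6, h7⟩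
    · obtain ⟨u, u', k1, k2, k3, k4, k5⟩ := iface hS hs hd hIn h3 h4 h5 h6 h7
      exact ((ih k1 k3).trans k5).trans (room_join hS hs hd hIn hρ k2 ht' k4 hn')
    · obtain ⟨u, u', k1, k2, k3, k4, k5⟩ := iface hS hs hd hIn h3 h4 h5 h6 h7
      exact ((ih k2 k4).trans (nbT_symm k5)).trans (room_join hS hs hd hIn hρ k1 ht' k3 hn')

omit hS hs hd in
lemma lf_zz : Lf S n s q y q (zz x y).1 := by
  obtain ⟨⟨i1, i2⟩, i3, i4⟩ := hIn
  refine Or.inr ⟨rfl, ?_⟩
  simp only
  omega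

omit hS hs hd hIn in
lemma nr_zz (hρ : 1 ≤ ρ) : Nr x y ρ (Sum.elim id id (zz x y).1) := by
  show (_ ∧ _) ∧ _
  simp only [zz, Sum.elim_inl, id]
  omega

/-- **a tile outside of the region near `z`**: a boundary half edge is joined to `z` -/
theorem tile_out (hρ : 1 ≤ ρ) {c : ℤ × ℤ} (hc : c ∉ S.T n s) (hn : Nr x y ρ c) :
    ∃ b : Half ZT, Bd (S.zT n s q y) (S.zg n s q x y) b ∧ b ≠ zz x y ∧ ZA S n s q x y ρ b.1 ∧
      JZ S n s q x y ρ (zz x y).1 b.1 := by
  obtain ⟨⟨i1, i2⟩, i3, i4⟩ := id hIn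
  obtain ⟨⟨n1, n2⟩, n3, n4⟩ := hn
  have hz := lf_zz hIn
  have hnz := nr_zz (x := x) (y := y) hρ
  -- a boundary half edge of a tile of the room
  have fin : ∀ {t t' : ZT} {d : Dir}, Lf S n s q y q t → Nr x y ρ (Sum.elim id id t) →
      (zsurf (S.fl n s q) (S.fr n s q) x y y y).nb d t = some t' → t' ∉ S.zT n s q y →
      ∃ b : Half ZT, Bd (S.zT n s q y) (S.zg n s q x y) b ∧ b = (t, d) ∧ ZA S n s q x y ρ b.1 ∧
      JZ S n s q x y ρ (zz x y).1 b.1 := by
    intro t t' d h1 h2 h3 h4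
    refine ⟨(t, d), ⟨h1.mem, ?_⟩, rfl, ⟨h1.mem, h2⟩, room_join hS hs hd hIn hρ hz h1 hnz h2⟩
    rcases Surf.glue_cases (S := zsurf (S.fl n s q) (S.fr n s q) x y y y) (T := S.zT n s q y) (t, d)
      with h5 | ⟨t'', h5, h6, h7, -⟩
    · exact h5
    · exfalso
      simp only at h5
      rw [h3, Option.mem_def, Option.some_inj] at h5
      rw [← h5] at h7
      exact h4 h7
  rcases lt_or_ge c.1 (S.fl n s q) with hl | hl
  · -- the left wall
    have k1 : Lf S n s q y q (.inl (S.fl n s q, y - 1)) := by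
      refine Or.inr ⟨rfl, ?_⟩
      simp only
      omega
    have k2 : Nr x y ρ (Sum.elim id id (Sum.inl (S.fl n s q, y - 1) : ZT)) := by
      show (_ ∧ _) ∧ _
      simp only [Sum.elim_inl, id]
      omega
    have k3 : (zsurf (S.fl n s q) (S.fr n s q) x y y y).nb .W (.inl (S.fl n s q, y - 1)) =
        some (.inl (S.fl n s q - 1, y - 1)) := by
      have h5 : (Sum.inl (S.fl n s q, y - 1) : ZT) ∈
          (zsurf (S.fl n s q) (S.fr n s q) x y y y).nb .E (.inl (S.fl n s q - 1, y - 1)) := by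
        have := nbE_low (S := S) (n := n) (s := s) (q := q) (x := x) (y := y) (i := S.fl n s q - 1)
          (j := y - 1)
        rwa [sub_add_cancel] at this
      exact Surf.mem_nb.1 h5
    have k4 : (Sum.inl (S.fl n s q - 1, y - 1) : ZT) ∉ S.zT n s q y := by
      rw [mem_zT_iff]
      rintro ⟨p, ⟨h1, h2⟩ | ⟨rfl, h2⟩⟩
      · exact side_low_near hS hs hd q (by omega) (by omega) (by omega) (by omega) (mem_side.2 ⟨p, h1, h2⟩)
      · simp only at h2
        omega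
    obtain ⟨b, h1, h2, h3⟩ := fin k1 k2 k3 k4
    refine ⟨b, h1, ?_, h3⟩
    rw [h2]
    intro h
    exact Dir.noConfusion (congrArg Prod.snd h)
  rcases lt_or_ge c.1 (S.fr n s q) with hr | hr
  swap
  · -- the right wall
    have k1 : Lf S n s q y q (.inl (S.fr n s q, y - 1)) := by
      refine Or.inr ⟨rfl, ?_⟩
      simp only
      omega
    have k2 : Nr x y ρ (Sum.elim id id (Sum.inl (S.fr n s q, y - 1) : ZT)) := by
      show (_ ∧ _) ∧ _
      simp only [Sum.elim_inl, id]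
      omega
    have k4 : (Sum.inl (S.fr n s q + 1, y - 1) : ZT) ∉ S.zT n s q y := by
      rw [mem_zT_iff]
      rintro ⟨p, ⟨h1, h2⟩ | ⟨rfl, h2⟩⟩
      · exact side_low_near hS hs hd q (by omega) (by omega) (by omega) (by omega) (mem_side.2 ⟨p, h1, h2⟩)
      · simp only at h2
        omega
    obtain ⟨b, h1, h2, h3⟩ := fin (d := .E) k1 k2 nbE_low k4
    refine ⟨b, h1, ?_, h3⟩
    rw [h2]
    intro h
    exact Dir.noConfusion (congrArg Prod.snd h)
  rcases lt_or_ge c.2 (S.fb n q) with hb | hb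
  · -- down
    set σ := zsurf (S.fl n s q) (S.fr n s q) x y y y with hσ
    have k0 : Lf S n s q y q (.inl (c.1, S.fb n q)) := by
      refine Or.inr ⟨rfl, ?_⟩
      simp only
      omega
    have k2 : Nr x y ρ (Sum.elim id id (Sum.inl (c.1, S.fb n q) : ZT)) := by
      show (_ ∧ _) ∧ _
      simp only [Sum.elim_inl, id]
      omega
    obtain ⟨k, h1, h2, h3, h4⟩ := walk (σ := σ) (T := S.zT n s q y) (A := ZA S n s q x y ρ)
      (fun k : ℕ => (Sum.inl (c.1, S.fb n q - k) : ZT)) .S (S.fb n q - c.2).toNat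
      (by
        simp only [Nat.cast_zero, sub_zero]
        exact k0.mem)
      (by
        intro k hk h
        refine ⟨h, ?_⟩
        show (_ ∧ _) ∧ _
        simp only [Sum.elim_inl, id]
        omega)
      (by
        intro k hk
        have := zs_S_low (l := S.fl n s q) (r := S.fr n s q) (x := x) (y := y) (b := y) (t := y)
          (i := c.1) (j := S.fb n q - k) (by omega)
        simp only [Nat.cast_add, Nat.cast_one]
        rw [show S.fb n q - ((k : ℤ) + 1) = S.fb n q - k - 1 by ring]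
        exact this)
      (by
        rw [mem_zT_iff]
        have e : S.fb n q - ((S.fb n q - c.2).toNat : ℤ) = c.2 := by omega
        simp only [e]
        rintro ⟨p, ⟨h1, h2⟩ | ⟨rfl, h2⟩⟩
        · exact hc (room_sub_T h2)
        · simp only at h2
          omega)
    refine ⟨_, h4, ?_, h2, ?_⟩
    · intro h
      exact Dir.noConfusion (congrArg Prod.snd h)
    · refine (room_join hS hs hd hIn hρ hz k0 hnz k2).trans ?_
      simp only [Nat.cast_zero, sub_zero] at h3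
      exact h3
  rcases lt_or_ge c.2 (S.ft n q) with ht | ht
  · exact absurd (room_sub_T (mem_room.2 ⟨⟨hl, hr⟩, hb, ht⟩)) hc
  · -- up
    set σ := zsurf (S.fl n s q) (S.fr n s q) x y y y with hσ
    have k0 : Lf S n s q y q (.inr (c.1, S.ft n q - 1)) := by
      refine Or.inr ⟨rfl, ?_⟩
      simp only
      omega
    have k2 : Nr x y ρ (Sum.elim id id (Sum.inr (c.1, S.ft n q - 1) : ZT)) := by
      show (_ ∧ _) ∧ _
      simp only [Sum.elim_inr, id]
      omega
    obtain ⟨k, h1, h2, h3, h4⟩ := walk (σ := σ) (T := S.zT n s q y) (A := ZA S n s q x y ρ)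
      (fun k : ℕ => (Sum.inr (c.1, S.ft n q - 1 + k) : ZT)) .N (c.2 - (S.ft n q - 1)).toNat
      (by
        simp only [Nat.cast_zero, add_zero]
        exact k0.mem)
      (by
        intro k hk h
        refine ⟨h, ?_⟩
        show (_ ∧ _) ∧ _
        simp only [Sum.elim_inr, id]
        omega)
      (by
        intro k hk
        have := zs_N_up (l := S.fl n s q) (r := S.fr n s q) (x := x) (y := y) (b := y) (t := y)
          (i := c.1) (j := S.ft n q - 1 + k) (by omega)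
        simp only [Nat.cast_add, Nat.cast_one]
        rw [show S.ft n q - 1 + ((k : ℤ) + 1) = S.ft n q - 1 + k + 1 by ring]
        exact this)
      (by
        rw [mem_zT_iff]
        have e : S.ft n q - 1 + ((c.2 - (S.ft n q - 1)).toNat : ℤ) = c.2 := by omega
        simp only [e]
        rintro ⟨p, ⟨h1, h2⟩ | ⟨rfl, h2⟩⟩
        · exact hc (room_sub_T h2)
        · simp only at h2
          omega)
    refine ⟨_, h4, ?_, h2, ?_⟩
    · intro h
      have h5 := congrArg Prod.fst h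
      simp only [zz] at h5
      exact absurd h5 (by simp)
    · refine (room_join hS hs hd hIn hρ hz k0 hnz k2).trans ?_
      simp only [Nat.cast_zero, add_zero] at h3
      exact h3

omit hS hs hd hIn in
/-- the corners of a near tile are near -/
lemma nrm_of_nr {t : ZT} (h : Nr x y ρ (Sum.elim id id t)) (d : Dir) : nrm (zpos x y (t, d)) ≤ ρ + 1 := by
  obtain ⟨⟨n1, n2⟩, n3, n4⟩ := h
  have h1 := off_cases d
  unfold nrm
  rw [max_le_iff, abs_le, abs_le]
  rcases t with t | t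
  · have h3 := clps_cases x (t.1 + (off d).1)
    simp only [zpos_low, Sum.elim_inl, id] at *
    omega
  · simp only [zpos_up, Sum.elim_inr, id] at *
    omega

omit hS hs hd in
/-- a path of tiles from `z` is a path of half edges -/
theorem path_of_join (hρ : 1 ≤ ρ) {t : ZT} (h : JZ S n s q x y ρ (zz x y).1 t) (d : Dir) :
    ReflTransGen (PS (S.zT n s q y) (S.zg n s q x y) fun u => nrm (zpos x y u) ≤ ρ + 1) (zz x y) (t, d) :=
  tile_path (fun _ ht => ⟨ht.1, fun d => nrm_of_nr ht.2 d⟩) h ⟨(lf_zz hIn).mem, nr_zz hρ⟩ .N d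

end sheets

/-! ### the coarse domain -/

section coarse
open Shape Set Metric
variable {S : Shape}

/-- the closed rectangle of a room -/
def rc (S : Shape) (q : S.Q) : Set ℂ :=
  {z | ((S.xl q : ℝ) ≤ z.re ∧ z.re ≤ S.xr q) ∧ (S.yb q : ℝ) ≤ z.im ∧ z.im ≤ S.yt q}

lemma rc_closed (q : S.Q) : IsClosed (rc S q) := by
  unfold rc
  refine IsClosed.inter (IsClosed.inter ?_ ?_) (IsClosed.inter ?_ ?_)
  · exact isClosed_le continuous_const Complex.continuous_re
  · exact isClosed_le Complex.continuous_re continuous_const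
  · exact isClosed_le continuous_const Complex.continuous_im
  · exact isClosed_le Complex.continuous_im continuous_const

lemma dom_rc {z : ℂ} (h : z ∈ S.dom) : ∃ q, z ∈ rc S q :=
  interior_subset (s := {z : ℂ | ∃ q, z ∈ rc S q}) h

lemma rc_touch (hS : S.Ok) {a b : S.Q} {p : ℂ} (ha : p ∈ rc S a) (hb : p ∈ rc S b) :
    a = b ∨ S.On a b ∨ S.On b a := by
  by_contra h
  push Not at h
  obtain ⟨⟨a1, a2⟩, a3, a4⟩ := ha
  obtain ⟨⟨b1, b2⟩, b3, b4⟩ := hb
  rcases hS.sep a b h.1 h.2.1 h.2.2 with h1 | h1 | h1 | h1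
  · have : (S.xr a : ℝ) < S.xl b := by exact_mod_cast h1
    linarith
  · have : (S.xr b : ℝ) < S.xl a := by exact_mod_cast h1
    linarith
  · have : (S.yt a : ℝ) < S.yb b := by exact_mod_cast h1
    linarith
  · have : (S.yt b : ℝ) < S.yb a := by exact_mod_cast h1
    linarith

/-- **the rooms visited by a path of the coarse domain** -/
theorem rooms_of_joined (hS : S.Ok) {B : Set ℂ} {z z' : ℂ} (h : JoinedIn (S.dom ∩ B) z z') {a b : S.Q}
    (ha : z ∈ rc S a) (hb : z' ∈ rc S b) :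
    ReflTransGen (fun a b => (S.On a b ∨ S.On b a) ∧ ∃ p ∈ B, p ∈ rc S a ∧ p ∈ rc S b) a b := by
  set γ := h.somePath with hγ
  have hc : IsPreconnected (range γ) := isPreconnected_range γ.continuous
  have hm : ∀ p ∈ range γ, p ∈ S.dom ∩ B := by
    rintro _ ⟨t, rfl⟩
    exact h.somePath_mem t
  refine hc.induction₂' (fun p p' => ∀ a b, p ∈ rc S a → p' ∈ rc S b →
    ReflTransGen (fun a b => (S.On a b ∨ S.On b a) ∧ ∃ p ∈ B, p ∈ rc S a ∧ p ∈ rc S b) a b) ?_ ?_
    ⟨0, γ.source⟩ ⟨1, γ.target⟩ a b ha hb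
  · intro p hp
    have h1 : ∀ᶠ p' in nhds p, ∀ b, p' ∈ rc S b → p ∈ rc S b := by
      rw [Filter.eventually_all]
      intro b
      by_cases h2 : p ∈ rc S b
      · exact Filter.Eventually.of_forall fun _ _ => h2
      · filter_upwards [(rc_closed b).isOpen_compl.mem_nhds h2] with p' h3 h4
        exact absurd h4 h3
    filter_upwards [nhdsWithin_le_nhds h1] with p' h2
    have key : ∀ a b, p ∈ rc S a → p ∈ rc S b →
        ReflTransGen (fun a b => (S.On a b ∨ S.On b a) ∧ ∃ p ∈ B, p ∈ rc S a ∧ p ∈ rc S b) a b := by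
      intro a b h3 h4
      rcases rc_touch hS h3 h4 with rfl | h5
      · exact ReflTransGen.refl
      · exact ReflTransGen.single ⟨h5, p, (hm p hp).2, h3, h4⟩
    exact ⟨fun a b h3 h4 => key a b h3 (h2 b h4), fun a b h3 h4 => key a b (h2 a h3) h4⟩
  · intro p p' p'' _ hp' _ h1 h2 a b h3 h4
    obtain ⟨c, hc⟩ := dom_rc (hm p' hp').1
    exact (h1 a c h3 hc).trans (h2 c b hc h4)

/-- rooms which touch at `p` touch in the fine region near `p` -/
theorem tch_of {n : ℕ} {s : S.Q × Bool → ℕ} (hS : S.Ok) (hs : S.Small n s) {a b : S.Q} (h : S.On a b) {p : ℂ}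
    (ha : p ∈ rc S a) (hb : p ∈ rc S b) {x y ρ : ℤ} {D : ℝ} (h1 : |n * p.re - x| ≤ D)
    (h2 : |n * p.im - y| ≤ D) (hD : D + n / 4 + 2 ≤ ρ) : Tch S n s x y ρ a b := by
  have hn : (8 : ℤ) ≤ n := by exact_mod_cast hs.1
  have hn0 : (0 : ℝ) < n := by exact_mod_cast (show 0 < n by have := hs.1; omega)
  obtain ⟨⟨a1, a2⟩, a3, a4⟩ := ha
  obtain ⟨⟨b1, b2⟩, b3, b4⟩ := hb
  have e1 : S.yt a = S.yb b := hS.on_y a b h
  have e2 : p.im = S.yt a := le_antisymm a4 (by rw [e1]; exact b3)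
  have e3 : (n : ℝ) * p.im = (S.ft n a : ℤ) := by
    rw [e2]; unfold ft; push_cast; ring
  have f1 := fb_lt_ft (n := n) hS hs.1 a
  have f2 := fb_lt_ft (n := n) hS hs.1 b
  have f3 := on_ft (n := n) hS h
  rw [e3, abs_le] at h2
  rw [abs_le] at h1
  -- the column
  have key : ∀ c : S.Q, (S.xl c : ℝ) ≤ p.re → p.re ≤ S.xr c → ∃ i : ℤ, (S.fl n s c ≤ i ∧ i < S.fr n s c) ∧
      (x - ρ ≤ i ∧ i ≤ x + ρ) := by
    intro c hc1 hc2
    have g1 := fl_lt_fr hS hs.two c
    have g2 : (4 * s (c, false) : ℤ) ≤ n := by exact_mod_cast hs.2 (c, false)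
    have g3 : (n : ℝ) * S.xl c ≤ n * p.re := mul_le_mul_of_nonneg_left hc1 hn0.le
    have g4 : (n : ℝ) * p.re ≤ n * S.xr c := mul_le_mul_of_nonneg_left hc2 hn0.le
    have g5 : (n * S.xl c : ℤ) ≤ ⌊(n : ℝ) * p.re⌋ := Int.le_floor.2 (by push_cast; exact g3)
    have g6 : ⌊(n : ℝ) * p.re⌋ ≤ (n * S.xr c : ℤ) := by
      have := Int.floor_le ((n : ℝ) * p.re)
      have h3 : ((⌊(n : ℝ) * p.re⌋ : ℤ) : ℝ) ≤ ((n * S.xr c : ℤ) : ℝ) := by push_cast; linarith
      exact_mod_cast h3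
    have g7 := Int.floor_le ((n : ℝ) * p.re)
    have g8 := Int.lt_floor_add_one ((n : ℝ) * p.re)
    set i0 := ⌊(n : ℝ) * p.re⌋ with hi0
    have g9 : S.fl n s c = n * S.xl c + s (c, false) := rfl
    have g10 : S.fr n s c = n * S.xr c + s (c, true) := rfl
    set i := max (S.fl n s c) (min i0 (S.fr n s c - 1)) with hi
    have g11 : i0 - 1 ≤ i ∧ i ≤ i0 + s (c, false) := by omega
    have g12 : ((s (c, false) : ℤ) : ℝ) ≤ n / 4 := by
      have : ((4 * s (c, false) : ℤ) : ℝ) ≤ ((n : ℤ) : ℝ) := by exact_mod_cast g2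
      push_cast at this ⊢
      linarith
    refine ⟨i, by omega, ?_⟩
    have g13 : ((i0 - 1 : ℤ) : ℝ) ≤ i := by exact_mod_cast g11.1
    have g14 : (i : ℝ) ≤ ((i0 + s (c, false) : ℤ) : ℝ) := by exact_mod_cast g11.2
    push_cast at g12 g13 g14
    constructor
    · have : ((x - ρ : ℤ) : ℝ) ≤ i := by push_cast; linarith
      exact_mod_cast this
    · have : (i : ℝ) ≤ ((x + ρ : ℤ) : ℝ) := by push_cast; linarith
      exact_mod_cast this
  have hy : y - ρ + 1 ≤ S.ft n a ∧ S.ft n a ≤ y + ρ := by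
    constructor
    · have : ((y - ρ + 1 : ℤ) : ℝ) ≤ (S.ft n a : ℤ) := by push_cast; linarith
      exact_mod_cast this
    · have : ((S.ft n a : ℤ) : ℝ) ≤ ((y + ρ : ℤ) : ℝ) := by push_cast; linarith
      exact_mod_cast this
  refine ⟨h, ?_⟩
  obtain ⟨k, ⟨-, h6, h7⟩ | ⟨-, h6, h7⟩⟩ := link_in hS hs.two h
  · obtain ⟨i, h8, h9⟩ := key a a1 a2
    refine ⟨i, mem_room.2 ?_, mem_room.2 ?_, ?_, ?_⟩
    · simp only; omega
    · simp only; omega
    · unfold Nr; simp only; omega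
    · unfold Nr; simp only; omega
  · obtain ⟨i, h8, h9⟩ := key b b1 b2
    refine ⟨i, mem_room.2 ?_, mem_room.2 ?_, ?_, ?_⟩
    · simp only; omega
    · simp only; omega
    · unfold Nr; simp only; omega
    · unfold Nr; simp only; omega

/-- the region of the mark is a lifted tile -/
lemma lf_ez {m : S.Marks} (hS : S.Ok) (hm : m.Ok) {n : ℕ} {s : S.Q × Bool → ℕ} (hs : S.Small n s)
    {σ : Fin 4 → ℕ} {j : Fin 4} (hσ : 4 * σ j ≤ n) {q : S.Q} {x y : ℤ} (hIn : S.In n s q x y) :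
    Lf S n s q y (.inl (m.room j)) (m.ez n σ q j).1 ∧
      Sum.elim id id (m.ez n σ q j).1 = (n * m.x j + σ j, S.fb n (.inl (m.room j))) := by
  classical
  have hn : (8 : ℤ) ≤ n := by exact_mod_cast hs.1
  have hy : m.fy n j = S.fb n (.inl (m.room j)) := by
    unfold Marks.fy
    rw [hm.low j]
    simp
  have h1 := hm.left j
  have h2 := hm.right j
  have f2 := fb_lt_ft (n := n) hS hs.1 (.inl (m.room j))
  have g2 : (4 * s (.inl (m.room j), false) : ℤ) ≤ n := by exact_mod_cast hs.2 _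
  have g3 : (4 * σ j : ℤ) ≤ n := by exact_mod_cast hσ
  have e1 : (n : ℤ) * (S.xl (.inl (m.room j)) + 1) ≤ n * m.x j := mul_le_mul_of_nonneg_left (by omega) (by omega)
  have e2 : (n : ℤ) * (m.x j + 1) ≤ n * S.xr (.inl (m.room j)) := mul_le_mul_of_nonneg_left (by omega) (by omega)
  rw [mul_add, mul_one] at e1 e2
  have k1 : S.fl n s (.inl (m.room j)) ≤ n * m.x j + σ j := by unfold fl; omega
  have k2 : (n : ℤ) * m.x j + σ j < S.fr n s (.inl (m.room j)) := by unfold fr; omega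
  have hmem : ((n * m.x j + σ j, S.fb n (.inl (m.room j))) : ℤ × ℤ) ∈ S.room n s (.inl (m.room j)) :=
    mem_room.2 ⟨⟨k1, k2⟩, le_rfl, by omega⟩
  obtain ⟨-, i3, i4⟩ := hIn
  unfold Marks.ez
  split_ifs with h
  · rw [hy]
    refine ⟨?_, rfl⟩
    rcases h with h | ⟨h, -⟩
    · exact Or.inl ⟨h, hmem⟩
    · refine Or.inr ⟨h, ?_⟩
      subst h
      simp only
      omega
  · rw [hy]
    refine ⟨?_, rfl⟩
    push Not at h
    have h3 : (Sum.inl (m.room j) : S.Q) ≠ q := fun h4 => h.2 h4 (hm.low j)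
    exact Or.inl ⟨(part_cover hS q _ h3).resolve_left h.1, hmem⟩

/-- a tile outside of the fine region near a point of the arcs -/
theorem arc_tile {m : S.Marks} (hS : S.Ok) {n : ℕ} {s : S.Q × Bool → ℕ} (hs : S.Small n s) {k : Fin 4} {w : ℂ}
    (hw : w ∈ m.arc k) : ∃ c : ℤ × ℤ, c ∉ S.T n s ∧ |n * w.re - c.1| ≤ n ∧ |n * w.im - c.2| ≤ n := by
  have hn : (8 : ℤ) ≤ n := by exact_mod_cast hs.1
  have hn' : (8 : ℝ) ≤ n := by exact_mod_cast hs.1
  -- a height of the room `q` near `w`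
  have hgt : ∀ q : S.Q, (S.yb q : ℝ) ≤ w.im → w.im ≤ S.yt q → ∃ h : ℤ, (S.fb n q ≤ h ∧ h < S.ft n q) ∧
      |n * w.im - h| ≤ n := by
    intro q h1 h2
    have f2 := fb_lt_ft (n := n) hS hs.1 q
    have g3 : (n : ℝ) * S.yb q ≤ n * w.im := mul_le_mul_of_nonneg_left h1 (by linarith)
    have g4 : (n : ℝ) * w.im ≤ n * S.yt q := mul_le_mul_of_nonneg_left h2 (by linarith)
    have g5 : S.fb n q ≤ ⌊(n : ℝ) * w.im⌋ := Int.le_floor.2 (by unfold fb; push_cast; exact g3)
    have g6 : ⌊(n : ℝ) * w.im⌋ ≤ S.ft n q := by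
      have := Int.floor_le ((n : ℝ) * w.im)
      have h3 : ((⌊(n : ℝ) * w.im⌋ : ℤ) : ℝ) ≤ ((S.ft n q : ℤ) : ℝ) := by unfold ft; push_cast; linarith
      exact_mod_cast h3
    have g7 := Int.floor_le ((n : ℝ) * w.im)
    have g8 := Int.lt_floor_add_one ((n : ℝ) * w.im)
    set i0 := ⌊(n : ℝ) * w.im⌋ with hi0
    refine ⟨min i0 (S.ft n q - 1), by omega, ?_⟩
    have g9 : i0 - 1 ≤ min i0 (S.ft n q - 1) ∧ min i0 (S.ft n q - 1) ≤ i0 := by omega
    have g10 : ((i0 - 1 : ℤ) : ℝ) ≤ (min i0 (S.ft n q - 1) : ℤ) := by exact_mod_cast g9.1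
    have g11 : ((min i0 (S.ft n q - 1) : ℤ) : ℝ) ≤ i0 := by exact_mod_cast g9.2
    rw [abs_le]
    push_cast at g10 g11 ⊢
    constructor <;> linarith
  rcases hw with ⟨q, h1, ⟨h2, h3⟩, -⟩ | ⟨q, h1, ⟨h2, h3⟩, -⟩ | ⟨r, b, x, ⟨h1, h2⟩, h3, h4, ⟨h5, h6⟩, -⟩
  · -- a left wall
    obtain ⟨h, ⟨h4, h5⟩, h6⟩ := hgt q h2 h3
    have f1 := fl_lt_fr hS hs.two q
    have g2 : (4 * s (q, false) : ℤ) ≤ n := by exact_mod_cast hs.2 (q, false)
    refine ⟨(S.fl n s q - 1, h), ?_, ?_, h6⟩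
    · rw [mem_T]
      rintro ⟨p, hp⟩
      have ht : ((S.fl n s q, h) : ℤ × ℤ) ∈ S.room n s q := mem_room.2 ⟨⟨le_rfl, by simp only; omega⟩, h4, h5⟩
      rcases nb_room' hS hs.two ht hp (by simp only; omega) (by simp only; omega) (by simp only; omega)
        (by simp only; omega) with rfl | h7 | h7
      · rw [mem_room] at hp
        simp only at hp
        omega
      · have := on_ft (n := n) hS h7
        rw [mem_room] at hp
        simp only at hp
        omega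
      · have := on_ft (n := n) hS h7
        rw [mem_room] at hp
        simp only at hp
        omega
    · have g3 : ((4 * s (q, false) : ℤ) : ℝ) ≤ ((n : ℤ) : ℝ) := by exact_mod_cast g2
      have g4 : (0 : ℝ) ≤ s (q, false) := by positivity
      rw [h1, abs_le]
      unfold fl
      push_cast at g3 ⊢
      constructor <;> linarith
  · -- a right wall
    obtain ⟨h, ⟨h4, h5⟩, h6⟩ := hgt q h2 h3
    have f1 := fl_lt_fr hS hs.two q
    have g2 : (4 * s (q, true) : ℤ) ≤ n := by exact_mod_cast hs.2 (q, true)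
    refine ⟨(S.fr n s q, h), ?_, ?_, h6⟩
    · rw [mem_T]
      rintro ⟨p, hp⟩
      have ht : ((S.fr n s q - 1, h) : ℤ × ℤ) ∈ S.room n s q :=
        mem_room.2 ⟨⟨by simp only; omega, by simp only; omega⟩, h4, h5⟩
      rcases nb_room' hS hs.two ht hp (by simp only; omega) (by simp only; omega) (by simp only; omega)
        (by simp only; omega) with rfl | h7 | h7
      · rw [mem_room] at hp
        simp only at hp
        omega
      · have := on_ft (n := n) hS h7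
        rw [mem_room] at hp
        simp only at hp
        omega
      · have := on_ft (n := n) hS h7
        rw [mem_room] at hp
        simp only at hp
        omega
    · have g3 : ((4 * s (q, true) : ℤ) : ℝ) ≤ ((n : ℤ) : ℝ) := by exact_mod_cast g2
      have g4 : (0 : ℝ) ≤ s (q, true) := by positivity
      rw [h1, abs_le]
      unfold fr
      push_cast at g3 ⊢
      constructor <;> linarith
  · -- a floor or a ceiling
    have e1 : (n : ℤ) * S.xl (.inl r) ≤ n * x := mul_le_mul_of_nonneg_left h1 (by omega)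
    have e2 : (n : ℤ) * (x + 1) ≤ n * S.xr (.inl r) := mul_le_mul_of_nonneg_left (by omega) (by omega)
    rw [mul_add, mul_one] at e2
    have g2 : (4 * s (.inl r, false) : ℤ) ≤ n := by exact_mod_cast hs.2 _
    have f2 := fb_lt_ft (n := n) hS hs.1 (.inl r)
    obtain ⟨l, hl⟩ : ∃ l : ℤ, l = n / 2 := ⟨_, rfl⟩
    have hl2 : 2 * l ≤ n ∧ (n : ℤ) ≤ 2 * l + 1 := by omega
    have k1 : S.fl n s (.inl r) ≤ n * x + l := by unfold fl; omega
    have k2 : (n : ℤ) * x + l < S.fr n s (.inl r) := by unfold fr; omega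
    have kk : ∀ k', S.Att k' r b → ¬ (S.fl n s (.inr k') ≤ n * x + l ∧ (n : ℤ) * x + l < S.fr n s (.inr k')) := by
      rintro k' hk' ⟨h7, h8⟩
      rcases h3 k' hk' with h9 | h9
      · have e3 : (n : ℤ) * (x + 1) ≤ n * S.xl (.inr k') := mul_le_mul_of_nonneg_left (by omega) (by omega)
        rw [mul_add, mul_one] at e3
        unfold fl at h7
        omega
      · have e3 : (n : ℤ) * S.xr (.inr k') ≤ n * x := mul_le_mul_of_nonneg_left (by omega) (by omega)
        have g4 : (4 * s (.inr k', true) : ℤ) ≤ n := by exact_mod_cast hs.2 _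
        unfold fr at h8
        omega
    have hre : |n * w.re - ((n * x + l : ℤ) : ℝ)| ≤ n := by
      have g3 : (n : ℝ) * x ≤ n * w.re := mul_le_mul_of_nonneg_left h5 (by linarith)
      have g4 : (n : ℝ) * w.re ≤ n * (x + 1) := mul_le_mul_of_nonneg_left h6 (by linarith)
      have g5 : ((2 * l : ℤ) : ℝ) ≤ ((n : ℤ) : ℝ) := by exact_mod_cast hl2.1
      have g6 : (0 : ℝ) ≤ l := by exact_mod_cast (show (0 : ℤ) ≤ l by omega)
      push_cast at g5
      rw [abs_le]
      push_cast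
      constructor <;> linarith
    cases b
    · refine ⟨(n * x + l, S.fb n (.inl r) - 1), ?_, hre, ?_⟩
      · rw [mem_T]
        rintro ⟨p, hp⟩
        have ht : ((n * x + l, S.fb n (.inl r)) : ℤ × ℤ) ∈ S.room n s (.inl r) :=
          mem_room.2 ⟨⟨k1, k2⟩, le_rfl, by simp only; omega⟩
        rcases nb_room' hS hs.two ht hp (by simp only; omega) (by simp only; omega) (by simp only; omega)
          (by simp only; omega) with rfl | h7 | h7
        · rw [mem_room] at hp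
          simp only at hp
          omega
        · have := on_ft (n := n) hS h7
          rw [mem_room] at hp
          simp only at hp
          omega
        · rcases p with r' | k'
          · exact h7.elim
          · have h8 : S.Att k' r false := by
              unfold Att
              rw [if_neg (by simp)]
              exact h7
            rw [mem_room] at hp
            exact kk k' h8 hp.1
      · rw [h4, abs_le]
        unfold fb
        push_cast
        constructor <;> linarith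
    · refine ⟨(n * x + l, S.ft n (.inl r)), ?_, hre, ?_⟩
      · rw [mem_T]
        rintro ⟨p, hp⟩
        have ht : ((n * x + l, S.ft n (.inl r) - 1) : ℤ × ℤ) ∈ S.room n s (.inl r) :=
          mem_room.2 ⟨⟨k1, k2⟩, by simp only; omega, by simp only; omega⟩
        rcases nb_room' hS hs.two ht hp (by simp only; omega) (by simp only; omega) (by simp only; omega)
          (by simp only; omega) with rfl | h7 | h7
        · rw [mem_room] at hp
          simp only at hp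
          omega
        · rcases p with r' | k'
          · exact h7.elim
          · have h8 : S.Att k' r true := by
              unfold Att
              rw [if_pos rfl]
              exact h7
            rw [mem_room] at hp
            exact kk k' h8 hp.1
        · have := on_ft (n := n) hS h7
          rw [mem_room] at hp
          simp only at hp
          omega
      · rw [h4, abs_le]
        unfold ft
        push_cast
        simp only [if_true]
        constructor <;> linarith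

/-- the end `z` of the observable is close to the coarse point -/
lemma floor_near {n : ℕ} {q : S.Q} {z : ℂ} (hn : 0 < n) (h : z.im < S.yt q) :
    |n * z.re - (⌊n * z.re⌋ : ℤ)| ≤ 1 ∧
      |n * z.im - (min (⌊n * z.im⌋ + 1) (S.ft n q - 1) : ℤ)| ≤ 1 := by
  have hn' : (0 : ℝ) < n := by exact_mod_cast hn
  have g7 := Int.floor_le ((n : ℝ) * z.im)
  have g8 := Int.lt_floor_add_one ((n : ℝ) * z.im)
  have g9 := Int.floor_le ((n : ℝ) * z.re)
  have g10 := Int.lt_floor_add_one ((n : ℝ) * z.re)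
  have g4 : (n : ℝ) * z.im < n * S.yt q := mul_lt_mul_of_pos_left h hn'
  have g6 : ⌊(n : ℝ) * z.im⌋ < S.ft n q := Int.floor_lt.2 (by unfold ft; push_cast; exact g4)
  refine ⟨abs_le.2 ⟨by linarith, by linarith⟩, ?_⟩
  set i0 := ⌊(n : ℝ) * z.im⌋ with hi0
  have g11 : i0 ≤ min (i0 + 1) (S.ft n q - 1) ∧ min (i0 + 1) (S.ft n q - 1) ≤ i0 + 1 := by omega
  have g12 : (i0 : ℝ) ≤ (min (i0 + 1) (S.ft n q - 1) : ℤ) := by exact_mod_cast g11.1
  have g13 : ((min (i0 + 1) (S.ft n q - 1) : ℤ) : ℝ) ≤ ((i0 + 1 : ℤ) : ℝ) := by exact_mod_cast g11.2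
  rw [abs_le]
  push_cast at g12 g13 ⊢
  constructor <;> linarith

lemma abs_coord {n : ℕ} {p z : ℂ} {D : ℝ} (h : dist p z ≤ D) {x y : ℤ} (hx : |n * z.re - x| ≤ 1)
    (hy : |n * z.im - y| ≤ 1) : |n * p.re - x| ≤ n * D + 1 ∧ |n * p.im - y| ≤ n * D + 1 := by
  rw [dist_eq_norm] at h
  have h1 := (Complex.abs_re_le_norm (p - z)).trans h
  have h2 := (Complex.abs_im_le_norm (p - z)).trans h
  have hn : (0 : ℝ) ≤ n := by positivity
  have key : ∀ {a b : ℝ} {c : ℤ}, |a - b| ≤ D → |n * b - c| ≤ 1 → |n * a - c| ≤ n * D + 1 := by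
    intro a b c h3 h4
    have h5 : n * a - c = n * (a - b) + (n * b - c) := by ring
    rw [h5]
    refine (abs_add_le _ _).trans (add_le_add ?_ h4)
    rw [abs_mul, abs_of_nonneg hn]
    exact mul_le_mul_of_nonneg_left h3 hn
  exact ⟨key (by simpa using h1) hx, key (by simpa using h2) hy⟩

section final
variable {m : S.Marks} {n : ℕ} {s : S.Q × Bool → ℕ} {q : S.Q} {x y : ℤ} {z : ℂ}

/-- **(d)** a coarse path from `z` to the mark `j` in a ball gives a discrete path from the end `z` to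
the mark -/
theorem path_mark (hS : S.Ok) (hd : S.Tree) (hm : m.Ok) (hs : S.Small n s) {σ : Fin 4 → ℕ} {j : Fin 4}
    (hσ : 4 * σ j ≤ n) (hIn : S.In n s q x y) (hz : z ∈ rc S q) (hx : |n * z.re - x| ≤ 1)
    (hy : |n * z.im - y| ≤ 1) {δ : ℝ} (hδ : 1 ≤ δ) (hj : JoinedIn (S.dom ∩ ball (m.pt j) δ) z (m.pt j))
    {r : ℤ} (hr : 4 * n * δ ≤ r) :
    ReflTransGen (PS (S.zT n s q y) (S.zg n s q x y) fun u => nrm (zpos x y u) ≤ r) (zz x y)
      (m.ez n σ q j) := by
  have hn : (8 : ℝ) ≤ n := by exact_mod_cast hs.1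
  have hnd : (n : ℝ) ≤ n * δ := by nlinarith
  have hzp : dist z (m.pt j) < δ := hj.source_mem.2
  have hpt : (m.pt j).im = S.yb (.inl (m.room j)) + 1 / 8 := by
    unfold Marks.pt
    simp [hm.low j]
  have hpt' : (m.pt j).re = m.x j + 1 / 8 := rfl
  -- the room of the mark
  have hb : m.pt j ∈ rc S (.inl (m.room j)) := by
    have h1 : (S.xl (.inl (m.room j)) : ℝ) ≤ m.x j := by exact_mod_cast (hm.left j).le
    have h2 : (m.x j + 1 : ℝ) ≤ S.xr (.inl (m.room j)) := by exact_mod_cast (hm.right j).le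
    have h3 : (S.yb (.inl (m.room j)) + 1 : ℝ) ≤ S.yt (.inl (m.room j)) := by
      exact_mod_cast (hS.y_lt (.inl (m.room j)))
    refine ⟨⟨?_, ?_⟩, ?_, ?_⟩
    · rw [hpt']; linarith
    · rw [hpt']; linarith
    · rw [hpt]; linarith
    · rw [hpt]; linarith
  have h1 := rooms_of_joined hS hj hz hb
  obtain ⟨ρ, hρ⟩ : ∃ ρ : ℤ, ρ = r - 1 := ⟨_, rfl⟩
  have hρ' : (ρ : ℝ) = r - 1 := by rw [hρ]; push_cast; ring
  have h2 : ReflTransGen (fun a b => Tch S n s x y ρ a b ∨ Tch S n s x y ρ b a) q (.inl (m.room j)) := by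
    refine ReflTransGen.mono (fun a b h => ?_) _ _ h1
    obtain ⟨h3, p, hp, h4, h5⟩ := h
    have h6 : dist p z ≤ 2 * δ := by
      have h7 := dist_triangle_right p z (m.pt j)
      have h8 : dist p (m.pt j) < δ := hp
      linarith
    obtain ⟨h7, h8⟩ := abs_coord h6 hx hy
    have h9 : n * (2 * δ) + 1 + (n : ℝ) / 4 + 2 ≤ ρ := by
      rw [hρ']
      nlinarith
    rcases h3 with h3 | h3
    · exact Or.inl (tch_of hS hs h3 h4 h5 h7 h8 h9)
    · exact Or.inr (tch_of hS hs h3 h5 h4 h7 h8 h9)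
  have hρ1 : 1 ≤ ρ := by
    have : (1 : ℝ) ≤ (ρ : ℤ) := by rw [hρ']; nlinarith
    exact_mod_cast this
  obtain ⟨k1, k2⟩ := lf_ez (σ := σ) hS hm hs hσ hIn (j := j)
  have k3 : Nr x y ρ (Sum.elim id id (m.ez n σ q j).1) := by
    rw [k2]
    have h6 : dist (m.pt j) z ≤ δ := by rw [dist_comm]; exact hzp.le
    obtain ⟨h7, h8⟩ := abs_coord h6 hx hy
    rw [hpt', abs_le] at h7
    rw [hpt, abs_le] at h8
    have g3 : ((4 * σ j : ℕ) : ℝ) ≤ n := by exact_mod_cast hσ
    have g4 : (0 : ℝ) ≤ σ j := by positivity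
    push_cast at g3
    have c1 : ((x - ρ : ℤ) : ℝ) ≤ ((n * m.x j + σ j : ℤ) : ℝ) := by push_cast; rw [hρ']; nlinarith
    have c2 : ((n * m.x j + σ j : ℤ) : ℝ) ≤ ((x + ρ : ℤ) : ℝ) := by push_cast; rw [hρ']; nlinarith
    have c3 : ((y - ρ : ℤ) : ℝ) ≤ ((S.fb n (.inl (m.room j)) : ℤ) : ℝ) := by
      unfold fb; push_cast; rw [hρ']; nlinarith
    have c4 : ((S.fb n (.inl (m.room j)) : ℤ) : ℝ) ≤ ((y + ρ : ℤ) : ℝ) := by
      unfold fb; push_cast; rw [hρ']; nlinarith
    exact ⟨⟨by exact_mod_cast c1, by exact_mod_cast c2⟩, by exact_mod_cast c3, by exact_mod_cast c4⟩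
  have h3 := chain_join hS hs.two hd hIn hρ1 h2 (lf_zz hIn) k1 (nr_zz hρ1) k3
  have h4 := path_of_join hIn hρ1 h3 (m.ez n σ q j).2
  have h5 : ρ + 1 = r := by omega
  rw [h5] at h4
  exact h4

/-- **(c)** a boundary half edge is joined to `z` near a point of the arcs -/
theorem path_arc (hS : S.Ok) (hd : S.Tree) (hs : S.Small n s) (hIn : S.In n s q x y)
    (hx : |n * z.re - x| ≤ 1) (hy : |n * z.im - y| ≤ 1) {k : Fin 4} {w : ℂ} (hw : w ∈ m.arc k) {D : ℝ}
    (hzw : dist z w ≤ D) {r : ℤ} (hr : n * D + 2 * n ≤ r) :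
    ∃ b : Half ZT, Bd (S.zT n s q y) (S.zg n s q x y) b ∧ b ≠ zz x y ∧ nrm (zpos x y b) ≤ r ∧
      ReflTransGen (PS (S.zT n s q y) (S.zg n s q x y) fun u => nrm (zpos x y u) ≤ r) (zz x y) b := by
  have hn : (8 : ℝ) ≤ n := by exact_mod_cast hs.1
  obtain ⟨c, h1, h2, h3⟩ := arc_tile hS hs hw
  obtain ⟨ρ, hρ⟩ : ∃ ρ : ℤ, ρ = r - 1 := ⟨_, rfl⟩
  have hρ' : (ρ : ℝ) = r - 1 := by rw [hρ]; push_cast; ring
  have hD : 0 ≤ n * D := mul_nonneg (by linarith) (dist_nonneg.trans hzw)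
  rw [dist_comm] at hzw
  obtain ⟨h7, h8⟩ := abs_coord hzw hx hy
  rw [abs_le] at h2 h3 h7 h8
  have hρ1 : 1 ≤ ρ := by
    have : (1 : ℝ) ≤ (ρ : ℤ) := by rw [hρ']; linarith
    exact_mod_cast this
  have k3 : Nr x y ρ c := by
    have c1 : ((x - ρ : ℤ) : ℝ) ≤ (c.1 : ℝ) := by push_cast; rw [hρ']; linarith
    have c2 : (c.1 : ℝ) ≤ ((x + ρ : ℤ) : ℝ) := by push_cast; rw [hρ']; linarith
    have c3 : ((y - ρ : ℤ) : ℝ) ≤ (c.2 : ℝ) := by push_cast; rw [hρ']; linarith
    have c4 : (c.2 : ℝ) ≤ ((y + ρ : ℤ) : ℝ) := by push_cast; rw [hρ']; linarith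
    exact ⟨⟨by exact_mod_cast c1, by exact_mod_cast c2⟩, by exact_mod_cast c3, by exact_mod_cast c4⟩
  obtain ⟨b, b1, b2, b3, b4⟩ := tile_out hS hs.two hd hIn hρ1 h1 k3
  have h5 : ρ + 1 = r := by omega
  have h4 := path_of_join hIn hρ1 b4 b.2
  have h6 := nrm_of_nr b3.2 b.2
  rw [h5] at h4 h6
  exact ⟨b, b1, b2, h6, h4⟩

lemma arc_nonempty (hm : m.Ok) (j : Fin 4) : (m.arc j).Nonempty := by
  refine ⟨⟨m.x j, S.yb (.inl (m.room j))⟩, Or.inr (Or.inr ⟨m.room j, false, m.x j, ⟨(hm.left j).le, ?_⟩, ?_,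
    ?_, ⟨le_rfl, ?_⟩, Or.inr (hm.floor j (hm.low j)).2⟩)⟩
  · have := hm.right j
    omega
  · intro k hk
    have h1 := hm.wall j k (by rw [hm.low j]; exact hk)
    omega
  · simp
  · simp

lemma opp_nonempty (hm : m.Ok) (j : Fin 3) : (m.opp j).Nonempty := by
  fin_cases j
  · exact arc_nonempty hm 1
  · exact (arc_nonempty hm 2).mono subset_union_left
  · exact arc_nonempty hm 0

lemma opp_arc {j : Fin 3} {w : ℂ} (h : w ∈ m.opp j) : ∃ k, w ∈ m.arc k := by
  fin_cases j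
  · exact ⟨1, h⟩
  · rcases h with h | h
    · exact ⟨2, h⟩
    · exact ⟨3, h⟩
  · exact ⟨0, h⟩

/-- **(c)** for the side opposite to the mark `j` -/
theorem path_opp (hS : S.Ok) (hd : S.Tree) (hm : m.Ok) (hs : S.Small n s) (hIn : S.In n s q x y)
    (hx : |n * z.re - x| ≤ 1) (hy : |n * z.im - y| ≤ 1) {j : Fin 3} {δ : ℝ} (hδ : 1 ≤ δ)
    (h : infDist z (m.opp j) ≤ δ) {r : ℤ} (hr : 4 * n * δ ≤ r) :
    ∃ b : Half ZT, Bd (S.zT n s q y) (S.zg n s q x y) b ∧ b ≠ zz x y ∧ nrm (zpos x y b) ≤ r ∧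
      ReflTransGen (PS (S.zT n s q y) (S.zg n s q x y) fun u => nrm (zpos x y u) ≤ r) (zz x y) b := by
  obtain ⟨w, h1, h2⟩ := (infDist_lt_iff (opp_nonempty hm j)).1 (lt_of_le_of_lt h (show δ < δ + 1 / 2 by linarith))
  obtain ⟨k, hk⟩ := opp_arc h1
  have hn : (0 : ℝ) ≤ n := by positivity
  refine path_arc hS hd hs hIn hx hy hk h2.le ?_
  nlinarith

end final

end coarse

end Full.P5
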