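import Pool.Agent.Full.P5.Exit
import Pool.Agent.Full.P5.ZDist
import Pool.Agent.Full.P5.ZPath
import Pool.Agent.Full.Dict.Obs
import Pool.Agent.Full.Geo.Cycle

/-!
# The observable near an arc and near a mark: from exit probabilities to distances

`ex T w z e j`: the probability that the strand of `z` ends at the mark `e j`.
-/

set_option autoImplicit false
set_option linter.unusedSectionVars false

namespace Full.P5
open Function Relation Full.Shape
open Pool.Agent.Helper69.RSW (P P_mono P_congr P_nonneg P_le_one P_or_le P_sum P_true)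

section
variable {τ : Type} [DecidableEq τ] {T : Finset τ} {g w : Half τ → Half τ} {z : Half τ} {e : Fin 3 → Half τ}
  {lab : Half τ → Fin 3}

/-- the probability that the strand of `z` ends at `e j` -/
noncomputable def ex (T : Finset τ) (w : Half τ → Half τ) (z : Half τ) (e : Fin 3 → Half τ) (j : Fin 3) : ℝ :=
  P T fun ω => other (mate ω) w z = e j

lemma ex_nonneg (j : Fin 3) : 0 ≤ ex T w z e j := P_nonneg _ _

lemma Lab.exit (h : Lab T g w z e lab) (ω : Finset τ) : ∃ i, other (mate ω) w z = e i :=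
  (h.ends _ (h.wall.toGlu.other_bd h.bz)).resolve_left (h.wall.toGlu.other_ne h.bz)

lemma Lab.sum_ex (h : Lab T g w z e lab) (j : Fin 3) :
    ex T w z e j + ex T w z e (j + 1) + ex T w z e (j + 2) = 1 := by
  classical
  have h1 := P_sum T (fun ω => other (mate ω) w z) (Finset.univ.image e) (fun _ => True) (fun S _ _ => by
    obtain ⟨i, hi⟩ := h.exit S
    rw [hi]
    exact Finset.mem_image_of_mem _ (Finset.mem_univ _))
  rw [P_true, Finset.sum_image (fun a _ b _ hab => h.ee hab)] at h1
  simp only [and_true] at h1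
  rw [h1, Fin.sum_univ_three]
  unfold ex
  fin_cases j
  · rfl
  · show _ + ex T w z e 2 + ex T w z e 0 = _
    unfold ex
    simp only [Fin.mk_one]
    ring
  · show _ + ex T w z e 0 + ex T w z e 1 = _
    unfold ex
    simp only [Fin.reduceFinMk]
    ring

lemma obs_eq (j : Fin 3) : obs T w z e = ex T w z e j * vert j + ex T w z e (j + 1) * vert (j + 1) +
    ex T w z e (j + 2) * vert (j + 2) := by
  unfold obs
  rw [exp_eq_tau, Fin.sum_univ_three]
  have h3 := tau_cube
  have e0 : vert 0 = 1 := pow_zero _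
  have e1 : vert 1 = tau := pow_one _
  have e2 : vert 2 = tau ^ 2 := rfl
  have e3 : vert 3 = 1 := h3
  have e4 : vert 4 = tau := by show tau ^ 4 = tau; rw [pow_succ, h3, one_mul]
  fin_cases j
  · show _ = ex T w z e 0 * vert 0 + ex T w z e 1 * vert 1 + ex T w z e 2 * vert 2
    rw [e0, e1, e2]
    unfold ex
    simp
    ring
  · show _ = ex T w z e 1 * vert 1 + ex T w z e 2 * vert 2 + ex T w z e 0 * vert 3
    rw [e1, e2, e3]
    unfold ex
    simp
    ring
  · show _ = ex T w z e 2 * vert 2 + ex T w z e 0 * vert 3 + ex T w z e 1 * vert 4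
    rw [e2, e3, e4]
    unfold ex
    simp
    ring

lemma norm_tau : ‖tau‖ = 1 := by
  have h := congrArg norm tau_cube
  rw [norm_pow, norm_one] at h
  exact (pow_eq_one_iff_of_nonneg (norm_nonneg _) (by norm_num)).1 h

lemma norm_vert (j : ℕ) : ‖vert j‖ = 1 := by
  unfold vert; rw [norm_pow, norm_tau, one_pow]

lemma vert_sub (i j : ℕ) : ‖vert i - vert j‖ ≤ 2 := by
  refine (norm_sub_le _ _).trans ?_
  rw [norm_vert, norm_vert]; norm_num

/-- near an arc -/
theorem Lab.dist_side (h : Lab T g w z e lab) (j : Fin 3) :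
    ∃ y ∈ Full.side j, ‖obs T w z e - y‖ ≤ 2 * ex T w z e j := by
  have h1 := h.sum_ex j
  have n0 := ex_nonneg (T := T) (w := w) (z := z) (e := e) j
  have n1 := ex_nonneg (T := T) (w := w) (z := z) (e := e) (j + 1)
  have n2 := ex_nonneg (T := T) (w := w) (z := z) (e := e) (j + 2)
  rw [obs_eq j]
  generalize ex T w z e j = a at *
  generalize ex T w z e (j + 1) = b at *
  generalize ex T w z e (j + 2) = c at *
  refine ⟨b • vert (j + 1) + (c + a) • vert (j + 2), ⟨b, c + a, n1, by linarith, by linarith, rfl⟩, ?_⟩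
  have e1 : (a * vert j + b * vert (j + 1) + c * vert (j + 2) : ℂ) -
      (b • vert (j + 1) + (c + a) • vert (j + 2)) = a * (vert j - vert (j + 2)) := by
    simp only [Complex.real_smul]
    push_cast
    ring
  rw [e1, norm_mul, Complex.norm_real, Real.norm_eq_abs, abs_of_nonneg n0, mul_comm]
  exact mul_le_mul_of_nonneg_right (vert_sub _ _) n0

/-- near a mark -/
theorem Lab.dist_vert (h : Lab T g w z e lab) (j : Fin 3) :
    ‖obs T w z e - vert j‖ ≤ 2 * (ex T w z e (j + 1) + ex T w z e (j + 2)) := by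
  have h1 := h.sum_ex j
  have n1 := ex_nonneg (T := T) (w := w) (z := z) (e := e) (j + 1)
  have n2 := ex_nonneg (T := T) (w := w) (z := z) (e := e) (j + 2)
  rw [obs_eq j]
  generalize ex T w z e j = a at *
  generalize ex T w z e (j + 1) = b at *
  generalize ex T w z e (j + 2) = c at *
  have ha : (a : ℂ) = 1 - b - c := by
    have : a = 1 - b - c := by linarith
    rw [this]; push_cast; ring
  have e1 : (a * vert j + b * vert (j + 1) + c * vert (j + 2) : ℂ) - vert j =
      b * (vert (j + 1) - vert j) + c * (vert (j + 2) - vert j) := by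
    rw [ha]; ring
  rw [e1]
  refine (norm_add_le _ _).trans ?_
  rw [norm_mul, norm_mul, Complex.norm_real, Complex.norm_real, Real.norm_eq_abs, Real.norm_eq_abs,
    abs_of_nonneg n1, abs_of_nonneg n2]
  have h2 := mul_le_mul_of_nonneg_left (vert_sub (j + 1) j) n1
  have h3 := mul_le_mul_of_nonneg_left (vert_sub (j + 2) j) n2
  linarith

end

/-! ### averages -/

section av
variable {S : Shape} {n : ℕ} {p : Sh S n → Prop} {f : Sh S n → ℂ}

/-- an average of points near a convex set is near it -/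
theorem infDist_avSh {K : Set ℂ} (hK : Convex ℝ K) {η : ℝ} (hp : ∃ a, p a)
    (h : ∀ a, p a → ∃ y ∈ K, ‖f a - y‖ ≤ η) : Metric.infDist (avSh n p f) K ≤ η := by
  classical
  obtain ⟨a0, ha0⟩ := hp
  choose! y hy hy' using h
  set A := Finset.univ.filter p with hA
  have hcard : 0 < (A.card : ℝ) := by
    exact_mod_cast Finset.card_pos.2 ⟨a0, Finset.mem_filter.2 ⟨Finset.mem_univ _, ha0⟩⟩
  have hmem : ∑ a ∈ A, (1 / (A.card : ℝ)) • y a ∈ K := by
    refine hK.sum_mem (fun _ _ => by positivity) ?_ (fun a ha => hy a (Finset.mem_filter.1 ha).2)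
    rw [Finset.sum_const, nsmul_eq_mul, mul_one_div_cancel hcard.ne']
  have e1 : avSh n p f = ∑ a ∈ A, (1 / (A.card : ℝ)) • f a := by
    unfold avSh
    rw [← Finset.sum_filter, ← Finset.smul_sum, Complex.real_smul]
    push_cast
    rw [one_div, div_eq_inv_mul]
  refine (Metric.infDist_le_dist_of_mem hmem).trans ?_
  rw [dist_eq_norm, e1, ← Finset.sum_sub_distrib]
  refine (norm_sum_le _ _).trans ?_
  calc ∑ a ∈ A, ‖(1 / (A.card : ℝ)) • f a - (1 / (A.card : ℝ)) • y a‖
      ≤ ∑ a ∈ A, (1 / (A.card : ℝ)) * η := Finset.sum_le_sum fun a ha => by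
        rw [← smul_sub, norm_smul, Real.norm_eq_abs, abs_of_nonneg (by positivity)]
        exact mul_le_mul_of_nonneg_left (hy' a (Finset.mem_filter.1 ha).2) (by positivity)
    _ = η := by
        rw [Finset.sum_const, nsmul_eq_mul, ← mul_assoc, mul_one_div_cancel hcard.ne', one_mul]

end av

/-! ### the domain with the end `z` -/

/-- labels in `Fin 4` of the four arcs as labels of the three arcs: the label of the arc opposite to a mark -/
def tr : Fin 4 → Fin 3 := ![2, 0, 1, 1]

lemma tr_e : ∀ i : Fin 3, tr (i.castSucc - 1) = i + 1 ∧ tr i.castSucc = i + 2 := by decide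

section zdom
variable {S : Shape} {m : S.Marks} {n : ℕ} {s : S.Q × Bool → ℕ} {σ : Fin 4 → ℕ} {q : S.Q} {x y : ℤ}

lemma bd_zz (hS : S.Ok) (hs : S.Small2 n s) (h : S.In n s q x y) :
    Bd (S.zT n s q y) (S.zg n s q x y) (zz x y) := by
  obtain ⟨⟨i1, i2⟩, i3, i4⟩ := h
  exact ⟨mem_zT_low.2 (Or.inr ⟨⟨i1.le, i2.le⟩, by simp only; omega, by simp only; omega⟩),
    Slab.go_z (D := S.zslab hS hs (tree hS) q) i1.le i2.le⟩

/-- the labelled boundary of the domain with the end `z` -/
theorem zlab (hS : S.Ok) (hs : S.Small n s) (hin : S.In n s q x y) {lab : Half ZT → Fin 4}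
    (h1 : ∀ u, Bd (S.zT n s q y) (S.zg n s q x y) u → u ≠ zz x y → (∀ j, u ≠ m.ez n σ q j) →
      lab (next (S.zg n s q x y) u) = lab u)
    (h2 : ∀ j, Bd (S.zT n s q y) (S.zg n s q x y) (m.ez n σ q j))
    (h3 : ∀ j, lab (m.ez n σ q j) = j - 1 ∧ lab (next (S.zg n s q x y) (m.ez n σ q j)) = j)
    {w : Half ZT → Half ZT}
    (hw : IsW (S.zT n s q y) (S.zg n s q x y) ({zz x y} ∪ Set.range fun j : Fin 3 => m.ez n σ q j.castSucc) w) :
    Lab (S.zT n s q y) (S.zg n s q x y) w (zz x y) (fun j => m.ez n σ q j.castSucc) (fun u => tr (lab u)) := by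
  have hz := bd_zz hS hs.two hin
  have hnz : next (S.zg n s q x y) (zz x y) = zz x y := next_z hS hs.two q hin.1.1 hin.1.2 hin.2.1 hin.2.2
  have hG : Glu (S.zT n s q y) (S.zg n s q x y) := Surf.glu _ _
  have f4 : ∀ j : Fin 4, j - 1 ≠ j := by decide
  have hze : ∀ j, zz x y ≠ m.ez n σ q j := fun j hj => by
    have h4 := (h3 j).2
    rw [← hj, hnz, hj, (h3 j).1] at h4
    exact f4 j h4
  have hinj : Injective (m.ez n σ q) := fun i j hij => by
    have h4 := (h3 i).1
    rw [hij, (h3 j).1] at h4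
    have f5 : ∀ i j : Fin 4, j - 1 = i - 1 → i = j := by decide
    exact f5 i j h4
  exact {
    glu := hG
    wall := hw.toWall
    bz := ⟨hz.1, (hw.ends _ hz).2 (Or.inl rfl)⟩
    be := fun i => ⟨(h2 _).1, (hw.ends _ (h2 _)).2 (Or.inr ⟨i, rfl⟩)⟩
    ze := fun i => hze _
    ee := fun i j hij => Fin.castSucc_injective _ (hinj hij)
    ends := by
      intro u hu
      have hu' : Bd (S.zT n s q y) (S.zg n s q x y) u := by
        refine ⟨hu.1, ?_⟩
        by_contra h4
        have h5 := hw.toWall.ext u h4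
        rw [hu.2] at h5
        exact h4 h5.symm
      rcases (hw.ends u hu').1 hu.2 with h4 | ⟨i, h4⟩
      · exact Or.inl h4
      · exact Or.inr ⟨i, h4.symm⟩
    sc := scz hS hs q hin.1.1.le hin.1.2.le hin.2.1 hin.2.2
    step := by
      intro u hu hue
      by_cases huz : u = zz x y
      · rw [huz, hnz]
      by_cases hu3 : u = m.ez n σ q 3
      · rw [hu3, (h3 3).1, (h3 3).2]
        decide
      · rw [h1 u hu huz fun j hj => ?_]
        rcases (show ∀ j : Fin 4, j = 3 ∨ ∃ i : Fin 3, j = i.castSucc by decide) j with h4 | ⟨i, h4⟩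
        · exact hu3 (by rw [hj, h4])
        · exact hue i (by rw [hj, h4])
    lab_e := by
      intro i
      rw [(h3 _).1, (h3 _).2]
      exact tr_e i
    reach := by
      intro u hu hun i
      have huz : u ≠ zz x y := fun h4 => hun (by rw [h4, hnz])
      exact cycle_z hS hs q hin hu (h2 _) huz (Ne.symm (hze _)) }

/-- positions in the domain with the end `z` -/
theorem zpos_pos (hS : S.Ok) (hs : S.Small2 n s) (hin : S.In n s q x y) :
    Pos (S.zT n s q y) (S.zg n s q x y) (zpos x y) (zkt x y) 1 where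
  same := by
    intro u _ hgu
    have h1 := zsm_rot hgu
    exact ⟨h1.1, fun d hd => h1.2 d (by rw [h1.1]; push_cast at hd; omega)⟩
  co := by
    intro d u _ hd
    obtain ⟨h1, h2⟩ := zkv_pos d u (by exact_mod_cast hd)
    exact ⟨h1, by exact_mod_cast h2⟩
  inj := fun d t ht t' ht' h => zkt_inj hS hs (tree hS) hin.2.1.le hin.2.2.le d ht ht' h
  step := by
    rintro ⟨t, d⟩ ⟨t', d'⟩ _ h
    obtain rfl : t = t' := h
    exact zpos_step t d d'

end zdom

end Full.P5
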