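import Pool.Agent.Full.P5.Core

/-!
# Labelled boundary, arcs, cuts

`Lab`: a region with closed walls and a label in `Fin 3` for every boundary half edge, which changes only
at the marks.  Colourings are constant on the wall corners of an arc.  A path of tiles from `z` to the
boundary gives a closed cochain and a colouring which changes only across the path.
-/

set_option autoImplicit false
set_option linter.unusedSectionVars false

namespace Full.P5
open Function Relation

variable {τ : Type*} {T : Finset τ} {g w : Half τ → Half τ} {z : Half τ} {e : Fin 3 → Half τ}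
  {lab : Half τ → Fin 3}

lemma fn12 : ∀ i : Fin 3, i + 1 ≠ i + 2 := by decide

/-- a region with closed walls `w`, the end `z`, the marks `e 0`, `e 1`, `e 2` and labels of the boundary;
the arc with the label `i` is the arc opposite to the mark `e i`, from `e (i + 1)` to `e (i + 2)` -/
structure Lab (T : Finset τ) (g w : Half τ → Half τ) (z : Half τ) (e : Fin 3 → Half τ)
    (lab : Half τ → Fin 3) : Prop where
  glu : Glu T g
  wall : Wall T g w
  bz : Bd T w z
  be : ∀ i, Bd T w (e i)
  ze : ∀ i, z ≠ e i
  ee : Injective e
  ends : ∀ x, Bd T w x → x = z ∨ ∃ i, x = e i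
  sc : SCz T g z
  step : ∀ u, Bd T g u → (∀ i, u ≠ e i) → lab (next g u) = lab u
  lab_e : ∀ i, lab (e i) = i + 1 ∧ lab (next g (e i)) = i + 2
  reach : ∀ u, Bd T g u → next g u ≠ u → ∀ i, ∃ k, (next g)^[k] u = e i

namespace Lab
variable (h : Lab T g w z e lab)
include h

lemma bd_of_w {x : Half τ} (hx : Bd T w x) : Bd T g x := by
  refine ⟨hx.1, ?_⟩
  by_contra h1
  have h2 := h.wall.ext x h1
  rw [hx.2] at h2
  exact h1 h2.symm

/-- the value of a colouring at the wall corners of an arc -/
theorem val {c χ : Half τ → ZMod 2} (hc : Corner g c) (hr : ∀ x : Half τ, x.1 ∈ T → c (rho x) = c x + χ x)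
    (hz : χ z = 0) {i : Fin 3} (hχ : ∀ u, Bd T g u → lab u = i → w u ≠ u → χ (w u) = χ u)
    {u : Half τ} (hu : Bd T g u) (hun : next g u ≠ u ∨ u ≠ z) (hlab : lab u = i)
    (hw : w u = next g u ∨ w u = u) : c u = c (e (i + 2)) := by
  have hG := h.glu
  -- induction on the number of steps to the end of the arc
  have key : ∀ k, ∀ u, Bd T g u → lab u = i → (w u = next g u ∨ w u = u) →
      (next g)^[k] u = e (i + 2) → (∀ j < k, (next g)^[j] u ≠ e (i + 2)) → c u = c (e (i + 2)) := by
    intro k
    induction k using Nat.strong_induction_on with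
    | _ k ih =>
      intro u hu hlab hw hk hmin
      rcases Nat.eq_zero_or_pos k with rfl | hk0
      · rw [← hk]; rfl
      have hne : u ≠ e (i + 2) := hmin 0 hk0
      -- `next g u ≠ u`
      have hnu : next g u ≠ u := by
        intro h1
        have h2 : ∀ j, (next g)^[j] u = u := fun j => by
          induction j with
          | zero => rfl
          | succ j ihj => rw [iterate_succ_apply, h1, ihj]
        rw [h2 k] at hk
        exact hne hk
      have hbn := hG.next_bd hu
      -- the first entry of `near`
      have near : ∀ v, Bd T g v → w v = v ∨ w v = next g v ∨ v = next g (w v) := fun v hv =>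
        h.wall.near v hv
      by_cases hwu : w u = u
      · -- an end: it is `z`
        have huw : Bd T w u := ⟨hu.1, hwu⟩
        rcases h.ends u huw with rfl | ⟨i', rfl⟩
        · have h1 := (hG.corner_next hc hu.2).trans (hr u hu.1)
          rw [hz, add_zero] at h1
          have h2 : lab (next g u) = i := by rw [h.step u hu h.ze, hlab]
          have h4 : w (next g u) = next g (next g u) ∨ w (next g u) = next g u := by
            rcases near _ hbn with h5 | h5 | h5
            · exact Or.inr h5
            · exact Or.inl h5
            · exfalso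
              have hwn : Bd T g (w (next g u)) := by
                refine ⟨h.wall.mem _ hbn.1, ?_⟩
                by_contra h6
                have h7 := h.wall.ext _ h6
                rw [h.wall.inv] at h7
                have h8 := congrArg g h7
                rw [hG.inv, hbn.2] at h8
                rw [← h8, hbn.2] at h6
                exact h6 rfl
              have h6 := hG.next_inj hu.2 hwn.2 h5
              have h7 := congrArg w h6
              rw [h.wall.inv, hwu] at h7
              exact hnu h7.symm
          rw [← h1]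
          refine ih (k - 1) (by omega) _ hbn h2 h4 ?_ ?_
          · rw [← iterate_succ_apply, Nat.succ_eq_add_one, Nat.sub_add_cancel hk0]
            exact hk
          · intro j hj
            rw [← iterate_succ_apply]
            exact hmin _ (by omega)
        · exfalso
          rw [(h.lab_e i').1] at hlab
          apply hne
          rw [← hlab, f12]
      · -- a pair of half edges
        have hw1 : w u = next g u := hw.resolve_right hwu
        have huz : u ≠ z := fun h1 => hwu (by rw [h1]; exact h.bz.2)
        have hue : ∀ i, u ≠ e i := fun i h1 => hwu (by rw [h1]; exact (h.be i).2)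
        have hl1 : lab (next g u) = i := by rw [h.step u hu hue, hlab]
        have hwn : w (next g u) = u := by rw [← hw1, h.wall.inv]
        have hnz : next g u ≠ z := fun h1 => by
          rw [h1, h.bz.2] at hwn
          rw [h1, hwn] at hnu
          exact hnu rfl
        have hne2 : ∀ i, next g u ≠ e i := fun i h1 => by
          rw [h1, (h.be i).2] at hwn
          rw [h1, hwn] at hnu
          exact hnu rfl
        have hl2 : lab (next g (next g u)) = i := by rw [h.step _ hbn hne2, hl1]
        have hunn := hG.next_bd hbn
        have hv : c (next g (next g u)) = c u := by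
          rw [hG.corner_next hc hbn.2, hr _ hbn.1, hG.corner_next hc hu.2, hr _ hu.1]
          have h1 := hχ u hu hlab hwu
          rw [hw1] at h1
          rw [h1, add_assoc, CharTwo.add_self_eq_zero, add_zero]
        have hk2 : 2 ≤ k := by
          by_contra h1
          have h2 : k = 1 := by omega
          rw [h2] at hk
          exact hne2 _ hk
        have h4 : w (next g (next g u)) = next g (next g (next g u)) ∨
            w (next g (next g u)) = next g (next g u) := by
          rcases near _ hunn with h5 | h5 | h5
          · exact Or.inr h5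
          · exact Or.inl h5
          · exfalso
            set v := next g (next g u) with hvdef
            have hwn' : Bd T g (w v) := by
              refine ⟨h.wall.mem _ hunn.1, ?_⟩
              by_contra h6
              have h7 := h.wall.ext _ h6
              rw [h.wall.inv] at h7
              have h8 := congrArg g h7
              rw [hG.inv, hunn.2] at h8
              rw [← h8, hunn.2] at h6
              exact h6 rfl
            have h6 := hG.next_inj hbn.2 hwn'.2 h5
            have h7 := congrArg w h6
            rw [h.wall.inv, hwn] at h7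
            -- the boundary cycle has length two
            have h8 : ∀ j, (next g)^[j] u = u ∨ (next g)^[j] u = next g u := by
              intro j
              induction j with
              | zero => exact Or.inl rfl
              | succ j ihj =>
                rw [iterate_succ_apply']
                rcases ihj with h9 | h9
                · right; rw [h9]
                · left; rw [h9]; exact h7.symm
            rcases h8 k with h9 | h9
            · rw [h9] at hk; exact hne hk
            · rw [h9] at hk; exact hne2 _ hk
        rw [← hv]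
        refine ih (k - 2) (by omega) _ hunn hl2 h4 ?_ ?_
        · have h5 : (next g)^[k - 2 + 2] u = e (i + 2) := by
            rw [Nat.sub_add_cancel hk2]; exact hk
          rw [iterate_add_apply] at h5
          exact h5
        · intro j hj h5
          apply hmin (j + 2) (by omega)
          rw [iterate_add_apply]
          exact h5
  -- `u` is not a boundary component
  have hnu : next g u ≠ u := by
    rcases hun with h1 | h1
    · exact h1
    · intro h2
      rcases hw with h3 | h3
      · rw [h2] at h3
        rcases h.ends u ⟨hu.1, h3⟩ with h4 | ⟨i', h4⟩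
        · exact h1 h4
        · have h5 := (h.lab_e i').1
          have h6 := (h.lab_e i').2
          rw [← h4] at h5 h6
          rw [h2, h5] at h6
          exact fn12 i' h6
      · rcases h.ends u ⟨hu.1, h3⟩ with h4 | ⟨i', h4⟩
        · exact h1 h4
        · have h5 := (h.lab_e i').1
          have h6 := (h.lab_e i').2
          rw [← h4] at h5 h6
          rw [h2, h5] at h6
          exact fn12 i' h6
  have hex : ∃ k, (next g)^[k] u = e (i + 2) := h.reach u hu hnu _
  classical
  exact key (Nat.find hex) u hu hlab hw (Nat.find_spec hex) fun j hj => Nat.find_min hex hj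

/-- the half edge after an end is the first one of a pair, or an end -/
theorem first {u : Half τ} (hu : Bd T g u) (hw : w u = u) :
    w (next g u) = next g (next g u) ∨ w (next g u) = next g u := by
  have hn := h.glu.next_bd hu
  rcases h.wall.near _ hn with h5 | h5 | h5
  · exact Or.inr h5
  · exact Or.inl h5
  · have hwn' : Bd T g (w (next g u)) := by
      refine ⟨h.wall.mem _ hn.1, ?_⟩
      by_contra h6
      have h7 := h.wall.ext _ h6
      rw [h.wall.inv] at h7
      have h8 := congrArg g h7
      rw [h.glu.inv, hn.2] at h8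
      rw [← h8, hn.2] at h6
      exact h6 rfl
    have h6 := h.glu.next_inj hu.2 hwn'.2 h5
    have h7 := congrArg w h6
    rw [h.wall.inv, hw] at h7
    right
    rw [← h7, hw]

/-- the partner of a boundary half edge is a boundary half edge -/
theorem bd_pair {u : Half τ} (hu : Bd T g u) : Bd T g (w u) := by
  refine ⟨h.wall.mem _ hu.1, ?_⟩
  by_contra h6
  have h7 := h.wall.ext _ h6
  rw [h.wall.inv] at h7
  have h8 := congrArg g h7
  rw [h.glu.inv, hu.2] at h8
  rw [← h8, hu.2] at h6
  exact h6 rfl

/-- a pair has one label -/
theorem lab_w {u : Half τ} (hu : Bd T g u) (hw : w u ≠ u) : lab (w u) = lab u := by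
  have hne : ∀ {v : Half τ}, w v ≠ v → ∀ i, v ≠ e i := fun hv i h1 => hv (by rw [h1]; exact (h.be i).2)
  rcases h.wall.near u hu with h1 | h1 | h1
  · exact absurd h1 hw
  · rw [h1]; exact h.step u hu (hne hw)
  · have h2 := h.step (w u) (h.bd_pair hu) (hne (by rw [h.wall.inv]; exact Ne.symm hw))
    rw [← h1] at h2
    exact h2.symm

lemma next_e_ne (i : Fin 3) : next g (next g (e i)) ≠ next g (e i) ∨ next g (e i) ≠ z := by
  by_contra h1
  push Not at h1
  obtain ⟨h1, h2⟩ := h1
  have h3 := h.glu.next_inj (h.bd_of_w (h.be i)).2 (h.bd_of_w h.bz).2 (h2.trans (by rw [h2] at h1; exact h1.symm))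
  exact h.ze i h3.symm

/-- the value of a colouring after a mark -/
theorem val_next {c χ : Half τ → ZMod 2} (hc : Corner g c)
    (hr : ∀ x : Half τ, x.1 ∈ T → c (rho x) = c x + χ x)
    (hz : χ z = 0) (i : Fin 3) (hχ : ∀ u, Bd T g u → lab u = i + 2 → w u ≠ u → χ (w u) = χ u) :
    c (rho (e i)) = c (e (i + 1)) := by
  have hb := h.bd_of_w (h.be i)
  rw [← h.glu.corner_next hc hb.2, h.val hc hr hz hχ (h.glu.next_bd hb) (h.next_e_ne i) (h.lab_e i).2
    (h.first hb (h.be i).2), f22]

variable [DecidableEq τ]

/-- a colouring of the closed surface as a colouring of the region -/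
theorem of_w {c : Half τ → ZMod 2} (hc : Corner w c) : Corner g c ∧
    ∀ u, w u ≠ u → c (rho (w u)) + c (w u) = c (rho u) + c u := by
  constructor
  · intro x hx
    have h1 := h.wall.ext x hx
    rw [← h1]
    exact hc x (by rw [h1]; exact hx)
  · intro u hu
    rw [corner_w h.wall.toGlu hc hu, hc u hu, add_comm]

/-- the value of a colouring of the closed surface at the wall corners of an arc -/
theorem val_w {c : Half τ → ZMod 2} (hc : Corner w c) (hz : c (rho z) = c z)
    {u : Half τ} (hu : Bd T g u) (hun : next g u ≠ u ∨ u ≠ z)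
    (hw : w u = next g u ∨ w u = u) : c u = c (e (lab u + 2)) := by
  obtain ⟨h1, h2⟩ := h.of_w hc
  refine h.val (χ := fun x => c (rho x) + c x) h1 (fun x _ => ?_) ?_ (fun v _ _ hv => h2 v hv) hu hun rfl hw
  · rw [add_comm (c (rho x)), ← add_assoc, CharTwo.add_self_eq_zero, zero_add]
  · show c (rho z) + c z = 0
    rw [hz, CharTwo.add_self_eq_zero]

theorem mk' : Mk T w z e where
  glu := h.wall.toGlu
  bz := h.bz
  be := h.be
  ze := h.ze
  ee := h.ee
  ends := h.ends
  sc := h.sc.wall h.glu h.wall
  cyc := by
    intro i c hc hz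
    obtain ⟨h1, h2⟩ := h.of_w hc
    refine h.val_next (χ := fun x => c (rho x) + c x) h1 (fun x _ => ?_) ?_ i (fun v _ _ hv => h2 v hv)
    · rw [add_comm (c (rho x)), ← add_assoc, CharTwo.add_self_eq_zero, zero_add]
    · show c (rho z) + c z = 0
      rw [hz, CharTwo.add_self_eq_zero]

end Lab

/-! ### cuts -/

section cut
variable [DecidableEq τ]

lemma sum_ind (x : Half τ) (t : τ) : ∑ d, (if (t, d) = x then (1 : ZMod 2) else 0) =
    if t = x.1 then 1 else 0 := by
  obtain ⟨u, d'⟩ := x
  by_cases h : t = u
  · subst h
    rw [if_pos rfl, Finset.sum_eq_single d']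
    · rw [if_pos rfl]
    · intro b _ hb
      rw [if_neg]
      exact fun h => hb (congrArg Prod.snd h)
    · intro h; exact absurd (Finset.mem_univ _) h
  · rw [if_neg h]
    apply Finset.sum_eq_zero
    intro d _
    rw [if_neg]
    exact fun h1 => h (congrArg Prod.fst h1)

/-- a path of tiles from the end `z` to a boundary half edge `b`, inside `B`, gives a closed cochain -/
theorem exists_cut (hG : Glu T g) {z b : Half τ} (hz : Bd T g z) (hb : Bd T g b) (hbz : b ≠ z)
    {B : Set τ} (hzB : z.1 ∈ B)
    (hp : ReflTransGen (fun x y : Half τ => y.1 ∈ B ∧ (y = rho x ∨ y = g x)) z b) :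
    ∃ cut : Half τ → ZMod 2, (∀ x, cut (g x) = cut x) ∧ (∀ t, ∑ d, cut (t, d) = 0) ∧ cut z = 1 ∧
      cut b = 1 ∧ (∀ x : Half τ, x.1 ∉ B → cut x = 0) ∧ ∀ u, g u = u → u ≠ z → u ≠ b → cut u = 0 := by
  have one : (1 : ZMod 2) + 1 = 0 := CharTwo.add_self_eq_zero 1
  have key : ∀ x, ReflTransGen (fun x y : Half τ => y.1 ∈ B ∧ (y = rho x ∨ y = g x)) z x →
      x.1 ∈ B ∧ ∃ cut : Half τ → ZMod 2, (∀ x, cut (g x) = cut x) ∧
        (∀ t, ∑ d, cut (t, d) = if t = x.1 then 1 else 0) ∧ cut z = 1 ∧
        (∀ x : Half τ, x.1 ∉ B → cut x = 0) ∧ ∀ u, g u = u → u ≠ z → cut u = 0 := by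
    intro x hx
    induction hx with
    | refl =>
      refine ⟨hzB, fun y => if y = z then 1 else 0, fun x => ?_, fun t => sum_ind z t, if_pos rfl,
        fun x hx => if_neg fun h => hx (by rw [h]; exact hzB), fun u _ hu => if_neg hu⟩
      by_cases h : x = z
      · rw [h, hz.2]
      · show (if g x = z then (1 : ZMod 2) else 0) = if x = z then 1 else 0
        rw [if_neg h, if_neg]
        intro h1
        apply h
        rw [← hG.inv x, h1, hz.2]
    | @tail x y _ h2 ih =>
      obtain ⟨iB, cut, c1, c2, c3, c4, c5⟩ := ih
      obtain ⟨yB, h2⟩ := h2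
      refine ⟨yB, ?_⟩
      rcases h2 with rfl | rfl
      · exact ⟨cut, c1, c2, c3, c4, c5⟩
      · by_cases hx : g x = x
        · rw [hx]; exact ⟨cut, c1, c2, c3, c4, c5⟩
        · have hxz : x ≠ z := fun h => hx (by rw [h]; exact hz.2)
          have hgz : g x ≠ z := fun h => hx (by
            have h1 := congrArg g h
            rw [hG.inv, hz.2] at h1
            rw [h1, hz.2])
          refine ⟨fun u => cut u + ((if u = x then 1 else 0) + (if u = g x then 1 else 0)),
            fun u => ?_, fun t => ?_, ?_, fun u hu => ?_, fun u hu huz => ?_⟩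
          · have e1 : (g u = x) ↔ (u = g x) :=
              ⟨fun h => by rw [← h, hG.inv], fun h => by rw [h, hG.inv]⟩
            have e2 : (g u = g x) ↔ (u = x) := ⟨fun h => hG.inj h, fun h => by rw [h]⟩
            simp only [e1, e2, c1 u]
            ring
          · rw [Finset.sum_add_distrib, Finset.sum_add_distrib, c2 t, sum_ind, sum_ind, ← add_assoc,
              CharTwo.add_self_eq_zero, zero_add]
          · simp only [if_neg (Ne.symm hxz), if_neg (Ne.symm hgz), c3, add_zero]
          · have e1 : u ≠ x := fun h => hu (by rw [h]; exact iB)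
            have e2 : u ≠ g x := fun h => hu (by rw [h]; exact yB)
            simp only [if_neg e1, if_neg e2, c4 u hu, add_zero]
          · have e1 : u ≠ x := fun h => hx (by rw [← h]; exact hu)
            have e2 : u ≠ g x := fun h => hx (by
              rw [h, hG.inv] at hu
              exact hu.symm)
            simp only [if_neg e1, if_neg e2, c5 u hu huz, add_zero]
  obtain ⟨bB, cut, c1, c2, c3, c4, c5⟩ := key b hp
  refine ⟨fun u => cut u + if u = b then 1 else 0, fun u => ?_, fun t => ?_, ?_, ?_, fun u hu => ?_,
    fun u hu huz hub => ?_⟩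
  · have e1 : (g u = b) ↔ (u = b) := ⟨fun h => by rw [← hG.inv u, h, hb.2], fun h => by rw [h, hb.2]⟩
    simp only [e1, c1 u]
  · rw [Finset.sum_add_distrib, c2 t, sum_ind]
    exact CharTwo.add_self_eq_zero _
  · simp only [if_neg (Ne.symm hbz), c3, add_zero]
  · simp only [if_true, c5 b hb.2 hbz, zero_add]
  · have e1 : u ≠ b := fun h => hu (by rw [h]; exact bB)
    simp only [if_neg e1, c4 u hu, add_zero]
  · simp only [if_neg hub, c5 u hu huz, add_zero]

/-- the colouring which changes only across the cut -/
structure CutCol (T : Finset τ) (g : Half τ → Half τ) (z b : Half τ) (B : Set τ) (c cut : Half τ → ZMod 2) :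
    Prop where
  corner : Corner g c
  nx : ∀ x : Half τ, x.1 ∈ T → c (rho x) = c x + (1 + cut x)
  zc : cut z = 1
  bc : cut b = 1
  supp : ∀ x : Half τ, x.1 ∉ B → cut x = 0
  bd : ∀ u, g u = u → u ≠ z → u ≠ b → cut u = 0

theorem exists_cutCol (hG : Glu T g) {z b : Half τ} (hS : SCz T g z) (hz : Bd T g z) (hb : Bd T g b)
    (hbz : b ≠ z) {B : Set τ} (hzB : z.1 ∈ B)
    (hp : ReflTransGen (fun x y : Half τ => y.1 ∈ B ∧ (y = rho x ∨ y = g x)) z b) :
    ∃ c cut, CutCol T g z b B c cut := by
  obtain ⟨cut, c1, c2, c3, c4, c5, c6⟩ := exists_cut hG hz hb hbz hzB hp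
  have one : (1 : ZMod 2) + 1 = 0 := CharTwo.add_self_eq_zero 1
  obtain ⟨c, hc, hr⟩ := hS (fun x => 1 + cut x) (fun x => by rw [c1]) (fun t _ => by
    rw [Finset.sum_add_distrib, c2 t, Dir.sum_dir]
    linear_combination 2 * one) (by rw [c3, one])
  exact ⟨c, cut, hc, hr, c3, c4, c5, c6⟩

variable {ω : Finset τ} {B : Set τ} {b : Half τ} {c cut : Half τ → ZMod 2}

/-- the cut colouring is constant along the steps outside `B` -/
theorem CutCol.st (h : Lab T g w z e lab) (hc : CutCol T g z b B c cut) (hzB : z.1 ∈ B) {x y : Half τ}
    (hs : StS B T w w z z ω x y) : c y = c x := by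
  have one : (1 : ZMod 2) + 1 = 0 := CharTwo.add_self_eq_zero 1
  have key : ∀ {x y : Half τ}, x.1 ∈ T → Stp B w w z z ω x y → c y = c x := by
    rintro x y hx ⟨hxB, hyB, h3⟩
    rcases h3 with ⟨h3, -, rfl⟩ | ⟨h3, rfl⟩ | ⟨rfl, -, -⟩
    · -- a side
      have hyB' : (w x).1 ∉ B := hyB
      rcases wall_cases h.glu h.wall x hx with h4 | ⟨h4, h5⟩ | ⟨h4, h5⟩ | ⟨h4, h5⟩
      · exact absurd h4 h3
      · rw [h5]; exact corner_w h.glu hc.corner h4
      · rw [hc.nx _ (h.wall.mem x hx), hc.supp _ hyB', h5, h.glu.corner_next hc.corner h4.2,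
          hc.nx x hx, hc.supp x hxB]
        linear_combination one
      · have hux : next g (w x) = x := by rw [← h5, h.wall.inv]
        have h6 := h.glu.corner_next hc.corner h4.2
        rw [hux] at h6
        exact h6.symm
    · rw [← rho_rho, hc.nx (rho x) hx, hc.nx x hx, hc.supp x hxB, hc.supp (rho x) hxB]
      linear_combination one
    · exact absurd hzB hxB
  obtain ⟨h1, h2, h3⟩ := hs
  rcases h3 with h3 | h3
  · exact key h1 h3
  · exact (key h2 h3).symm

/-- values of the cut colouring on the arcs which the cut does not meet -/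
theorem CutCol.pair (h : Lab T g w z e lab) (hc : CutCol T g z b B c cut)
    {i : Fin 3} (hib : i ≠ lab b) : ∀ v, Bd T g v → lab v = i → w v ≠ v → 1 + cut (w v) = 1 + cut v := by
  intro v hv hvl hvw
  have hwz : ∀ v, w v ≠ v → v ≠ z := fun v hv h1 => hv (by rw [h1]; exact h.bz.2)
  have hvw' : w (w v) ≠ w v := by rw [h.wall.inv]; exact Ne.symm hvw
  have hvb : v ≠ b := fun h1 => hib (by rw [← hvl, h1])
  have hvb' : w v ≠ b := fun h1 => hib (by rw [← hvl, ← h1, h.lab_w hv hvw])
  have hbd := h.bd_pair hv
  rw [hc.bd v hv.2 (hwz v hvw) hvb, hc.bd (w v) hbd.2 (hwz _ hvw') hvb']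

/-- values of the cut colouring on the arcs which the cut does not meet -/
theorem CutCol.val (h : Lab T g w z e lab) (hc : CutCol T g z b B c cut)
    {i : Fin 3} (hib : i ≠ lab b) {u : Half τ}
    (hu : Bd T g u) (hun : next g u ≠ u ∨ u ≠ z) (hlab : lab u = i) (hw : w u = next g u ∨ w u = u) :
    c u = c (e (i + 2)) := by
  have one : (1 : ZMod 2) + 1 = 0 := CharTwo.add_self_eq_zero 1
  exact h.val hc.corner hc.nx (by rw [hc.zc, one]) (hc.pair h hib) hu hun hlab hw

end cut

end Full.P5
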