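import Pool.Agent.Helper32.Ann.Slab
import Pool.Agent.Full.Def.Surf

/-!
# One arm bound in abstract charts

A set `K` of tiles, the *good* diagonal of the tile `t` joins the vertices `a t`, `b t`, it is present iff
`t ∈ S`, `S` a uniform subset of `K`.  `pos` is the position of a vertex relative to the centre.  For each of
the four directions there is a chart of the part `co d > m` of the surface, which identifies the good diagonals
with diagonals of distinct tiles of `ℤ × ℤ`.  Then a path of good diagonals from distance `r` to distance `R`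
has probability at most `C (r/R)^c`, with universal constants.
-/

set_option autoImplicit false

namespace Full.P5
open Finset Relation
open Pool.Agent.Helper69.RSW (P P_mono P_congr P_restrict Dep Up P_nonneg P_le_one P_indep P_add_of_disjoint
  harris)

/-! ### Harris' inequality for unions -/

section prob
variable {E : Type*} [DecidableEq E]

lemma P_or_add (F : Finset E) (A B : Finset E → Prop) :
    P F (fun S => A S ∨ B S) + P F (fun S => A S ∧ B S) = P F A + P F B := by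
  have h1 : P F (fun S => A S ∨ B S) = P F A + P F (fun S => B S ∧ ¬ A S) := by
    rw [← P_add_of_disjoint F A (fun S => B S ∧ ¬ A S) (fun S _ h => h.2.2 h.1)]
    exact P_congr fun S _ => by tauto
  have h2 : P F B = P F (fun S => A S ∧ B S) + P F (fun S => B S ∧ ¬ A S) := by
    rw [← P_add_of_disjoint F (fun S => A S ∧ B S) (fun S => B S ∧ ¬ A S) (fun S _ h => h.2.2 h.1.1)]
    exact P_congr fun S _ => by tauto
  rw [h1, h2]
  ring

lemma P_or_le_mul (F : Finset E) {A B : Finset E → Prop} (hA : Up A) (hB : Up B) :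
    P F (fun S => A S ∨ B S) ≤ 1 - (1 - P F A) * (1 - P F B) := by
  have h1 := P_or_add F A B
  have h2 := harris F hA hB
  linarith

lemma P_ex_le {ι : Type*} [DecidableEq ι] (F : Finset E) (I : Finset ι) (A : ι → Finset E → Prop)
    (hA : ∀ i ∈ I, Up (A i)) {θ : ℝ} (h1 : θ ≤ 1) (h : ∀ i ∈ I, P F (A i) ≤ θ) :
    P F (fun S => ∃ i ∈ I, A i S) ≤ 1 - (1 - θ) ^ I.card := by
  induction I using Finset.induction_on with
  | empty =>
    have h2 : P F (fun S => ∃ i ∈ (∅ : Finset ι), A i S) = P F (fun _ => False) :=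
      P_congr fun S _ => by simp
    rw [h2, Pool.Agent.Helper69.RSW.P_false]
    simp
  | insert i I hi ih =>
    have e1 : P F (fun S => ∃ j ∈ insert i I, A j S) = P F (fun S => A i S ∨ ∃ j ∈ I, A j S) :=
      P_congr fun S _ => by simp
    have hU : Up (fun S => ∃ j ∈ I, A j S) := by
      rintro S T hST ⟨j, hj, h2⟩
      exact ⟨j, hj, hA j (mem_insert_of_mem hj) S T hST h2⟩
    have h3 := P_or_le_mul F (hA i (mem_insert_self i I)) hU
    have h4 := ih (fun j hj => hA j (mem_insert_of_mem hj)) (fun j hj => h j (mem_insert_of_mem hj))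
    have h5 := h i (mem_insert_self i I)
    rw [e1, card_insert_of_notMem hi, pow_succ]
    have h6 : (1 - θ) ^ I.card * (1 - θ) ≤ (1 - P F (A i)) * (1 - P F (fun S => ∃ j ∈ I, A j S)) := by
      rw [mul_comm]
      exact mul_le_mul (by linarith) (by linarith) (pow_nonneg (by linarith) _) (by linarith)
    linarith

omit [DecidableEq E] in
/-- relabelling by a map which is injective on the set of tiles -/
lemma P_image {E' : Type*} [DecidableEq E'] (F : Finset E) {g : E → E'} (hg : Set.InjOn g F)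
    (A : Finset E' → Prop) : P (F.image g) A = P F (fun S => A (S.image g)) := by
  classical
  unfold P
  rw [Finset.card_image_of_injOn hg]
  congr 2
  symm
  apply Finset.card_bij (i := fun S _ => S.image g)
  · intro S h
    simp only [Finset.mem_filter, Finset.mem_powerset] at h ⊢
    exact ⟨Finset.image_subset_image h.1, h.2⟩
  · intro S h T h' hST
    simp only [Finset.mem_filter, Finset.mem_powerset] at h h'
    ext x
    constructor
    · intro hx
      have : g x ∈ T.image g := by rw [← hST]; exact mem_image_of_mem g hx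
      obtain ⟨y, hy, hyx⟩ := mem_image.1 this
      rwa [← hg (h'.1 hy) (h.1 hx) hyx]
    · intro hx
      have : g x ∈ S.image g := by rw [hST]; exact mem_image_of_mem g hx
      obtain ⟨y, hy, hyx⟩ := mem_image.1 this
      rwa [← hg (h.1 hy) (h'.1 hx) hyx]
  · intro T h
    simp only [Finset.mem_filter, Finset.mem_powerset] at h
    obtain ⟨S, hS, rfl⟩ := Finset.subset_image_iff.1 h.1
    refine ⟨S, ?_, rfl⟩
    simp only [Finset.mem_filter, Finset.mem_powerset]
    exact ⟨by exact_mod_cast hS, h.2⟩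

end prob

/-! ### coordinates -/

/-- the coordinate in the direction `d` -/
def co : Dir → ℤ × ℤ → ℤ
  | .E, p => p.1 | .N, p => p.2 | .W, p => -p.1 | .S, p => -p.2

/-- the other coordinate -/
def oth : Dir → ℤ × ℤ → ℤ
  | .E, p => p.2 | .N, p => p.1 | .W, p => p.2 | .S, p => p.1

/-- the lower left corner of a tile in the coordinates `(oth d, co d)` -/
def tl : Dir → ℤ × ℤ → ℤ × ℤ
  | .E, q => (q.2, q.1) | .N, q => q | .W, q => (q.2, -q.1 - 1) | .S, q => (q.1, -q.2 - 1)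

lemma tl_inj (d : Dir) {q q' : ℤ × ℤ} (h : tl d q = tl d q') : q = q' := by
  cases d <;> simp only [tl, Prod.mk.injEq] at h <;> ext <;> first | omega | simp_all

/-- `u`, `v` are two opposite corners of the unit square with the lower left corner `q` -/
def Opp (q u v : ℤ × ℤ) : Prop :=
  (u = q ∧ v = (q.1 + 1, q.2 + 1)) ∨ (v = q ∧ u = (q.1 + 1, q.2 + 1)) ∨
    (u = (q.1 + 1, q.2) ∧ v = (q.1, q.2 + 1)) ∨ (v = (q.1 + 1, q.2) ∧ u = (q.1, q.2 + 1))

lemma Opp.tr (d : Dir) {q u v : ℤ × ℤ} (h : Opp q u v) :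
    Opp (tl d q) (oth d u, co d u) (oth d v, co d v) := by
  have e1 : ∀ x : ℤ, - (x + 1) = -x - 1 := fun x => by ring
  have e2 : ∀ x : ℤ, - x - 1 + 1 = - x := fun x => by ring
  unfold Opp at h ⊢
  rcases h with ⟨rfl, rfl⟩ | ⟨rfl, rfl⟩ | ⟨rfl, rfl⟩ | ⟨rfl, rfl⟩ <;> cases d <;>
    simp [tl, oth, co, e1, e2]

/-- sup norm -/
def nrm (p : ℤ × ℤ) : ℤ := max |p.1| |p.2|

lemma nrm_le_iff {p : ℤ × ℤ} {k : ℤ} : nrm p ≤ k ↔ ∀ d, co d p ≤ k := by
  unfold nrm
  rw [max_le_iff, abs_le, abs_le]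
  constructor
  · rintro ⟨⟨h1, h2⟩, h3, h4⟩ d
    cases d <;> simp only [co] <;> omega
  · intro h
    have h1 := h .E
    have h2 := h .N
    have h3 := h .W
    have h4 := h .S
    simp only [co] at h1 h2 h3 h4
    omega

lemma le_nrm_iff {p : ℤ × ℤ} {k : ℤ} : k ≤ nrm p ↔ ∃ d, k ≤ co d p := by
  have h := (nrm_le_iff (p := p) (k := k - 1)).not
  rw [not_le, not_forall] at h
  constructor
  · intro h1
    obtain ⟨d, hd⟩ := h.1 (by omega)
    exact ⟨d, by omega⟩
  · rintro ⟨d, hd⟩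
    have := h.2 ⟨d, by omega⟩
    omega

lemma co_le_nrm (d : Dir) (p : ℤ × ℤ) : co d p ≤ nrm p := nrm_le_iff.1 le_rfl d

lemma oth_le_nrm (d : Dir) (p : ℤ × ℤ) : -nrm p ≤ oth d p ∧ oth d p ≤ nrm p := by
  have h := nrm_le_iff.1 (le_refl (nrm p))
  have h1 := h .E
  have h2 := h .N
  have h3 := h .W
  have h4 := h .S
  simp only [co] at h1 h2 h3 h4
  cases d <;> simp only [oth] <;> omega

lemma nrm_le_of {d : Dir} {p : ℤ × ℤ} {k : ℤ} (h1 : co d p ≤ k) (h2 : -k ≤ co d p) (h3 : oth d p ≤ k)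
    (h4 : -k ≤ oth d p) : nrm p ≤ k := by
  unfold nrm
  rw [max_le_iff, abs_le, abs_le]
  cases d <;> simp only [co, oth] at h1 h2 h3 h4 <;> omega

lemma co_near (d : Dir) {p p' : ℤ × ℤ} (h1 : |p.1 - p'.1| ≤ 1) (h2 : |p.2 - p'.2| ≤ 1) :
    co d p ≤ co d p' + 1 ∧ co d p' ≤ co d p + 1 := by
  rw [abs_le] at h1 h2
  cases d <;> simp only [co] <;> omega

/-! ### charts -/

section charts
variable {τ V : Type*}

/-- one step: the same vertex, or a present good diagonal -/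
def St (a b : τ → V) (sm : V → V → Prop) (S : Finset τ) (u v : V) : Prop :=
  sm u v ∨ ∃ t ∈ S, (u = a t ∧ v = b t) ∨ (u = b t ∧ v = a t)

/-- positions and the four charts; `m` is the size of the bad ball -/
structure Charts (K : Finset τ) (a b : τ → V) (sm : V → V → Prop) (pos : V → ℤ × ℤ)
    (kt : Dir → τ → ℤ × ℤ) (kv : Dir → V → ℤ × ℤ) (m : ℕ) : Prop where
  sm_pos : ∀ u v, sm u v → pos u = pos v
  near : ∀ t ∈ K, |(pos (a t)).1 - (pos (b t)).1| ≤ 1 ∧ |(pos (a t)).2 - (pos (b t)).2| ≤ 1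
  kv_pos : ∀ d v, (m : ℤ) < co d (pos v) → co d (kv d v) = co d (pos v) ∧
    |oth d (kv d v) - oth d (pos v)| ≤ m
  kv_sm : ∀ d u v, sm u v → (m : ℤ) < co d (pos u) → kv d u = kv d v
  opp : ∀ d, ∀ t ∈ K, (m : ℤ) < co d (pos (a t)) → (m : ℤ) < co d (pos (b t)) →
    Opp (kt d t) (kv d (a t)) (kv d (b t))
  inj : ∀ d, ∀ t ∈ K, ∀ t' ∈ K, (m : ℤ) < co d (pos (a t)) → (m : ℤ) < co d (pos (b t)) →
    (m : ℤ) < co d (pos (a t')) → (m : ℤ) < co d (pos (b t')) → kt d t = kt d t' → t = t'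

variable {K : Finset τ} {a b : τ → V} {sm : V → V → Prop} {pos : V → ℤ × ℤ}
  {kt : Dir → τ → ℤ × ℤ} {kv : Dir → V → ℤ × ℤ} {m : ℕ}

lemma Charts.near_co (H : Charts K a b sm pos kt kv m) {S : Finset τ} (hS : S ⊆ K) {u v : V}
    (h : St a b sm S u v) (d : Dir) : co d (pos u) ≤ co d (pos v) + 1 ∧ co d (pos v) ≤ co d (pos u) + 1 := by
  rcases h with h | ⟨t, ht, ⟨rfl, rfl⟩ | ⟨rfl, rfl⟩⟩
  · rw [H.sm_pos u v h]; omega
  · obtain ⟨h1, h2⟩ := H.near t (hS ht)
    exact co_near d h1 h2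
  · obtain ⟨h1, h2⟩ := H.near t (hS ht)
    exact (co_near d h1 h2).symm

/-- both ends in the strip `k ≤ co d ≤ 3 k` of the box of size `3 k` -/
def Strip (pos : V → ℤ × ℤ) (d : Dir) (k : ℤ) (u : V) : Prop :=
  k ≤ co d (pos u) ∧ co d (pos u) ≤ 3 * k ∧ oth d (pos u) ≤ 3 * k ∧ -(3 * k) ≤ oth d (pos u)

/-- a path from distance at most `k` to distance at least `3 k` contains a path through a strip -/
theorem Charts.extract (H : Charts K a b sm pos kt kv m) {S : Finset τ} (hS : S ⊆ K) {k : ℤ} (hk : 1 ≤ k)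
    {u v : V} (hu : nrm (pos u) ≤ k) (hv : 3 * k ≤ nrm (pos v)) (h : ReflTransGen (St a b sm S) u v) :
    ∃ (d : Dir) (w0 w1 : V), co d (pos w0) = k ∧ co d (pos w1) = 3 * k ∧ Strip pos d k w0 ∧
      ReflTransGen (fun x y => St a b sm S x y ∧ Strip pos d k x ∧ Strip pos d k y) w0 w1 := by
  -- first time at distance `3 k`
  have key1 : ∀ y, ReflTransGen (St a b sm S) u y →
      (∃ x, nrm (pos x) = 3 * k ∧ ReflTransGen (fun x y => St a b sm S x y ∧ nrm (pos x) < 3 * k ∧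
        nrm (pos y) ≤ 3 * k) u x) ∨
      (nrm (pos y) < 3 * k ∧ ReflTransGen (fun x y => St a b sm S x y ∧ nrm (pos x) < 3 * k ∧
        nrm (pos y) ≤ 3 * k) u y) := by
    intro y hy
    induction hy with
    | refl => exact Or.inr ⟨by omega, ReflTransGen.refl⟩
    | @tail y z _ hyz ih =>
      rcases ih with ih | ⟨i1, i2⟩
      · exact Or.inl ih
      · have h3 : nrm (pos z) ≤ 3 * k := by
          rw [nrm_le_iff]
          intro d
          have h4 := (H.near_co hS hyz d).2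
          have h5 := co_le_nrm d (pos y)
          omega
        have h4 := i2.tail ⟨hyz, i1, h3⟩
        rcases h3.eq_or_lt with h5 | h5
        · exact Or.inl ⟨z, h5, h4⟩
        · exact Or.inr ⟨h5, h4⟩
  obtain ⟨x, hx, hux⟩ : ∃ x, nrm (pos x) = 3 * k ∧ ReflTransGen (fun x y => St a b sm S x y ∧
      nrm (pos x) < 3 * k ∧ nrm (pos y) ≤ 3 * k) u x := by
    rcases key1 v h with h1 | ⟨h1, -⟩
    · exact h1
    · omega
  obtain ⟨d, hd⟩ := le_nrm_iff.1 hx.ge
  have hdx : co d (pos x) = 3 * k := le_antisymm (by rw [← hx]; exact co_le_nrm d _) hd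
  have strip : ∀ y, k ≤ co d (pos y) → nrm (pos y) ≤ 3 * k → Strip pos d k y := by
    intro y h1 h2
    have h3 := co_le_nrm d (pos y)
    have h4 := oth_le_nrm d (pos y)
    exact ⟨h1, by omega, by omega, by omega⟩
  -- last time at `co d = k`
  have key2 : ∀ y, ReflTransGen (fun x y => St a b sm S x y ∧ nrm (pos x) < 3 * k ∧
      nrm (pos y) ≤ 3 * k) y x → nrm (pos y) ≤ 3 * k ∧
      ((∃ w, co d (pos w) = k ∧ Strip pos d k w ∧ ReflTransGen (fun x y => St a b sm S x y ∧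
        Strip pos d k x ∧ Strip pos d k y) w x) ∨
      (k < co d (pos y) ∧ ReflTransGen (fun x y => St a b sm S x y ∧ Strip pos d k x ∧
        Strip pos d k y) y x)) := by
    intro y hy
    induction hy using ReflTransGen.head_induction_on with
    | refl => exact ⟨hx.le, Or.inr ⟨by omega, ReflTransGen.refl⟩⟩
    | @head y z hyz _ ih =>
      obtain ⟨g1, g2, g3⟩ := hyz
      refine ⟨g2.le, ?_⟩
      rcases ih.2 with h1 | ⟨h1, h2⟩
      · exact Or.inl h1
      · have h4 := (H.near_co hS g1 d).2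
        have h5 := ReflTransGen.head (r := fun x y => St a b sm S x y ∧ Strip pos d k x ∧
          Strip pos d k y) ⟨g1, strip y (by omega) g2.le, strip z h1.le g3⟩ h2
        rcases lt_or_ge k (co d (pos y)) with h6 | h6
        · exact Or.inr ⟨h6, h5⟩
        · exact Or.inl ⟨y, by omega, strip y (by omega) g2.le, h5⟩
  rcases (key2 u hux).2 with ⟨w, h1, h2, h3⟩ | ⟨h1, -⟩
  · exact ⟨d, w, x, h1, hdx, h2, h3⟩
  · have := co_le_nrm d (pos u)
    omega

/-- the tile in the chart of the direction `d`, as a pair (row, column) -/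
def gm (kt : Dir → τ → ℤ × ℤ) (d : Dir) (k : ℕ) (t : τ) : ℕ × ℕ :=
  ((tl d (kt d t)).2.toNat, ((tl d (kt d t)).1 + 4 * k).toNat)

/-- the vertex in the chart of the direction `d` -/
def vm (kv : Dir → V → ℤ × ℤ) (d : Dir) (k : ℕ) (v : V) : ℕ × ℕ :=
  ((oth d (kv d v) + 4 * k).toNat, (co d (kv d v)).toNat)

open Classical in
/-- the tiles of the strip whose good diagonal has the colour `r` in the chart -/
noncomputable def KK (K : Finset τ) (a b : τ → V) (pos : V → ℤ × ℤ) (kv : Dir → V → ℤ × ℤ) (d : Dir)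
    (k r : ℕ) : Finset τ :=
  K.filter fun t => Strip pos d k (a t) ∧ Strip pos d k (b t) ∧
    (oth d (kv d (a t)) + co d (kv d (a t))) % 2 = r

lemma mem_KK {d : Dir} {k r : ℕ} {t : τ} : t ∈ KK K a b pos kv d k r ↔ t ∈ K ∧ Strip pos d k (a t) ∧
    Strip pos d k (b t) ∧ (oth d (kv d (a t)) + co d (kv d (a t))) % 2 = r := by
  classical
  unfold KK
  rw [mem_filter]

lemma Charts.strip_kv (H : Charts K a b sm pos kt kv m) {k : ℕ} (hk : m < k) {d : Dir} {v : V}
    (hv : Strip pos d k v) : (k : ℤ) ≤ co d (kv d v) ∧ co d (kv d v) ≤ 3 * k ∧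
      co d (kv d v) = co d (pos v) ∧ -(4 * k) < oth d (kv d v) ∧ oth d (kv d v) < 4 * k := by
  obtain ⟨h1, h2, h3, h4⟩ := hv
  obtain ⟨h5, h6⟩ := H.kv_pos d v (by omega)
  rw [abs_le] at h6
  omega

variable [DecidableEq τ]

theorem Charts.toCon (H : Charts K a b sm pos kt kv m) {S : Finset τ} (hS : S ⊆ K) {k : ℕ} (hk : m < k)
    {d : Dir} {r : ℕ} {w0 : V} (hw0 : Strip pos d k w0)
    (hr : (oth d (kv d w0) + co d (kv d w0)) % 2 = r) {y : V}
    (h : ReflTransGen (fun x y => St a b sm S x y ∧ Strip pos d k x ∧ Strip pos d k y) w0 y) :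
    Strip pos d k y ∧ (oth d (kv d y) + co d (kv d y)) % 2 = r ∧
      Ann32.Con r ((S ∩ KK K a b pos kv d k r).image (gm kt d k)) (vm kv d k w0) (vm kv d k y) := by
  induction h with
  | refl => exact ⟨hw0, hr, ReflTransGen.refl⟩
  | @tail y z _ hyz ih =>
    obtain ⟨i1, i2, i3⟩ := ih
    obtain ⟨g1, g2, g3⟩ := hyz
    refine ⟨g3, ?_⟩
    rcases g1 with h1 | ⟨t, ht, h1⟩
    · have h2 := H.kv_sm d y z h1 (by have := g2.1; omega)
      have h3 : vm kv d k z = vm kv d k y := by unfold vm; rw [h2]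
      rw [h3, ← h2]
      exact ⟨i2, i3⟩
    · have hst : Strip pos d k (a t) ∧ Strip pos d k (b t) := by
        rcases h1 with ⟨rfl, rfl⟩ | ⟨rfl, rfl⟩
        · exact ⟨g2, g3⟩
        · exact ⟨g3, g2⟩
      obtain ⟨s1, s2⟩ := hst
      obtain ⟨a1, a2, a3, a4, a5⟩ := H.strip_kv hk s1
      obtain ⟨b1, b2, b3, b4, b5⟩ := H.strip_kv hk s2
      have ho := (H.opp d t (hS ht) (by have := s1.1; omega) (by have := s2.1; omega)).tr d
      have hpar : (oth d (kv d (a t)) + co d (kv d (a t))) % 2 =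
          (oth d (kv d (b t)) + co d (kv d (b t))) % 2 := by
        unfold Opp at ho
        simp only [Prod.ext_iff] at ho
        omega
      have hpa : (oth d (kv d (a t)) + co d (kv d (a t))) % 2 = r := by
        rcases h1 with ⟨rfl, rfl⟩ | ⟨rfl, rfl⟩
        · exact i2
        · rw [hpar]; exact i2
      have hmem : gm kt d k t ∈ (S ∩ KK K a b pos kv d k r).image (gm kt d k) :=
        mem_image_of_mem _ (mem_inter.2 ⟨ht, mem_KK.2 ⟨hS ht, s1, s2, hpa⟩⟩)
      have hDE : Ann32.DE r ((S ∩ KK K a b pos kv d k r).image (gm kt d k)) (vm kv d k (a t))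
          (vm kv d k (b t)) ∨ Ann32.DE r ((S ∩ KK K a b pos kv d k r).image (gm kt d k))
          (vm kv d k (b t)) (vm kv d k (a t)) := by
        generalize (S ∩ KK K a b pos kv d k r).image (gm kt d k) = S' at hmem
        unfold Ann32.DE
        unfold gm at hmem
        unfold vm
        generalize tl d (kt d t) = q at *
        obtain ⟨q1, q2⟩ := q
        generalize oth d (kv d (a t)) = xa at *
        generalize co d (kv d (a t)) = ya at *
        generalize oth d (kv d (b t)) = xb at *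
        generalize co d (kv d (b t)) = yb at *
        unfold Opp at ho
        simp only [Prod.mk.injEq] at ho hmem ⊢
        rcases ho with ⟨⟨e1, e2⟩, e3, e4⟩ | ⟨⟨e1, e2⟩, e3, e4⟩ | ⟨⟨e1, e2⟩, e3, e4⟩ | ⟨⟨e1, e2⟩, e3, e4⟩
        · exact Or.inl ⟨_, _, hmem, Or.inl ⟨by omega, by omega, by omega⟩⟩
        · exact Or.inr ⟨_, _, hmem, Or.inl ⟨by omega, by omega, by omega⟩⟩
        · exact Or.inl ⟨_, _, hmem, Or.inr ⟨by omega, by omega, by omega⟩⟩
        · exact Or.inr ⟨_, _, hmem, Or.inr ⟨by omega, by omega, by omega⟩⟩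
      rcases h1 with ⟨rfl, rfl⟩ | ⟨rfl, rfl⟩
      · exact ⟨by rw [← hpar]; exact i2, i3.tail hDE⟩
      · exact ⟨hpa, i3.tail hDE.symm⟩

/-- the event in the chart of the direction `i.1`, from the interval number `i.2.1`, colour `i.2.2` -/
def Ev (K : Finset τ) (a b : τ → V) (pos : V → ℤ × ℤ) (kt : Dir → τ → ℤ × ℤ) (kv : Dir → V → ℤ × ℤ)
    (k : ℕ) (i : Dir × Fin 4 × Fin 2) (S : Finset τ) : Prop :=
  Ann32.ArmW i.2.2 (2 * k * i.2.1) (2 * k * i.2.1 + 2 * k) k (3 * k)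
    ((S ∩ KK K a b pos kv i.1 k i.2.2).image (gm kt i.1 k))

lemma up_Ev (k : ℕ) (i : Dir × Fin 4 × Fin 2) : Up (Ev K a b pos kt kv k i) := by
  intro S T hST h
  exact Ann32.up_ArmW _ _ _ _ _ _ _ (image_subset_image (inter_subset_inter_right hST)) h

/-- the tiles of the annulus -/
noncomputable def KA (K : Finset τ) (a : τ → V) (pos : V → ℤ × ℤ) (k : ℕ) : Finset τ :=
  K.filter fun t => (k : ℤ) ≤ nrm (pos (a t)) ∧ nrm (pos (a t)) ≤ 3 * k

omit [DecidableEq τ] in
lemma KK_sub (d : Dir) (k r : ℕ) : KK K a b pos kv d k r ⊆ KA K a pos k := by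
  intro t ht
  obtain ⟨h1, h2, -, -⟩ := mem_KK.1 ht
  obtain ⟨h3, h4, h5, h6⟩ := h2
  refine mem_filter.2 ⟨h1, h3.trans (co_le_nrm d _), nrm_le_of h4 (by omega) h5 h6⟩

lemma dep_Ev (k : ℕ) (i : Dir × Fin 4 × Fin 2) : Dep (KA K a pos k) (Ev K a b pos kt kv k i) := by
  intro S
  unfold Ev
  rw [inter_assoc, inter_eq_right.2 (KK_sub i.1 k i.2.2)]

omit [DecidableEq τ] in
theorem Charts.gm_inj (H : Charts K a b sm pos kt kv m) {k : ℕ} (hk : m < k) (d : Dir) (r : ℕ) :
    Set.InjOn (gm kt d k) (KK K a b pos kv d k r) ∧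
      ∀ t ∈ KK K a b pos kv d k r, k ≤ (gm kt d k t).1 ∧ (gm kt d k t).1 < 3 * k := by
  have key : ∀ t ∈ KK K a b pos kv d k r, (k : ℤ) ≤ (tl d (kt d t)).2 ∧ (tl d (kt d t)).2 < 3 * k ∧
      -(4 * k) < (tl d (kt d t)).1 ∧ (m : ℤ) < co d (pos (a t)) ∧ (m : ℤ) < co d (pos (b t)) ∧ t ∈ K := by
    intro t ht
    obtain ⟨h1, s1, s2, -⟩ := mem_KK.1 ht
    obtain ⟨a1, a2, a3, a4, a5⟩ := H.strip_kv hk s1
    obtain ⟨b1, b2, b3, b4, b5⟩ := H.strip_kv hk s2
    have ho := (H.opp d t h1 (by have := s1.1; omega) (by have := s2.1; omega)).tr d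
    unfold Opp at ho
    simp only [Prod.ext_iff] at ho
    have s3 := s1.1
    have s4 := s2.1
    exact ⟨by omega, by omega, by omega, by omega, by omega, h1⟩
  constructor
  · intro t ht t' ht' h
    obtain ⟨a1, a2, a3, a4, a5, a6⟩ := key t ht
    obtain ⟨b1, b2, b3, b4, b5, b6⟩ := key t' ht'
    unfold gm at h
    rw [Prod.mk.injEq] at h
    refine H.inj d t a6 t' b6 a4 a5 b4 b5 (tl_inj d ?_)
    ext <;> omega
  · intro t ht
    obtain ⟨a1, a2, a3, a4, a5, a6⟩ := key t ht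
    unfold gm
    simp only
    omega

/-- the probability of one event -/
theorem Charts.ev_le {θ : ℝ} (hθ : ∀ (r y0 y1 x0 x1 : ℕ) (F : Finset (ℕ × ℕ)), r < 2 → y0 < y1 →
      x1 + y0 ≤ x0 + y1 → (∀ p ∈ F, y0 ≤ p.1 ∧ p.1 < y1) → P F (Ann32.ArmW r x0 x1 y0 y1) ≤ θ)
    (H : Charts K a b sm pos kt kv m) {k : ℕ} (hk : m < k) (i : Dir × Fin 4 × Fin 2) :
    P K (Ev K a b pos kt kv k i) ≤ θ := by
  obtain ⟨h1, h2⟩ := H.gm_inj hk i.1 i.2.2
  have hsub : KK K a b pos kv i.1 k i.2.2 ⊆ K := fun t ht => (mem_KK.1 ht).1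
  have hdep : Dep (KK K a b pos kv i.1 k i.2.2) (Ev K a b pos kt kv k i) := by
    intro S
    unfold Ev
    rw [inter_assoc, inter_self]
  rw [P_restrict hsub hdep]
  have h3 : P (KK K a b pos kv i.1 k i.2.2) (Ev K a b pos kt kv k i) =
      P (KK K a b pos kv i.1 k i.2.2) (fun S => Ann32.ArmW i.2.2 (2 * k * i.2.1) (2 * k * i.2.1 + 2 * k)
        k (3 * k) (S.image (gm kt i.1 k))) := P_congr fun S hS => by
    unfold Ev
    rw [inter_eq_left.2 hS]
  rw [h3, ← P_image _ h1]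
  refine hθ _ _ _ _ _ _ i.2.2.isLt (by omega) (by omega) ?_
  intro p hp
  obtain ⟨t, ht, rfl⟩ := mem_image.1 hp
  exact h2 t ht

/-- a path from distance `k` to distance `3 k` gives one of the events -/
theorem Charts.ex_ev (H : Charts K a b sm pos kt kv m) {S : Finset τ} (hS : S ⊆ K) {k : ℕ} (hk : m < k)
    {u v : V} (hu : nrm (pos u) ≤ k) (hv : 3 * k ≤ nrm (pos v)) (h : ReflTransGen (St a b sm S) u v) :
    ∃ i ∈ (univ : Finset (Dir × Fin 4 × Fin 2)), Ev K a b pos kt kv k i S := by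
  obtain ⟨d, w0, w1, h0, h1, h2, h3⟩ := H.extract hS (by omega) hu hv h
  obtain ⟨r, hr, hr2⟩ : ∃ r : ℕ, (oth d (kv d w0) + co d (kv d w0)) % 2 = r ∧ r < 2 :=
    ⟨((oth d (kv d w0) + co d (kv d w0)) % 2).toNat, by omega, by omega⟩
  obtain ⟨g1, g2, g3⟩ := H.toCon hS hk h2 hr h3
  obtain ⟨c1, c2, c3, c4, c5⟩ := H.strip_kv hk h2
  obtain ⟨e1, e2, e3, e4, e5⟩ := H.strip_kv hk g1
  set x := (oth d (kv d w0) + 4 * k).toNat with hx
  have hx8 : x < 8 * k := by omega
  have hj : x / (2 * k) < 4 := by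
    rw [Nat.div_lt_iff_lt_mul (by omega)]
    omega
  have hj1 : 2 * k * (x / (2 * k)) ≤ x := Nat.mul_div_le x (2 * k)
  have hj2 : x < 2 * k * (x / (2 * k)) + 2 * k := by
    have := Nat.lt_mul_div_succ x (show 0 < 2 * k by omega)
    rw [Nat.mul_add, mul_one] at this
    exact this
  refine ⟨(d, ⟨x / (2 * k), hj⟩, ⟨r, hr2⟩), mem_univ _, ?_⟩
  unfold Ev Ann32.ArmW
  have hv0 : vm kv d k w0 = (x, k) := by
    unfold vm
    rw [Prod.mk.injEq]
    exact ⟨rfl, by omega⟩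
  refine ⟨x, vm kv d k w1, hj1, hj2.le, ?_, ?_, Or.inl ?_⟩
  · simp only
    omega
  · rw [hv0] at g3
    exact g3
  · unfold vm
    simp only
    omega

/-- **one scale** -/
theorem Charts.scale_le {θ : ℝ} (h1 : θ ≤ 1) (hθ : ∀ (r y0 y1 x0 x1 : ℕ) (F : Finset (ℕ × ℕ)), r < 2 →
      y0 < y1 → x1 + y0 ≤ x0 + y1 → (∀ p ∈ F, y0 ≤ p.1 ∧ p.1 < y1) →
      P F (Ann32.ArmW r x0 x1 y0 y1) ≤ θ)
    (H : Charts K a b sm pos kt kv m) {k : ℕ} (hk : m < k) :
    P K (fun S => ∃ i ∈ (univ : Finset (Dir × Fin 4 × Fin 2)), Ev K a b pos kt kv k i S) ≤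
      1 - (1 - θ) ^ 32 := by
  classical
  have h2 := P_ex_le K (univ : Finset (Dir × Fin 4 × Fin 2)) (Ev K a b pos kt kv k)
    (fun i _ => up_Ev k i) h1 (fun i _ => H.ev_le hθ hk i)
  have h3 : (univ : Finset (Dir × Fin 4 × Fin 2)).card = 32 := by decide
  rwa [h3] at h2

/-- **many scales** -/
theorem Charts.scales_le {θ : ℝ} (h0 : 0 ≤ θ) (h1 : θ ≤ 1) (hθ : ∀ (r y0 y1 x0 x1 : ℕ) (F : Finset (ℕ × ℕ)),
      r < 2 → y0 < y1 → x1 + y0 ≤ x0 + y1 → (∀ p ∈ F, y0 ≤ p.1 ∧ p.1 < y1) →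
      P F (Ann32.ArmW r x0 x1 y0 y1) ≤ θ)
    (H : Charts K a b sm pos kt kv m) {k : ℕ} (hk : m < k) (J : ℕ) :
    P K (fun S => ∀ j < J, ∃ i ∈ (univ : Finset (Dir × Fin 4 × Fin 2)),
      Ev K a b pos kt kv (4 ^ j * k) i S) ≤ (1 - (1 - θ) ^ 32) ^ J := by
  classical
  have hq : 0 ≤ 1 - (1 - θ) ^ 32 := by
    have := pow_le_one₀ (n := 32) (show 0 ≤ 1 - θ by linarith) (by linarith)
    linarith
  induction J with
  | zero => simpa using P_le_one K _
  | succ J ih =>
    have hkJ : m < 4 ^ J * k := lt_of_lt_of_le hk (Nat.le_mul_of_pos_left k (by positivity))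
    set G := K.filter fun t => nrm (pos (a t)) < ((4 ^ J * k : ℕ) : ℤ) with hG
    set G' := K.filter fun t => ¬ nrm (pos (a t)) < ((4 ^ J * k : ℕ) : ℤ) with hG'
    have hdis : Disjoint G G' := disjoint_filter_filter_not K K _
    have hd1 : Dep G (fun S => ∀ j < J, ∃ i ∈ (univ : Finset (Dir × Fin 4 × Fin 2)),
        Ev K a b pos kt kv (4 ^ j * k) i S) := by
      intro S
      refine forall_congr' fun j => forall_congr' fun hj => exists_congr fun i =>
        and_congr_right fun _ => ?_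
      refine (dep_Ev (4 ^ j * k) i).mono ?_ S
      intro t ht
      obtain ⟨g1, g2, g3⟩ := mem_filter.1 ht
      have h4 : 4 * (4 ^ j * k) ≤ 4 ^ J * k := by
        rw [← mul_assoc, ← pow_succ']
        exact Nat.mul_le_mul_right k (Nat.pow_le_pow_right (by norm_num) hj)
      have h5 : 1 ≤ 4 ^ j * k := Nat.mul_pos (by positivity) (by omega)
      have h6 : 4 * ((4 ^ j * k : ℕ) : ℤ) ≤ ((4 ^ J * k : ℕ) : ℤ) := by exact_mod_cast h4
      have h7 : (1 : ℤ) ≤ ((4 ^ j * k : ℕ) : ℤ) := by exact_mod_cast h5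
      exact mem_filter.2 ⟨g1, by omega⟩
    have hd2 : Dep G' (fun S => ∃ i ∈ (univ : Finset (Dir × Fin 4 × Fin 2)),
        Ev K a b pos kt kv (4 ^ J * k) i S) := by
      intro S
      refine exists_congr fun i => and_congr_right fun _ => ?_
      refine (dep_Ev (4 ^ J * k) i).mono ?_ S
      intro t ht
      obtain ⟨g1, g2, g3⟩ := mem_filter.1 ht
      exact mem_filter.2 ⟨g1, not_lt.2 g2⟩
    have e := P_indep (F := K) (filter_subset _ _) (filter_subset _ _) hdis hd1 hd2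
    have e1 : P K (fun S => ∀ j < J + 1, ∃ i ∈ (univ : Finset (Dir × Fin 4 × Fin 2)),
        Ev K a b pos kt kv (4 ^ j * k) i S) =
        P K (fun S => (∀ j < J, ∃ i ∈ (univ : Finset (Dir × Fin 4 × Fin 2)),
          Ev K a b pos kt kv (4 ^ j * k) i S) ∧ ∃ i ∈ (univ : Finset (Dir × Fin 4 × Fin 2)),
          Ev K a b pos kt kv (4 ^ J * k) i S) := by
      refine P_congr fun S _ => ⟨fun h => ⟨fun j hj => h j (by omega), h J (by omega)⟩, ?_⟩
      rintro ⟨h1, h2⟩ j hj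
      rcases Nat.lt_succ_iff_lt_or_eq.1 hj with h3 | h3
      · exact h1 j h3
      · rw [h3]; exact h2
    rw [e1, e, pow_succ]
    exact mul_le_mul ih (H.scale_le h1 hθ hkJ) (P_nonneg _ _) (pow_nonneg hq _)

end charts

/-- **(ARM)**: the one arm bound in abstract charts, with universal constants -/
theorem arm_le : ∃ C c : ℝ, 0 < C ∧ 0 < c ∧ ∀ (τ V : Type) (_ : DecidableEq τ) (K : Finset τ)
    (a b : τ → V) (sm : V → V → Prop) (pos : V → ℤ × ℤ) (kt : Dir → τ → ℤ × ℤ) (kv : Dir → V → ℤ × ℤ)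
    (m r R : ℕ), Charts K a b sm pos kt kv m → 1 ≤ r → m ≤ r → r ≤ R →
    P K (fun S => ∃ u v, nrm (pos u) ≤ r ∧ R ≤ nrm (pos v) ∧ ReflTransGen (St a b sm S) u v) ≤
      C * ((r : ℝ) / R) ^ c := by
  obtain ⟨θ0, h00, h01, hθ0⟩ := Ann32.armW_le
  set θ := max θ0 (1 / 2) with hθd
  have h1 : θ < 1 := max_lt h01 (by norm_num)
  have h0 : 1 / 2 ≤ θ := le_max_right _ _
  have hθ : ∀ (r y0 y1 x0 x1 : ℕ) (F : Finset (ℕ × ℕ)), r < 2 → y0 < y1 → x1 + y0 ≤ x0 + y1 →
      (∀ p ∈ F, y0 ≤ p.1 ∧ p.1 < y1) → P F (Ann32.ArmW r x0 x1 y0 y1) ≤ θ :=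
    fun r y0 y1 x0 x1 F g1 g2 g3 g4 => (hθ0 r y0 y1 x0 x1 F g1 g2 g3 g4).trans (le_max_left _ _)
  set q := 1 - (1 - θ) ^ 32 with hq
  have hq1 : q < 1 := by
    have : 0 < (1 - θ) ^ 32 := pow_pos (by linarith) _
    linarith
  have hq0 : 0 < q := by
    have : (1 - θ) ^ 32 < 1 := pow_lt_one₀ (by linarith) (by linarith) (by norm_num)
    linarith
  have hlog4 : 0 < Real.log 4 := Real.log_pos (by norm_num)
  have hlogq : Real.log q < 0 := Real.log_neg hq0 hq1
  set c : ℝ := -Real.log q / Real.log 4 with hc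
  have hc0 : 0 < c := div_pos (by linarith) hlog4
  have h4c : q = (4 : ℝ) ^ (-c) := by
    rw [Real.rpow_def_of_pos (by norm_num), hc]
    rw [show Real.log 4 * -(-Real.log q / Real.log 4) = Real.log q by field_simp]
    rw [Real.exp_log hq0]
  refine ⟨6 ^ c, c, by positivity, hc0, ?_⟩
  intro τ V _ K a b sm pos kt kv m r R H hr hmr hrR
  have hex : ∃ J : ℕ, R < 3 * (4 ^ J * (2 * r)) := by
    obtain ⟨J, hJ⟩ := pow_unbounded_of_one_lt R (show 1 < 4 by norm_num)
    refine ⟨J, hJ.trans_le ?_⟩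
    nlinarith [Nat.zero_le (4 ^ J), Nat.mul_le_mul_left (4 ^ J) hr]
  classical
  set J := Nat.find hex with hJdef
  have hJ1 : R < 3 * (4 ^ J * (2 * r)) := Nat.find_spec hex
  have hJ2 : ∀ j < J, 3 * (4 ^ j * (2 * r)) ≤ R := fun j hj => not_lt.1 (Nat.find_min hex hj)
  have hR0 : (0 : ℝ) < R := by exact_mod_cast (lt_of_lt_of_le hr hrR)
  have hr0 : (0 : ℝ) < r := by exact_mod_cast hr
  have h2 : P K (fun S => ∃ u v, nrm (pos u) ≤ r ∧ R ≤ nrm (pos v) ∧ ReflTransGen (St a b sm S) u v) ≤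
      P K (fun S => ∀ j < J, ∃ i ∈ (univ : Finset (Dir × Fin 4 × Fin 2)),
        Ev K a b pos kt kv (4 ^ j * (2 * r)) i S) := by
    refine P_mono fun S hS ⟨u, v, hu, hv, huv⟩ j hj => ?_
    have h3 := hJ2 j hj
    have h4 : 2 * r ≤ 4 ^ j * (2 * r) := Nat.le_mul_of_pos_left _ (by positivity)
    refine H.ex_ev hS (by omega) ?_ ?_ huv
    · refine hu.trans ?_
      exact_mod_cast (show r ≤ 4 ^ j * (2 * r) by omega)
    · refine le_trans ?_ hv
      exact_mod_cast h3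
  refine (h2.trans (H.scales_le (by linarith) h1.le hθ (k := 2 * r) (by omega) J)).trans ?_
  rw [← hq, h4c, ← Real.rpow_natCast, ← Real.rpow_mul (by norm_num), ← Real.mul_rpow (by norm_num)
    (by positivity)]
  have h5 : (4 : ℝ) ^ (-c * (J : ℝ)) = (((4 : ℝ) ^ J)⁻¹) ^ c := by
    rw [← Real.rpow_natCast 4 J, ← Real.rpow_neg (by norm_num), ← Real.rpow_mul (by norm_num)]
    congr 1
    ring
  rw [h5]
  refine Real.rpow_le_rpow (by positivity) ?_ hc0.le
  rw [inv_le_comm₀ (by positivity) (by positivity)]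
  have h6 : (R : ℝ) < 3 * (4 ^ J * (2 * r)) := by exact_mod_cast hJ1
  rw [mul_div_assoc', inv_div, div_le_iff₀ (by positivity)]
  linarith

end Full.P5
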