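import Pool.Agent.Full.P5.Arm
import Pool.Agent.Full.Geo.Slab

/-!
# Charts of the domain with an interior end

`zpos x y` is the position of a corner of the two-sheet domain relative to the end `z = (x, y)`; in the lower
sheet the column `x` is collapsed.  The four charts of `Charts` are the sheets themselves; in the direction `E`
the lower sheet is shifted by one.
-/

set_option autoImplicit false

namespace Full.P5
open Function Relation

/-- the tail of a side of a unit square, relative to its lower left corner -/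
def off : Dir → ℤ × ℤ
  | .E => (1, 0) | .N => (1, 1) | .W => (0, 1) | .S => (0, 0)

/-- the tile in the chart of the direction `d` -/
def zkt (x y : ℤ) (d : Dir) : ZT → ℤ × ℤ
  | .inl t => (t.1 - x - (if d = .E then 1 else 0), t.2 - y)
  | .inr t => (t.1 - x, t.2 - y)

/-- the corner in the chart of the direction `d` -/
def zkv (x y : ℤ) (d : Dir) (u : Half ZT) : ℤ × ℤ :=
  ((zkt x y d u.1).1 + (off u.2).1, (zkt x y d u.1).2 + (off u.2).2)

/-- collapse the column `x` -/
def clps (x i : ℤ) : ℤ := if x + 1 ≤ i then i - 1 - x else i - x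

/-- position of a corner relative to `z` -/
def zpos (x y : ℤ) : Half ZT → ℤ × ℤ
  | (.inl t, d) => (clps x (t.1 + (off d).1), t.2 + (off d).2 - y)
  | (.inr t, d) => (t.1 + (off d).1 - x, t.2 + (off d).2 - y)

variable {x y : ℤ}

lemma clps_cases (x i : ℤ) : (x + 1 ≤ i ∧ clps x i = i - 1 - x) ∨ (i ≤ x ∧ clps x i = i - x) := by
  unfold clps
  split_ifs with h
  · exact Or.inl ⟨h, rfl⟩
  · exact Or.inr ⟨by omega, rfl⟩

lemma off_cases (d : Dir) : 0 ≤ (off d).1 ∧ (off d).1 ≤ 1 ∧ 0 ≤ (off d).2 ∧ (off d).2 ≤ 1 := by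
  cases d <;> simp [off]

@[simp] lemma zpos_low (t : ℤ × ℤ) (d : Dir) :
    zpos x y (.inl t, d) = (clps x (t.1 + (off d).1), t.2 + (off d).2 - y) := rfl
@[simp] lemma zpos_up (t : ℤ × ℤ) (d : Dir) :
    zpos x y (.inr t, d) = (t.1 + (off d).1 - x, t.2 + (off d).2 - y) := rfl

/-- two corners of the same tile -/
theorem zpos_step (t : ZT) (d d' : Dir) : |(zpos x y (t, d)).1 - (zpos x y (t, d')).1| ≤ 1 ∧
    |(zpos x y (t, d)).2 - (zpos x y (t, d')).2| ≤ 1 := by
  have h1 := off_cases d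
  have h2 := off_cases d'
  rw [abs_le, abs_le]
  rcases t with t | t
  · have h3 := clps_cases x (t.1 + (off d).1)
    have h4 := clps_cases x (t.1 + (off d').1)
    simp only [zpos_low]
    omega
  · simp only [zpos_up]
    omega

/-- positions in the charts -/
theorem zkv_pos (d : Dir) (u : Half ZT) (h : 1 < co d (zpos x y u)) :
    co d (zkv x y d u) = co d (zpos x y u) ∧ |oth d (zkv x y d u) - oth d (zpos x y u)| ≤ 1 := by
  rw [abs_le]
  obtain ⟨t | t, e⟩ := u
  · have h3 := clps_cases x (t.1 + (off e).1)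
    cases d <;> simp only [zpos_low, zkv, zkt, co, oth, reduceCtorEq, if_true, if_false] at h ⊢ <;> omega
  · cases d <;> simp only [zpos_up, zkv, zkt, co, oth, reduceCtorEq, if_true, if_false] at h ⊢ <;> omega

/-- the neighbours of the surface -/
lemma nb_cases {l r : ℤ} {d : Dir} {c c' : ZT} (h : c' ∈ (zsurf l r x y y y).nb d c) :
    (∃ q : ℤ × ℤ, (c = .inl q ∧ c' = .inl (q + d.vec)) ∨ (c = .inr q ∧ c' = .inr (q + d.vec))) ∨
    (∃ i, (i < x ∧ ((d = .N ∧ c = .inl (i, y - 1) ∧ c' = .inr (i, y)) ∨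
      (d = .S ∧ c' = .inl (i, y - 1) ∧ c = .inr (i, y)))) ∨
      (x ≤ i ∧ ((d = .N ∧ c = .inl (i + 1, y - 1) ∧ c' = .inr (i, y)) ∨
      (d = .S ∧ c' = .inl (i + 1, y - 1) ∧ c = .inr (i, y))))) := by
  have e0 : ∀ j : ℤ, ¬ (y ≤ j ∧ j < y) := fun j => by omega
  rcases c with ⟨i, j⟩ | ⟨i, j⟩ <;> cases d
  · rw [zs_E_low_open (e0 j), Option.mem_some] at h
    exact Or.inl ⟨(i, j), Or.inl ⟨rfl, by rw [← h]; simp [Dir.vec]⟩⟩
  · by_cases h1 : j = y - 1 ∧ l ≤ i ∧ i ≤ r
    · obtain ⟨rfl, h2, h3⟩ := h1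
      rcases lt_trichotomy i x with h4 | h4 | h4
      · by_cases h5 : i < r
        · rw [zs_N_left h2 h4 h5, Option.mem_some] at h
          exact Or.inr ⟨i, Or.inl ⟨h4, Or.inl ⟨rfl, rfl, h.symm⟩⟩⟩
        · exfalso
          have h6 : (zsurf l r x y y y).nb .N (.inl (i, y - 1)) = none := by
            show (if y - 1 = y - 1 ∧ l ≤ i ∧ i ≤ r then (if i < x ∧ i < r then some (Sum.inr (i, y)) else
              if x < i ∧ l < i then some (Sum.inr (i - 1, y)) else none) else
              some (Sum.inl (i, y - 1 + 1))) = none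
            rw [if_pos ⟨rfl, h2, h3⟩, if_neg (by omega), if_neg (by omega)]
          rw [h6] at h
          cases h
      · subst h4
        rw [zs_N_z h2 h3] at h
        cases h
      · by_cases h5 : l < i
        · rw [zs_N_right h5 h4 h3, Option.mem_some] at h
          refine Or.inr ⟨i - 1, Or.inr ⟨by omega, Or.inl ⟨rfl, by rw [sub_add_cancel], h.symm⟩⟩⟩
        · exfalso
          have h6 : (zsurf l r x y y y).nb .N (.inl (i, y - 1)) = none := by
            show (if y - 1 = y - 1 ∧ l ≤ i ∧ i ≤ r then (if i < x ∧ i < r then some (Sum.inr (i, y)) else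
              if x < i ∧ l < i then some (Sum.inr (i - 1, y)) else none) else
              some (Sum.inl (i, y - 1 + 1))) = none
            rw [if_pos ⟨rfl, h2, h3⟩, if_neg (by omega), if_neg (by omega)]
          rw [h6] at h
          cases h
    · rw [zs_N_low h1, Option.mem_some] at h
      exact Or.inl ⟨(i, j), Or.inl ⟨rfl, by rw [← h]; simp [Dir.vec]⟩⟩
  · have h1 : (zsurf l r x y y y).nb .W (.inl (i, j)) = some (.inl (i - 1, j)) := by
      show (if y ≤ j ∧ j < y then _ else some (Sum.inl (i - 1, j))) = _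
      rw [if_neg (e0 j)]
    rw [h1, Option.mem_some] at h
    exact Or.inl ⟨(i, j), Or.inl ⟨rfl, by rw [← h]; simp [Dir.vec, sub_eq_add_neg]⟩⟩
  · by_cases h1 : j = y ∧ l ≤ i ∧ i ≤ r
    · exfalso
      have h2 : (zsurf l r x y y y).nb .S (.inl (i, j)) = none := by
        show (if j = y ∧ l ≤ i ∧ i ≤ r then none else some (Sum.inl (i, j - 1))) = none
        rw [if_pos h1]
      rw [h2] at h
      cases h
    · rw [zs_S_low h1, Option.mem_some] at h
      exact Or.inl ⟨(i, j), Or.inl ⟨rfl, by rw [← h]; simp [Dir.vec, sub_eq_add_neg]⟩⟩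
  · rw [zs_E_up_open (e0 j), Option.mem_some] at h
    exact Or.inl ⟨(i, j), Or.inr ⟨rfl, by rw [← h]; simp [Dir.vec]⟩⟩
  · by_cases h1 : j = y - 1 ∧ l ≤ i ∧ i < r
    · rw [zs_N_up_none h1] at h
      cases h
    · rw [zs_N_up h1, Option.mem_some] at h
      exact Or.inl ⟨(i, j), Or.inr ⟨rfl, by rw [← h]; simp [Dir.vec]⟩⟩
  · have h1 : (zsurf l r x y y y).nb .W (.inr (i, j)) = some (.inr (i - 1, j)) := by
      show (if y ≤ j ∧ j < y then _ else some (Sum.inr (i - 1, j))) = _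
      rw [if_neg (e0 j)]
    rw [h1, Option.mem_some] at h
    exact Or.inl ⟨(i, j), Or.inr ⟨rfl, by rw [← h]; simp [Dir.vec, sub_eq_add_neg]⟩⟩
  · by_cases h1 : j = y ∧ l ≤ i ∧ i < r
    · obtain ⟨rfl, h2, h3⟩ := h1
      rcases lt_or_ge i x with h4 | h4
      · rw [zs_S_left h2 h3 h4, Option.mem_some] at h
        exact Or.inr ⟨i, Or.inl ⟨h4, Or.inr ⟨rfl, h.symm, rfl⟩⟩⟩
      · rw [zs_S_right h2 h3 h4, Option.mem_some] at h
        exact Or.inr ⟨i, Or.inr ⟨h4, Or.inr ⟨rfl, h.symm, rfl⟩⟩⟩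
    · rw [zs_S_up h1, Option.mem_some] at h
      exact Or.inl ⟨(i, j), Or.inr ⟨rfl, by rw [← h]; simp [Dir.vec, sub_eq_add_neg]⟩⟩

lemma off_vec (d : Dir) : d.vec + off d.cw = off d := by
  cases d <;> simp [Dir.vec, off, Dir.cw]

lemma off_vec1 (d : Dir) : d.vec.1 + (off d.cw).1 = (off d).1 := congrArg Prod.fst (off_vec d)
lemma off_vec2 (d : Dir) : d.vec.2 + (off d.cw).2 = (off d).2 := congrArg Prod.snd (off_vec d)

/-- the corner seen from the neighbour -/
lemma zpos_nb {l r : ℤ} {d : Dir} {c c' : ZT} (h : c' ∈ (zsurf l r x y y y).nb d c) :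
    zpos x y (c', d.cw) = zpos x y (c, d) := by
  rcases nb_cases h with ⟨q, ⟨rfl, rfl⟩ | ⟨rfl, rfl⟩⟩ |
      ⟨i, ⟨hi, ⟨rfl, rfl, rfl⟩ | ⟨rfl, rfl, rfl⟩⟩ | ⟨hi, ⟨rfl, rfl, rfl⟩ | ⟨rfl, rfl, rfl⟩⟩⟩
  · rw [zpos_low, zpos_low, Prod.fst_add, Prod.snd_add, add_assoc, add_assoc, off_vec1, off_vec2]
  · rw [zpos_up, zpos_up, Prod.fst_add, Prod.snd_add, add_assoc, add_assoc, off_vec1, off_vec2]
  · have h3 := clps_cases x (i + 1)
    simp only [zpos_low, zpos_up, off, Dir.cw, Prod.mk.injEq]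
    omega
  · have h3 := clps_cases x (i + 0)
    simp only [zpos_low, zpos_up, off, Dir.cw, Prod.mk.injEq]
    omega
  · have h3 := clps_cases x (i + 1 + 1)
    simp only [zpos_low, zpos_up, off, Dir.cw, Prod.mk.injEq]
    omega
  · have h3 := clps_cases x (i + 1 + 0)
    simp only [zpos_low, zpos_up, off, Dir.cw, Prod.mk.injEq]
    omega

lemma zkv_nb {l r : ℤ} {d : Dir} {c c' : ZT} (h : c' ∈ (zsurf l r x y y y).nb d c) (e : Dir)
    (he : 0 < co e (zpos x y (c, d))) : zkv x y e (c', d.cw) = zkv x y e (c, d) := by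
  rcases nb_cases h with ⟨q, ⟨rfl, rfl⟩ | ⟨rfl, rfl⟩⟩ |
      ⟨i, ⟨hi, ⟨rfl, rfl, rfl⟩ | ⟨rfl, rfl, rfl⟩⟩ | ⟨hi, ⟨rfl, rfl, rfl⟩ | ⟨rfl, rfl, rfl⟩⟩⟩
  · have h1 := off_vec1 d
    have h2 := off_vec2 d
    unfold zkv zkt
    simp only [Prod.fst_add, Prod.snd_add, Prod.mk.injEq]
    omega
  · have h1 := off_vec1 d
    have h2 := off_vec2 d
    unfold zkv zkt
    simp only [Prod.fst_add, Prod.snd_add, Prod.mk.injEq]
    omega
  all_goals
    first
    | have h3 := clps_cases x (i + 1)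
      cases e <;> simp only [zpos_low, zpos_up, zkv, zkt, off, Dir.cw, co, Prod.mk.injEq, reduceCtorEq,
        if_true, if_false] at he ⊢ <;> omega
    | have h3 := clps_cases x (i + 0)
      cases e <;> simp only [zpos_low, zpos_up, zkv, zkt, off, Dir.cw, co, Prod.mk.injEq, reduceCtorEq,
        if_true, if_false] at he ⊢ <;> omega
    | have h3 := clps_cases x (i + 1 + 1)
      cases e <;> simp only [zpos_low, zpos_up, zkv, zkt, off, Dir.cw, co, Prod.mk.injEq, reduceCtorEq,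
        if_true, if_false] at he ⊢ <;> omega
    | have h3 := clps_cases x (i + 1 + 0)
      cases e <;> simp only [zpos_low, zpos_up, zkv, zkt, off, Dir.cw, co, Prod.mk.injEq, reduceCtorEq,
        if_true, if_false] at he ⊢ <;> omega

/-- **(V)** the corners of a glued side -/
theorem zpos_rot {l r : ℤ} {T : Finset ZT} {u : Half ZT} (h : (zsurf l r x y y y).glue T u ≠ u) :
    zpos x y (rho ((zsurf l r x y y y).glue T u)) = zpos x y u ∧
      ∀ e, 0 < co e (zpos x y u) → zkv x y e (rho ((zsurf l r x y y y).glue T u)) = zkv x y e u := by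
  rcases (zsurf l r x y y y).glue_cases (T := T) u with h1 | ⟨t', h1, -, -, h4⟩
  · exact absurd h1 h
  · rw [h4]
    unfold rho
    simp only [Dir.ccw_opp]
    exact ⟨zpos_nb h1, fun e he => zkv_nb h1 e he⟩

/-- corners with the same position in all charts -/
def ZSm (x y : ℤ) (u v : Half ZT) : Prop :=
  zpos x y u = zpos x y v ∧ ∀ e, 0 < co e (zpos x y u) → zkv x y e u = zkv x y e v

lemma ZSm.refl (u : Half ZT) : ZSm x y u u := ⟨rfl, fun _ _ => rfl⟩

lemma ZSm.symm {u v : Half ZT} (h : ZSm x y u v) : ZSm x y v u :=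
  ⟨h.1.symm, fun e he => (h.2 e (by rw [h.1]; exact he)).symm⟩

lemma ZSm.trans {u v w : Half ZT} (h : ZSm x y u v) (h' : ZSm x y v w) : ZSm x y u w :=
  ⟨h.1.trans h'.1, fun e he => (h.2 e he).trans (h'.2 e (by rw [← h.1]; exact he))⟩

section shape
open Full.Shape
variable {S : Shape} {n : ℕ} {s : S.Q × Bool → ℕ}

lemma mem_zT_low {q : S.Q} {t : ℤ × ℤ} : (Sum.inl t : ZT) ∈ S.zT n s q y ↔
    t ∈ S.side n s q false ∨ ((S.fl n s q ≤ t.1 ∧ t.1 ≤ S.fr n s q) ∧ S.fb n q ≤ t.2 ∧ t.2 < y) := by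
  obtain ⟨i, j⟩ := t
  unfold zT
  rw [Finset.inl_mem_disjSum, Finset.mem_union, mem_box, Int.lt_add_one_iff]

lemma mem_zT_up {q : S.Q} {t : ℤ × ℤ} : (Sum.inr t : ZT) ∈ S.zT n s q y ↔
    t ∈ S.side n s q true ∨ ((S.fl n s q ≤ t.1 ∧ t.1 < S.fr n s q) ∧ y ≤ t.2 ∧ t.2 < S.ft n q) := by
  obtain ⟨i, j⟩ := t
  unfold zT
  rw [Finset.inr_mem_disjSum, Finset.mem_union, mem_box]

/-- **(V)** for the domain with the end `z` -/
theorem zsm_rot {q : S.Q} {u : Half ZT} (h : S.zg n s q x y u ≠ u) : ZSm x y (rho (S.zg n s q x y u)) u := by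
  have h1 := zpos_rot h
  exact ⟨h1.1, fun e he => h1.2 e (by rw [← h1.1]; exact he)⟩

/-- the two sheets never overlap, even after a shift by one -/
theorem zkt_inj (hS : S.Ok) (hs : S.Small2 n s) (hd : S.Tree) {q : S.Q} (h1 : S.fb n q ≤ y) (h2 : y ≤ S.ft n q)
    (d : Dir) {c c' : ZT} (hc : c ∈ S.zT n s q y) (hc' : c' ∈ S.zT n s q y) (h : zkt x y d c = zkt x y d c') :
    c = c' := by
  have key : ∀ t u : ℤ × ℤ, (Sum.inl t : ZT) ∈ S.zT n s q y → (Sum.inr u : ZT) ∈ S.zT n s q y →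
      t.2 = u.2 → t.1 - u.1 = 0 ∨ t.1 - u.1 = 1 → False := by
    rintro ⟨i, j⟩ ⟨k, l⟩ ht hu e1 e2
    rw [mem_zT_low] at ht
    rw [mem_zT_up] at hu
    simp only at ht hu e1 e2
    subst e1
    rcases ht with ht | ht <;> rcases hu with hu | hu
    · obtain ⟨p, hp, ht⟩ := mem_side.1 ht
      obtain ⟨p', hp', hu⟩ := mem_side.1 hu
      rcases nb_room' hS hs ht hu (by simp only; omega) (by simp only; omega) (by simp only; omega)
        (by simp only; omega) with rfl | h | h
      · exact Set.disjoint_left.1 (hd q) hp hp'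
      · exact Set.disjoint_left.1 (hd q) (part_step hp (by rintro rfl; exact not_mem_part _ _ hp') (Or.inl h)) hp'
      · exact Set.disjoint_left.1 (hd q) (part_step hp (by rintro rfl; exact not_mem_part _ _ hp') (Or.inr h)) hp'
    · exact slab_hL hS hs hd q i j (by omega) (by omega) (by omega) (by omega) ht
    · exact slab_hU hS hs hd q k j (by omega) (by omega) (by omega) (by omega) hu
    · omega
  rcases c with t | t <;> rcases c' with u | u
  · unfold zkt at h
    rw [Prod.mk.injEq] at h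
    congr 1
    ext <;> omega
  · exfalso
    unfold zkt at h
    rw [Prod.mk.injEq] at h
    refine key t u hc hc' (by omega) ?_
    split_ifs at h <;> omega
  · exfalso
    unfold zkt at h
    rw [Prod.mk.injEq] at h
    refine key u t hc' hc (by omega) ?_
    split_ifs at h <;> omega
  · unfold zkt at h
    rw [Prod.mk.injEq] at h
    congr 1
    ext <;> omega

/-- **the charts of the domain with the end `z`**: in every tile the good diagonal joins the tails of two
opposite sides `d1 t` and `(d1 t).opp` -/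
theorem zcharts (hS : S.Ok) (hs : S.Small2 n s) (hd : S.Tree) {q : S.Q} (h1 : S.fb n q ≤ y) (h2 : y ≤ S.ft n q)
    {K : Finset ZT} (hK : K ⊆ S.zT n s q y) {sm : Half ZT → Half ZT → Prop} (hsm : ∀ u v, sm u v → ZSm x y u v)
    (d1 : ZT → Dir) :
    Charts K (fun t => (t, d1 t)) (fun t => (t, (d1 t).opp)) sm (zpos x y) (zkt x y) (zkv x y) 1 where
  sm_pos u v h := (hsm u v h).1
  near t _ := zpos_step t _ _
  kv_pos d v h := by
    obtain ⟨h1, h2⟩ := zkv_pos d v (by exact_mod_cast h)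
    exact ⟨h1, by exact_mod_cast h2⟩
  kv_sm d u v h h' := (hsm u v h).2 d (by push_cast at h'; omega)
  opp d t _ _ _ := by
    unfold zkv
    simp only
    generalize zkt x y d t = k
    generalize d1 t = e
    unfold Opp
    cases e <;> simp [off, Dir.opp]
  inj d t ht t' ht' _ _ _ _ h := zkt_inj hS hs hd h1 h2 d (hK ht) (hK ht') h

end shape

end Full.P5
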