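import Pool.Agent.Full.P5.Arcs
import Pool.Agent.Full.P5.ZChart

/-!
# The exit near an arc

If `z` is close to the arc with the label `j`, and the arc `i ≠ j` is far, then the strand of `z` ends at the
mark `e j` (opposite to the arc `j`) only with small probability; the same for two regions which agree
outside a small set: the exits are different only with small probability.
-/

set_option autoImplicit false
set_option linter.unusedSectionVars false

namespace Full.P5
open Function Relation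
open Pool.Agent.Helper69.RSW (P P_mono P_congr P_restrict Dep P_nonneg P_le_one P_or_le)

/-! ### good sets -/

section good
variable {E : Type*} [DecidableEq E]

open Classical in
/-- the tiles of `K` whose bit is `q` -/
noncomputable def good (K : Finset E) (q : E → Prop) (ω : Finset E) : Finset E := K.filter fun t => t ∈ ω ↔ q t

lemma mem_good {K : Finset E} {q : E → Prop} {ω : Finset E} {t : E} :
    t ∈ good K q ω ↔ t ∈ K ∧ (t ∈ ω ↔ q t) := by
  classical
  unfold good
  exact Finset.mem_filter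

lemma P_good {T K : Finset E} (hK : K ⊆ T) (q : E → Prop) (A : Finset E → Prop) :
    P T (fun ω => A (good K q ω)) = P K A := by
  classical
  have hdep : Dep K (fun ω => A (good K q ω)) := by
    intro S
    have h1 : good K q (S ∩ K) = good K q S := by
      ext t
      rw [mem_good, mem_good, Finset.mem_inter]
      tauto
    simp only [h1]
  rw [P_restrict hK hdep]
  have hinv : ∀ ω, ω ⊆ K → good K q (good K q ω) = ω := by
    intro ω hω
    ext t
    rw [mem_good, mem_good]
    constructor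
    · rintro ⟨h1, h2⟩
      by_contra h3
      by_cases h4 : q t
      · exact h3 ((h2.2 h4).2.2 h4)
      · exact h4 (h2.1 ⟨h1, fun h => absurd h h3, fun h => absurd h h4⟩)
    · intro h
      exact ⟨hω h, fun h1 => h1.2.1 h, fun h1 => ⟨hω h, fun _ => h1, fun _ => h⟩⟩
  have hsub : ∀ ω, good K q ω ⊆ K := fun ω t ht => (mem_good.1 ht).1
  unfold P
  congr 2
  apply Finset.card_nbij' (i := fun S => good K q S) (j := fun S => good K q S)
  · intro S h
    simp only [Finset.mem_coe, Finset.mem_filter, Finset.mem_powerset] at h ⊢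
    exact ⟨hsub S, h.2⟩
  · intro S h
    simp only [Finset.mem_coe, Finset.mem_filter, Finset.mem_powerset] at h ⊢
    refine ⟨hsub S, ?_⟩
    rw [hinv S h.1]
    exact h.2
  · intro S h
    simp only [Finset.mem_coe, Finset.mem_filter, Finset.mem_powerset] at h
    exact hinv S h.1
  · intro S h
    simp only [Finset.mem_coe, Finset.mem_filter, Finset.mem_powerset] at h
    exact hinv S h.1

end good

/-! ### positions -/

section pos
variable {τ : Type}

/-- the tail of a half edge in the chart `d` -/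
def kv (kt : Dir → τ → ℤ × ℤ) (d : Dir) (x : Half τ) : ℤ × ℤ :=
  ((kt d x.1).1 + (off x.2).1, (kt d x.1).2 + (off x.2).2)

/-- positions of the corners relative to a centre, and the four charts of the region outside the ball of
size `m` -/
structure Pos (T : Finset τ) (g : Half τ → Half τ) (pos : Half τ → ℤ × ℤ) (kt : Dir → τ → ℤ × ℤ) (m : ℕ) :
    Prop where
  same : ∀ x : Half τ, x.1 ∈ T → g x ≠ x → pos (rho (g x)) = pos x ∧
    ∀ d, (m : ℤ) < co d (pos x) → kv kt d (rho (g x)) = kv kt d x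
  co : ∀ (d : Dir) (x : Half τ), x.1 ∈ T → (m : ℤ) < co d (pos x) → co d (kv kt d x) = co d (pos x) ∧
    |oth d (kv kt d x) - oth d (pos x)| ≤ m
  inj : ∀ d : Dir, ∀ t ∈ T, ∀ t' ∈ T, kt d t = kt d t' → t = t'
  step : ∀ x y : Half τ, x.1 ∈ T → x.1 = y.1 → |(pos x).1 - (pos y).1| ≤ 1 ∧ |(pos x).2 - (pos y).2| ≤ 1

/-- the same corner, for the positions and the charts -/
def Sm (T : Finset τ) (pos : Half τ → ℤ × ℤ) (kt : Dir → τ → ℤ × ℤ) (m : ℕ) (x y : Half τ) : Prop :=
  x.1 ∈ T ∧ y.1 ∈ T ∧ pos x = pos y ∧ ∀ d, (m : ℤ) < Full.P5.co d (pos x) → kv kt d x = kv kt d y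

variable {T : Finset τ} {g w : Half τ → Half τ} {pos : Half τ → ℤ × ℤ} {kt : Dir → τ → ℤ × ℤ} {m : ℕ}

lemma Sm.refl {x : Half τ} (hx : x.1 ∈ T) : Sm T pos kt m x x := ⟨hx, hx, rfl, fun _ _ => rfl⟩

lemma Sm.symm {x y : Half τ} (h : Sm T pos kt m x y) : Sm T pos kt m y x :=
  ⟨h.2.1, h.1, h.2.2.1.symm, fun d hd => (h.2.2.2 d (by rw [h.2.2.1]; exact hd)).symm⟩

lemma Sm.trans {x y v : Half τ} (h : Sm T pos kt m x y) (h' : Sm T pos kt m y v) : Sm T pos kt m x v :=
  ⟨h.1, h'.2.1, h.2.2.1.trans h'.2.2.1, fun d hd =>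
    (h.2.2.2 d hd).trans (h'.2.2.2 d (by rw [← h.2.2.1]; exact hd))⟩

/-- a glued side -/
lemma Pos.sm (hP : Pos T g pos kt m) (hG : Glu T g) {x : Half τ} (hx : x.1 ∈ T) (h : g x ≠ x) :
    Sm T pos kt m x (rho (g x)) := by
  obtain ⟨h1, h2⟩ := hP.same x hx h
  exact ⟨hx, hG.mem x hx, h1.symm, fun d hd => (h2 d hd).symm⟩

/-- the head of a boundary half edge is the tail of the next one -/
lemma Pos.sm_next (hP : Pos T g pos kt m) (hG : Glu T g) {u : Half τ} (hu : Bd T g u) :
    Sm T pos kt m (rho u) (next g u) := by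
  obtain ⟨k, hk, h1, -, h2⟩ := hG.next_spec hu.2
  have key : ∀ j, 1 ≤ j → j ≤ k → Sm T pos kt m (rho u) ((rot g)^[j] u) := by
    intro j hj
    induction j, hj using Nat.le_induction with
    | base =>
      intro _
      show Sm T pos kt m (rho u) (rho (g u))
      rw [hu.2]
      exact Sm.refl hu.1
    | succ j hj ih =>
      intro h3
      have h4 := ih (by omega)
      rw [iterate_succ_apply']
      exact h4.trans (hP.sm hG h4.2.1 (h2 j hj (by omega)))
  rw [h1]
  exact key k hk le_rfl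

/-- a step over a side of the closed surface is a step to the same corner, or a wall step -/
lemma Pos.sm_w (hP : Pos T g pos kt m) (hG : Glu T g) (hw : Wall T g w) {x : Half τ} (hx : x.1 ∈ T)
    (h : w x ≠ x) : Sm T pos kt m x (rho (w x)) ∨ (Bd T g x ∧ w x = next g x) := by
  rcases wall_cases hG hw x hx with h4 | ⟨h4, h5⟩ | ⟨h4, h5⟩ | ⟨h4, h5⟩
  · exact absurd h4 h
  · left; rw [h5]; exact hP.sm hG hx h4
  · exact Or.inr ⟨h4, h5⟩
  · left
    have hux : next g (w x) = x := by rw [← h5, hw.inv]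
    have h6 := hP.sm_next hG h4
    rw [hux] at h6
    exact h6.symm

lemma nrm_near {p q : ℤ × ℤ} (h1 : |p.1 - q.1| ≤ 1) (h2 : |p.2 - q.2| ≤ 1) : nrm p ≤ nrm q + 1 := by
  rw [nrm_le_iff]
  intro d
  have h3 := (co_near d h1 h2).1
  have h4 := co_le_nrm d q
  omega

lemma Pos.nrm_tile (hP : Pos T g pos kt m) {x y : Half τ} (hx : x.1 ∈ T) (h : x.1 = y.1) :
    nrm (pos x) ≤ nrm (pos y) + 1 := nrm_near (hP.step x y hx h).1 (hP.step x y hx h).2

end pos

/-! ### chains -/

section chain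
variable {α : Type*} {r : α → α → Prop}

/-- the steps of a path start at reachable points -/
lemma rtg_reach {s x : α} (h : ReflTransGen r s x) :
    ReflTransGen (fun u v => r u v ∧ ReflTransGen r s u) s x := by
  induction h with
  | refl => exact ReflTransGen.refl
  | tail h1 h2 ih => exact ih.tail ⟨h2, h1⟩

/-- the part of a path after the last point outside `N` -/
lemma last_out {N : α → Prop} {s x : α} (hs : ¬ N s) (h : ReflTransGen r s x) :
    ∃ s', ¬ N s' ∧ ReflTransGen (fun u v => r u v ∧ N v) s' x := by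
  induction h with
  | refl => exact ⟨s, hs, ReflTransGen.refl⟩
  | @tail u v _ h2 ih =>
    obtain ⟨s', h3, h4⟩ := ih
    by_cases hv : N v
    · exact ⟨s', h3, h4.tail ⟨h2, hv⟩⟩
    · exact ⟨v, hv, ReflTransGen.refl⟩

lemma rtg_swap {r' : α → α → Prop} (hr : ∀ u v, r u v → r' v u) {s x : α} (h : ReflTransGen r s x) :
    ReflTransGen r' x s := by
  induction h with
  | refl => exact ReflTransGen.refl
  | tail _ h2 ih => exact ReflTransGen.head (hr _ _ h2) ih

end chain

section arm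
variable {τ : Type} [DecidableEq τ] {T : Finset τ} {g w : Half τ → Half τ} {pos : Half τ → ℤ × ℤ}
  {kt : Dir → τ → ℤ × ℤ} {m : ℕ}

/-- one end of the diagonal of colour `ε` -/
def ga (c : Half τ → ZMod 2) (ε : ZMod 2) (t : τ) : Half τ := if c (t, .E) = ε then (t, .E) else (t, .N)

/-- the other end of the diagonal of colour `ε` -/
def gb (c : Half τ → ZMod 2) (ε : ZMod 2) (t : τ) : Half τ := opm (ga c ε t)

/-- the drawn diagonals of colour `ε` -/
noncomputable def Sg (K : Finset τ) (c : Half τ → ZMod 2) (ε : ZMod 2) (ω : Finset τ) : Finset τ :=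
  good K (fun t => c (t, .E) ≠ ε) ω

lemma ga_fst (c : Half τ → ZMod 2) (ε : ZMod 2) (t : τ) : (ga c ε t).1 = t := by
  unfold ga; split_ifs <;> rfl

lemma gb_fst (c : Half τ → ZMod 2) (ε : ZMod 2) (t : τ) : (gb c ε t).1 = t := by
  unfold gb; rw [opm_fst, ga_fst]

lemma ga_snd (c : Half τ → ZMod 2) (ε : ZMod 2) (t : τ) : (ga c ε t).2 = .E ∨ (ga c ε t).2 = .N := by
  unfold ga; split_ifs
  · exact Or.inl rfl
  · exact Or.inr rfl

lemma z2 : ∀ a b : ZMod 2, a ≠ b → a + 1 = b := by decide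
lemma z2' : ∀ a : ZMod 2, a + 1 ≠ a := by decide

/-- a drawn diagonal is a good one -/
lemma drawn {K : Finset τ} {c : Half τ → ZMod 2} {ω : Finset τ} {x : Half τ} (hx : x.1 ∈ K)
    (hc : ∀ d, c (rho (x.1, d)) = c (x.1, d) + 1) (hd : mate ω x = rho x) :
    x.1 ∈ Sg K c (c x) ω ∧ ((x = ga c (c x) x.1 ∧ opm x = gb c (c x) x.1) ∨
      (x = gb c (c x) x.1 ∧ opm x = ga c (c x) x.1)) := by
  obtain ⟨t, d⟩ := x
  have h1 : c (t, .N) = c (t, .E) + 1 := hc .E
  have h2 : c (t, .W) = c (t, .N) + 1 := hc .N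
  have h3 : c (t, .S) = c (t, .W) + 1 := hc .W
  have one : (1 : ZMod 2) + 1 = 0 := CharTwo.add_self_eq_zero 1
  have hW : c (t, .W) = c (t, .E) := by rw [h2, h1, add_assoc, one, add_zero]
  have hS : c (t, .S) = c (t, .E) + 1 := by rw [h3, hW]
  have hm : Dir.mt (decide (t ∈ ω)) d = d.ccw := congrArg Prod.snd hd
  unfold Sg
  rw [mem_good]
  cases d
  · have ht : t ∉ ω := by
      intro h; rw [decide_eq_true h] at hm; exact absurd hm (by decide)
    refine ⟨⟨hx, fun h => absurd h ht, fun h => absurd rfl h⟩, Or.inl ?_⟩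
    have e : ga c (c (t, .E)) t = (t, .E) := if_pos rfl
    exact ⟨e.symm, by unfold gb; rw [e]⟩
  · have ht : t ∈ ω := by
      by_contra h; rw [decide_eq_false h] at hm; exact absurd hm (by decide)
    have hne : c (t, .E) ≠ c (t, .N) := by rw [h1]; exact Ne.symm (z2' _)
    refine ⟨⟨hx, fun _ => hne, fun _ => ht⟩, Or.inl ?_⟩
    have e : ga c (c (t, .N)) t = (t, .N) := if_neg hne
    exact ⟨e.symm, by unfold gb; rw [e]⟩
  · have ht : t ∉ ω := by
      intro h; rw [decide_eq_true h] at hm; exact absurd hm (by decide)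
    refine ⟨⟨hx, fun h => absurd h ht, fun h => absurd hW.symm h⟩, Or.inr ?_⟩
    have e : ga c (c (t, .W)) t = (t, .E) := if_pos hW.symm
    exact ⟨by unfold gb; rw [e]; rfl, by rw [e]; rfl⟩
  · have ht : t ∈ ω := by
      by_contra h; rw [decide_eq_false h] at hm; exact absurd hm (by decide)
    have hne : c (t, .E) ≠ c (t, .S) := by rw [hS]; exact Ne.symm (z2' _)
    refine ⟨⟨hx, fun _ => hne, fun _ => ht⟩, Or.inr ?_⟩
    have e : ga c (c (t, .S)) t = (t, .N) := if_neg hne
    exact ⟨by unfold gb; rw [e]; rfl, by rw [e]; rfl⟩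

open Classical in
/-- the positions, zero outside the region -/
noncomputable def pos0 (T : Finset τ) (pos : Half τ → ℤ × ℤ) (x : Half τ) : ℤ × ℤ := if x.1 ∈ T then pos x else (0, 0)

lemma pos0_eq {x : Half τ} (hx : x.1 ∈ T) : pos0 T pos x = pos x := by
  classical
  exact if_pos hx

lemma co_pos0 {d : Dir} {x : Half τ} (h : (m : ℤ) < co d (pos0 T pos x)) : x.1 ∈ T := by
  classical
  by_contra hx
  have e : pos0 T pos x = (0, 0) := if_neg hx
  rw [e] at h
  have : co d ((0, 0) : ℤ × ℤ) = 0 := by cases d <;> rfl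
  omega

/-- the abstract charts of `Arm` -/
theorem Pos.charts (hP : Pos T g pos kt m) {K : Finset τ} (hK : K ⊆ T) (c : Half τ → ZMod 2) (ε : ZMod 2) :
    Charts K (ga c ε) (gb c ε) (Sm T pos kt m) (pos0 T pos) kt (kv kt) m where
  sm_pos := by
    rintro u v ⟨h1, h2, h3, -⟩
    rw [pos0_eq h1, pos0_eq h2, h3]
  near := by
    intro t ht
    have h1 : (ga c ε t).1 ∈ T := by rw [ga_fst]; exact hK ht
    have h2 : (gb c ε t).1 ∈ T := by rw [gb_fst]; exact hK ht
    rw [pos0_eq h1, pos0_eq h2]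
    exact hP.step _ _ h1 (by rw [ga_fst, gb_fst])
  kv_pos := by
    intro d v h
    have hv := co_pos0 h
    rw [pos0_eq hv] at h ⊢
    exact hP.co d v hv h
  kv_sm := by
    rintro d u v ⟨h1, h2, h3, h4⟩ h
    rw [pos0_eq h1] at h
    exact h4 d h
  opp := by
    intro d t ht h1 h2
    unfold kv
    rw [ga_fst, gb_fst]
    unfold gb Opp
    rw [opm_snd]
    rcases ga_snd c ε t with h | h <;> rw [h]
    · right; right; left
      exact ⟨by simp [off], by simp [off, Dir.opp]⟩
    · right; left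
      exact ⟨by simp [off, Dir.opp], by simp [off]⟩
  inj := by
    intro d t ht t' ht' _ _ _ _ h
    exact hP.inj d t (hK ht) t' (hK ht') h

variable {w₂ : Half τ → Half τ} {z₁ z₂ : Half τ} {B : Set τ} {ω : Finset τ}

/-- a common path which comes from far and meets no wall near the centre is an arm -/
theorem arm_of_path (hG : Glu T g) (hw : Wall T g w) (hP : Pos T g pos kt m) {K : Finset τ}
    (hK : ∀ t ∈ T, t ∉ B → t ∈ K) {R : ℤ} {c : Half τ → ZMod 2} {ε : ZMod 2}
    (hc : ∀ x : Half τ, x.1 ∈ T → x.1 ∉ B → c (rho x) = c x + 1) (hz : z₁.1 ∈ B) {s x : Half τ}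
    (hp : ReflTransGen (StS B T w w₂ z₁ z₂ ω) s x) (hs : R ≤ nrm (pos s))
    (hcc : ∀ y, ReflTransGen (StS B T w w₂ z₁ z₂ ω) s y → c y = ε)
    (hwall : ∀ y, Bd T g y → w y = next g y → w y ≠ y → nrm (pos y) < R + 2 →
      ReflTransGen (StS B T w w₂ z₁ z₂ ω) s y → False) :
    ∃ v, R ≤ nrm (pos v) ∧ (v = x ∨ v.1 ∈ T) ∧
      ReflTransGen (St (ga c ε) (gb c ε) (Sm T pos kt m) (Sg K c ε ω)) x v := by
  obtain ⟨s', h1, h2⟩ := last_out (N := fun y => nrm (pos y) < R) (by simp only [not_lt]; exact hs)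
    (rtg_reach hp)
  refine ⟨s', not_lt.1 h1, ?_, ?_⟩
  · rcases ReflTransGen.cases_head h2 with h3 | ⟨y, h3, -⟩
    · exact Or.inl h3
    · exact Or.inr h3.1.1.1
  refine rtg_swap ?_ h2
  -- one step, backwards
  have dg : ∀ u : Half τ, u.1 ∈ T → u.1 ∉ B → c u = ε → mate ω u = rho u →
      u.1 ∈ Sg K c ε ω ∧ ((u = ga c ε u.1 ∧ opm u = gb c ε u.1) ∨ (u = gb c ε u.1 ∧ opm u = ga c ε u.1)) := by
    intro u huT huB huc hud
    have h3 := drawn (K := K) (c := c) (hK _ huT huB) (fun d => hc (u.1, d) huT huB) hud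
    rw [huc] at h3
    exact h3
  rintro u v ⟨⟨⟨huT, hvT, hst⟩, hreach⟩, hN⟩
  have hreach' : ReflTransGen (StS B T w w₂ z₁ z₂ ω) s v := hreach.tail ⟨huT, hvT, hst⟩
  rcases hst with ⟨huB, hvB, h3⟩ | ⟨hvB, huB, h3⟩
  · rcases h3 with ⟨h4, -, rfl⟩ | ⟨h4, rfl⟩ | ⟨rfl, -, -⟩
    · left
      rcases hP.sm_w hG hw huT h4 with h5 | ⟨h5, h6⟩
      · exact h5.symm
      · exfalso
        refine hwall u h5 h6 h4 ?_ hreach
        have h7 := hP.sm_next hG h5
        have h8 := hP.nrm_tile (x := u) (y := rho u) huT rfl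
        rw [h7.2.2.1, ← h6] at h8
        have h9 := hP.nrm_tile (x := w u) (y := rho (w u)) (hw.mem u huT) rfl
        have hN' : nrm (pos (rho (w u))) < R := hN
        omega
    · obtain ⟨h5, h6⟩ := dg u huT huB (hcc u hreach) h4
      right
      refine ⟨u.1, h5, ?_⟩
      rcases h6 with ⟨h6, h7⟩ | ⟨h6, h7⟩
      · exact Or.inr ⟨h7, h6⟩
      · exact Or.inl ⟨h7, h6⟩
    · exact absurd hz huB
  · rcases h3 with ⟨h4, -, rfl⟩ | ⟨h4, rfl⟩ | ⟨rfl, -, -⟩
    · left
      rcases hP.sm_w hG hw hvT h4 with h5 | ⟨h5, h6⟩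
      · exact h5
      · exfalso
        have hN' : nrm (pos v) < R := hN
        exact hwall v h5 h6 h4 (by omega) hreach'
    · obtain ⟨h5, h6⟩ := dg v hvT hvB (hcc v hreach') h4
      right
      refine ⟨v.1, h5, ?_⟩
      rcases h6 with ⟨h6, h7⟩ | ⟨h6, h7⟩
      · exact Or.inl ⟨h6, h7⟩
      · exact Or.inr ⟨h6, h7⟩
    · exact absurd hz hvB

end arm

end Full.P5
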