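import Pool.Agent.Full.P5.Det
import Pool.Agent.Full.Def.Inst

/-!
# Local change of a region: the deterministic part

A region with closed walls is a gluing `w` with exactly four ends: `z` and the marks `e 0`, `e 1`, `e 2`.
If two such regions agree outside a set `B` of tiles and the strands of their ends `z` go to different
marks, then every arc which is not near `B` is joined to `B` by a path of drawn diagonals outside `B`
which meets no other arc.
-/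

set_option autoImplicit false
set_option linter.unusedSectionVars false

namespace Full.P5
open Function Relation

variable {τ : Type*}

section scz
variable {T : Finset τ} {g w : Half τ → Half τ}

/-- closing the walls keeps the region simply connected -/
theorem SCz.wall (hG : Glu T g) (hw : Wall T g w) {z : Half τ} (h : SCz T g z) : SCz T w z := by
  intro χ h1 h2 h3
  have hg : ∀ x, χ (g x) = χ x := fun x => by
    by_cases h : g x = x
    · rw [h]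
    · rw [← hw.ext x h]; exact h1 x
  obtain ⟨c, hc, hr⟩ := h χ hg h2 h3
  refine ⟨c, ?_, hr⟩
  intro x hx
  by_cases hT : x.1 ∈ T
  · rcases wall_cases hG hw x hT with h4 | ⟨h4, h5⟩ | ⟨h4, h5⟩ | ⟨h4, h5⟩
    · exact absurd h4 hx
    · rw [h5]; exact hc x h4
    · rw [h5]; exact hG.corner_next hc h4.2
    · have hux : next g (w x) = x := by rw [← h5, hw.inv]
      have h6 := hG.corner_next hc h4.2
      rw [hux, hr _ h4.1, h1 x] at h6
      rw [hr x hT, h6, add_assoc, CharTwo.add_self_eq_zero, add_zero]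
  · exact absurd (hw.out x hT) hx

end scz

lemma f12 : ∀ j : Fin 3, j + 1 + 2 = j := by decide
lemma f11 : ∀ j : Fin 3, j + 1 + 1 = j + 2 := by decide
lemma f21 : ∀ j : Fin 3, j + 2 + 1 = j := by decide
lemma f22 : ∀ j : Fin 3, j + 2 + 2 = j + 1 := by decide
lemma f0 : ∀ {i j : Fin 3}, i ≠ j → i = j + 1 ∨ i = j + 2 := by decide
lemma f1 : ∀ {h j : Fin 3}, h ≠ j + 1 → h = j ∨ h = j + 2 := by decide
lemma f2 : ∀ {h j : Fin 3}, h ≠ j + 2 → h = j ∨ h = j + 1 := by decide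
lemma fn1 : ∀ j : Fin 3, j + 1 ≠ j := by decide

/-- a region with closed walls `w`, the end `z` and the marks `e 0`, `e 1`, `e 2` in this cyclic order -/
structure Mk (T : Finset τ) (w : Half τ → Half τ) (z : Half τ) (e : Fin 3 → Half τ) : Prop where
  glu : Glu T w
  bz : Bd T w z
  be : ∀ i, Bd T w (e i)
  ze : ∀ i, z ≠ e i
  ee : Injective e
  ends : ∀ x, Bd T w x → x = z ∨ ∃ i, x = e i
  sc : SCz T w z
  cyc : ∀ (i : Fin 3) (c : Half τ → ZMod 2), Corner w c → c (rho z) = c z → c (rho (e i)) = c (e (i + 1))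

section
variable [DecidableEq τ]

/-- the colouring which belongs to the strand of `z`, if it ends at `e j` -/
structure Col (T : Finset τ) (w : Half τ → Half τ) (z : Half τ) (e : Fin 3 → Half τ) (ω : Finset τ)
    (j : Fin 3) (c : Half τ → ZMod 2) : Prop where
  corner : Corner w c
  hit : ∀ x, Conn (mate ω) w z x → c x = 0 ∧ c (rho x) = 0
  miss : ∀ x : Half τ, x.1 ∈ T → ¬ Conn (mate ω) w z x → c (rho x) = c x + 1
  diag : ∀ x : Half τ, x.1 ∈ T → mate ω x = rho x → c (opm x) = c x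
  e0 : c (e j) = 0
  e1 : c (e (j + 1)) = 0
  e2 : c (e (j + 2)) = 1

variable {T : Finset τ} {w : Half τ → Half τ} {z : Half τ} {e : Fin 3 → Half τ}

/-- the corner on the other side of a glued side -/
theorem corner_w {X : Type*} {c : Half τ → X} (hG : Glu T w) (hc : Corner w c) {x : Half τ} (h : w x ≠ x) :
    c (rho (w x)) = c x := by
  have h1 := hc (w x) (by rw [hG.inv]; exact Ne.symm h)
  rw [hG.inv] at h1
  exact h1.symm

lemma rho_rho (x : Half τ) : rho (rho x) = opm x := by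
  obtain ⟨t, d⟩ := x
  cases d <;> rfl

theorem Mk.col (h : Mk T w z e) {ω : Finset τ} {j : Fin 3} (hj : other (mate ω) w z = e j) :
    ∃ c, Col T w z e ω j c := by
  have one : (1 : ZMod 2) + 1 = 0 := CharTwo.add_self_eq_zero 1
  classical
  set χ : Half τ → ZMod 2 := fun x => if Conn (mate ω) w z x then 0 else 1 with hχ
  have hT2 := h.glu.two ω
  have cw : ∀ x, Conn (mate ω) w z (w x) ↔ Conn (mate ω) w z x := fun x => by
    constructor
    · intro h1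
      have h2 := h1.trans (Conn.g_step (m := mate ω) (g := w) (w x))
      rwa [h.glu.inv] at h2
    · intro h1; exact h1.trans (Conn.g_step _)
  have cm : ∀ x, Conn (mate ω) w z (mate ω x) ↔ Conn (mate ω) w z x := fun x => by
    constructor
    · intro h1
      have h2 := h1.trans (Conn.m_step (m := mate ω) (g := w) (mate ω x))
      rwa [mate_mate] at h2
    · intro h1; exact h1.trans (Conn.m_step _)
  have h1 : ∀ x, χ (w x) = χ x := fun x => by simp only [hχ, cw]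
  have hm : ∀ x, χ (mate ω x) = χ x := fun x => by simp only [hχ, cm]
  have hsum : ∀ t : τ, ∑ d, χ (t, d) = 0 := by
    intro t
    rw [Dir.sum_dir]
    by_cases ht : t ∈ ω
    · have e1 : χ (t, Dir.N) = χ (t, Dir.W) := by
        have := hm (t, Dir.W); simp only [mate, ht, decide_true, Dir.mt] at this; exact this
      have e2 : χ (t, Dir.E) = χ (t, Dir.S) := by
        have := hm (t, Dir.S); simp only [mate, ht, decide_true, Dir.mt] at this; exact this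
      rw [e1, e2]
      linear_combination (χ (t, Dir.W) + χ (t, Dir.S)) * one
    · have e1 : χ (t, Dir.W) = χ (t, Dir.S) := by
        have := hm (t, Dir.S); simp only [mate, ht, decide_false, Dir.mt] at this; exact this
      have e2 : χ (t, Dir.N) = χ (t, Dir.E) := by
        have := hm (t, Dir.E); simp only [mate, ht, decide_false, Dir.mt] at this; exact this
      rw [e1, e2]
      linear_combination (χ (t, Dir.E) + χ (t, Dir.S)) * one
  have hz : χ z = 0 := by simp only [hχ, Conn.refl, if_true]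
  obtain ⟨c0, hc0, hr0⟩ := h.sc χ h1 (fun t _ => hsum t) hz
  -- normalise
  set c : Half τ → ZMod 2 := fun x => c0 x + c0 z with hcdef
  have hc : Corner w c := fun x hx => by simp only [hcdef, hc0 x hx]
  have hr : ∀ x : Half τ, x.1 ∈ T → c (rho x) = c x + χ x := fun x hx => by
    simp only [hcdef, hr0 x hx]; ring
  have hcz : c z = 0 := by simp only [hcdef, CharTwo.add_self_eq_zero]
  have hon : ∀ x, Conn (mate ω) w z x → χ x = 0 := fun x hx => by simp only [hχ, hx, if_true]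
  have hoff : ∀ x, ¬ Conn (mate ω) w z x → χ x = 1 := fun x hx => by simp only [hχ, hx, if_false]
  have key : ∀ x, Conn (mate ω) w z x → x.1 ∈ T ∧ c x = 0 := by
    intro x hx
    induction hx with
    | refl => exact ⟨h.bz.1, hcz⟩
    | @tail x y hsx h2 ih =>
      obtain ⟨iT, ip⟩ := ih
      have hsy : Conn (mate ω) w z y := hsx.tail h2
      rcases h2 with rfl | rfl
      · refine ⟨iT, ?_⟩
        rcases mate_cases ω x with e | e
        · rw [e, hr x iT, hon x hsx, add_zero, ip]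
        · have h5 := hr (mate ω x) iT
          rw [e, hon _ hsy, add_zero] at h5
          rw [← h5, ip]
      · refine ⟨h.glu.mem x iT, ?_⟩
        by_cases h3 : w x = x
        · rw [h3]; exact ip
        · rw [hc x h3, hr x iT, hon x hsx, add_zero, ip]
  have heT : ∀ i, (e i).1 ∈ T := fun i => (h.be i).1
  have hcyc := fun i => h.cyc i c hc (by rw [hr z h.bz.1, hz, add_zero])
  have hje : Conn (mate ω) w z (e j) := by rw [← hj]; exact Two.conn_other z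
  have hne : ∀ i, i ≠ j → ¬ Conn (mate ω) w z (e i) := by
    intro i hi h2
    rcases (h.glu.conn_iff h.bz (h.be i)).1 h2 with h3 | h3
    · exact h.ze i h3.symm
    · rw [hj] at h3
      exact hi (h.ee h3)
  have ej : c (e j) = 0 := (key _ hje).2
  have ej1 : c (e (j + 1)) = 0 := by
    rw [← hcyc j, hr _ (heT j), hon _ hje, ej, add_zero]
  have ej2 : c (e (j + 2)) = 1 := by
    have h2 := hcyc (j + 1)
    rw [hr _ (heT _), hoff _ (hne _ (fn1 j)), ej1, zero_add] at h2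
    rw [f11] at h2
    exact h2.symm
  refine ⟨c, hc, fun x hx => ⟨(key x hx).2, ?_⟩, fun x hx h2 => ?_, fun x hx h2 => ?_, ej, ej1, ej2⟩
  · rw [hr x (key x hx).1, hon x hx, (key x hx).2, add_zero]
  · rw [hr x hx, hoff x h2]
  · rw [← rho_rho, hr (rho x) hx, hr x hx]
    have h3 := hm x
    rw [h2] at h3
    rw [h3, add_assoc, CharTwo.add_self_eq_zero, add_zero]

/-- one step between corners which are the same corner, or joined by a wall or by a drawn diagonal -/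
def Lk (ω : Finset τ) (w : Half τ → Half τ) (z : Half τ) (x y : Half τ) : Prop :=
  (w x ≠ x ∧ y = rho (w x)) ∨ (mate ω x = rho x ∧ y = opm x) ∨ (x = z ∧ y = rho z)

/-- the symmetric relation -/
def LkS (ω : Finset τ) (w : Half τ → Half τ) (z : Half τ) (x y : Half τ) : Prop :=
  Lk ω w z x y ∨ Lk ω w z y x

theorem LkS.symm {ω : Finset τ} {x y : Half τ} (h : LkS ω w z x y) : LkS ω w z y x := Or.symm h

theorem lks_symm {ω : Finset τ} {x y : Half τ} (h : ReflTransGen (LkS ω w z) x y) :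
    ReflTransGen (LkS ω w z) y x := by
  induction h with
  | refl => exact ReflTransGen.refl
  | tail _ h2 ih => exact ReflTransGen.head (LkS.symm h2) ih

/-- the colouring is constant along links -/
theorem Col.lk (h : Mk T w z e) {ω : Finset τ} {j : Fin 3} {c : Half τ → ZMod 2} (hc : Col T w z e ω j c)
    {x y : Half τ} (hx : x.1 ∈ T) (hl : Lk ω w z x y) : c y = c x := by
  rcases hl with ⟨h1, rfl⟩ | ⟨h1, rfl⟩ | ⟨rfl, rfl⟩
  · exact corner_w h.glu hc.corner h1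
  · exact hc.diag x hx h1
  · rw [(hc.hit _ (Conn.refl _)).1, (hc.hit _ (Conn.refl _)).2]

omit [DecidableEq τ] in
lemma rho_mem {x : Half τ} : (rho x).1 ∈ T ↔ x.1 ∈ T := Iff.rfl

theorem lk_mem (hG : Glu T w) {ω : Finset τ} {x y : Half τ} (hl : Lk ω w z x y) :
    x.1 ∈ T ↔ y.1 ∈ T := by
  rcases hl with ⟨_, rfl⟩ | ⟨_, rfl⟩ | ⟨rfl, rfl⟩
  · exact hG.mem_iff.symm
  · exact Iff.rfl
  · exact Iff.rfl

/-- **the two sides of the strand of `z`** join the two corners of the mark where it ends -/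
theorem Mk.sides (h : Mk T w z e) (ω : Finset τ) :
    ReflTransGen (LkS ω w z) (other (mate ω) w z) (rho (other (mate ω) w z)) := by
  have hp := h.glu.periodic ω z
  have hT2 := h.glu.two ω
  have hpos := Two.period_pos hp
  have h0 := hT2.even h.bz.2 hp
  set L := LkS ω w z with hL
  -- leaving a tile
  have exit : ∀ x : Half τ, ReflTransGen L z x → ReflTransGen L (rho z) (rho x) →
      ReflTransGen L z (rho (mate ω x)) ∧ ReflTransGen L (rho z) (mate ω x) := by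
    intro x h1 h2
    rcases mate_cases ω x with e | e
    · refine ⟨h1.tail (Or.inl (Or.inr (Or.inl ⟨e, ?_⟩))), ?_⟩
      · rw [e, rho_rho]
      · rw [e]; exact h2
    · refine ⟨?_, h2.tail (Or.inr (Or.inr (Or.inl ⟨?_, ?_⟩)))⟩
      · rw [e]; exact h1
      · rw [mate_mate, e]
      · rw [← rho_rho, e]
  have key : ∀ n, n < minimalPeriod (w ∘ mate ω) z / 2 →
      ReflTransGen L z ((w ∘ mate ω)^[n] z) ∧ ReflTransGen L (rho z) (rho ((w ∘ mate ω)^[n] z)) := by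
    intro n
    induction n with
    | zero => intro _; exact ⟨ReflTransGen.refl, ReflTransGen.refl⟩
    | succ n ih =>
      intro hn
      obtain ⟨i1, i2⟩ := ih (by omega)
      obtain ⟨j1, j2⟩ := exit _ i1 i2
      have h4 := hT2.inner h.bz.2 hp (k := n + 1) (by omega) hn
      rw [iterate_succ_apply'] at h4 ⊢
      set y := mate ω ((w ∘ mate ω)^[n] z) with hy
      have h5 : (w ∘ mate ω) ((w ∘ mate ω)^[n] z) = w y := rfl
      rw [h5] at h4 ⊢
      have h6 : w y ≠ y := by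
        intro h7
        exact h4 (by rw [h7, h7])
      refine ⟨j1.tail (Or.inr (Or.inl ⟨h4, ?_⟩)), j2.tail (Or.inl (Or.inl ⟨h6, rfl⟩))⟩
      rw [h.glu.inv]
  obtain ⟨k1, k2⟩ := key (minimalPeriod (w ∘ mate ω) z / 2 - 1) (by omega)
  obtain ⟨j1, j2⟩ := exit _ k1 k2
  rw [hT2.m_last h.bz.2 hp] at j1 j2
  have hzz : ReflTransGen L z (rho z) := ReflTransGen.single (Or.inl (Or.inr (Or.inr ⟨rfl, rfl⟩)))
  exact (lks_symm (hzz.trans j2)).trans j1

end

/-! ### two regions which agree outside `B` -/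

section
variable [DecidableEq τ]

/-- the two regions with their configurations agree outside the set `B` of tiles -/
structure Agree (B : Set τ) (T₁ T₂ : Finset τ) (w₁ w₂ : Half τ → Half τ) (z₁ z₂ : Half τ)
    (ω₁ ω₂ : Finset τ) : Prop where
  T : ∀ t, t ∉ B → (t ∈ T₁ ↔ t ∈ T₂)
  conf : ∀ t ∈ T₁, t ∉ B → (t ∈ ω₁ ↔ t ∈ ω₂)
  w12 : ∀ x : Half τ, x.1 ∉ B → (w₁ x).1 ∉ B → w₂ x = w₁ x
  w21 : ∀ x : Half τ, x.1 ∉ B → (w₂ x).1 ∉ B → w₁ x = w₂ x
  z : z₁ = z₂ ∨ (z₁.1 ∈ B ∧ z₂.1 ∈ B)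

/-- a common step of the two regions outside `B` -/
def Stp (B : Set τ) (w₁ w₂ : Half τ → Half τ) (z₁ z₂ : Half τ) (ω : Finset τ) (x y : Half τ) : Prop :=
  x.1 ∉ B ∧ y.1 ∉ B ∧
    ((w₁ x ≠ x ∧ w₂ x = w₁ x ∧ y = rho (w₁ x)) ∨ (mate ω x = rho x ∧ y = opm x) ∨
      (x = z₁ ∧ x = z₂ ∧ y = rho x))

/-- the symmetric relation, inside the region `T` -/
def StS (B : Set τ) (T : Finset τ) (w₁ w₂ : Half τ → Half τ) (z₁ z₂ : Half τ) (ω : Finset τ)
    (x y : Half τ) : Prop :=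
  x.1 ∈ T ∧ y.1 ∈ T ∧ (Stp B w₁ w₂ z₁ z₂ ω x y ∨ Stp B w₁ w₂ z₁ z₂ ω y x)

variable {B : Set τ} {T₁ T₂ : Finset τ} {w₁ w₂ : Half τ → Half τ} {z₁ z₂ : Half τ}
  {e₁ e₂ : Fin 3 → Half τ} {ω₁ ω₂ : Finset τ}

theorem Agree.symm (h : Agree B T₁ T₂ w₁ w₂ z₁ z₂ ω₁ ω₂) : Agree B T₂ T₁ w₂ w₁ z₂ z₁ ω₂ ω₁ :=
  ⟨fun t ht => (h.T t ht).symm, fun t ht hB => (h.conf t ((h.T t hB).2 ht) hB).symm, h.w21, h.w12,
    h.z.imp Eq.symm And.symm⟩

theorem StS.swap (h : Agree B T₁ T₂ w₁ w₂ z₁ z₂ ω₁ ω₂) {x y : Half τ}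
    (hs : StS B T₁ w₁ w₂ z₁ z₂ ω₁ x y) : StS B T₂ w₂ w₁ z₂ z₁ ω₂ x y := by
  have key : ∀ {x y : Half τ}, x.1 ∈ T₁ → Stp B w₁ w₂ z₁ z₂ ω₁ x y → Stp B w₂ w₁ z₂ z₁ ω₂ x y := by
    rintro x y hx ⟨h1, h2, h3⟩
    refine ⟨h1, h2, ?_⟩
    rcases h3 with ⟨h3, h4, h5⟩ | ⟨h3, h4⟩ | ⟨h3, h4, h5⟩
    · exact Or.inl ⟨by rw [h4]; exact h3, h4.symm, by rw [h4]; exact h5⟩
    · refine Or.inr (Or.inl ⟨?_, h4⟩)
      rw [← h3]
      exact mate_congr (h.conf _ hx h1).symm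
    · exact Or.inr (Or.inr ⟨h4, h3, h5⟩)
  obtain ⟨h1, h2, h3⟩ := hs
  have hB : x.1 ∉ B ∧ y.1 ∉ B := by
    rcases h3 with h3 | h3
    · exact ⟨h3.1, h3.2.1⟩
    · exact ⟨h3.2.1, h3.1⟩
  exact ⟨(h.T _ hB.1).1 h1, (h.T _ hB.2).1 h2, h3.imp (key h1) (key h2)⟩

/-- the colouring of the first region is constant along common steps -/
theorem Col.st (h : Mk T₁ w₁ z₁ e₁) {j : Fin 3} {c : Half τ → ZMod 2}
    (hc : Col T₁ w₁ z₁ e₁ ω₁ j c) {x y : Half τ} (hs : StS B T₁ w₁ w₂ z₁ z₂ ω₁ x y) : c y = c x := by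
  have key : ∀ {x y : Half τ}, x.1 ∈ T₁ → Stp B w₁ w₂ z₁ z₂ ω₁ x y → c y = c x := by
    rintro x y hx ⟨-, -, h3⟩
    refine hc.lk h hx ?_
    rcases h3 with ⟨h3, h4, h5⟩ | ⟨h3, h4⟩ | ⟨h3, h4, h5⟩
    · exact Or.inl ⟨h3, h5⟩
    · exact Or.inr (Or.inl ⟨h3, h4⟩)
    · exact Or.inr (Or.inr ⟨h3, by rw [h5, h3]⟩)
  obtain ⟨h1, h2, h3⟩ := hs
  rcases h3 with h3 | h3
  · exact key h1 h3
  · exact (key h2 h3).symm

/-- a path of the first region stays outside `B`, up to a tile which is glued to `B` -/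
theorem first_exit (h : Mk T₁ w₁ z₁ e₁) (ha : Agree B T₁ T₂ w₁ w₂ z₁ z₂ ω₁ ω₂) {s s' : Half τ}
    (hs : s.1 ∈ T₁) (hB : s.1 ∉ B) (hp : ReflTransGen (LkS ω₁ w₁ z₁) s s') :
    (s'.1 ∈ T₁ ∧ s'.1 ∉ B ∧ ReflTransGen (StS B T₁ w₁ w₂ z₁ z₂ ω₁) s s') ∨
      ∃ x x' : Half τ, ReflTransGen (StS B T₁ w₁ w₂ z₁ z₂ ω₁) s x ∧ x.1 ∈ T₁ ∧ x.1 ∉ B ∧
        x'.1 = x.1 ∧ (w₁ x').1 ∈ B := by
  induction hp with
  | refl => exact Or.inl ⟨hs, hB, ReflTransGen.refl⟩
  | @tail x y _ h2 ih =>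
    rcases ih with ⟨iT, iB, ip⟩ | h3
    · -- one more step
      rcases h2 with h2 | h2
      · have hyT := (lk_mem h.glu h2).1 iT
        rcases h2 with ⟨h3, rfl⟩ | ⟨h3, rfl⟩ | ⟨rfl, rfl⟩
        · by_cases h4 : (w₁ x).1 ∈ B
          · exact Or.inr ⟨x, x, ip, iT, iB, rfl, h4⟩
          · refine Or.inl ⟨hyT, h4, ip.tail ⟨iT, hyT, Or.inl ⟨iB, h4, Or.inl ⟨h3, ha.w12 x iB h4, rfl⟩⟩⟩⟩
        · exact Or.inl ⟨hyT, iB, ip.tail ⟨iT, hyT, Or.inl ⟨iB, iB, Or.inr (Or.inl ⟨h3, rfl⟩)⟩⟩⟩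
        · have h4 : x = z₂ := by
            rcases ha.z with h4 | h4
            · exact h4
            · exact absurd h4.1 iB
          exact Or.inl ⟨hyT, iB, ip.tail ⟨iT, hyT, Or.inl ⟨iB, iB, Or.inr (Or.inr ⟨rfl, h4, rfl⟩)⟩⟩⟩
      · have hyT := (lk_mem h.glu h2).2 iT
        rcases h2 with ⟨h3, rfl⟩ | ⟨h3, rfl⟩ | ⟨rfl, rfl⟩
        · by_cases h4 : y.1 ∈ B
          · exact Or.inr ⟨_, w₁ y, ip, iT, iB, rfl, by rw [h.glu.inv]; exact h4⟩
          · refine Or.inl ⟨hyT, h4, ip.tail ⟨iT, hyT, Or.inr ⟨h4, iB, Or.inl ⟨h3, ha.w12 y h4 iB, rfl⟩⟩⟩⟩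
        · exact Or.inl ⟨hyT, iB, ip.tail ⟨iT, hyT, Or.inr ⟨iB, iB, Or.inr (Or.inl ⟨h3, rfl⟩)⟩⟩⟩
        · have h4 : y = z₂ := by
            rcases ha.z with h4 | h4
            · exact h4
            · exact absurd h4.1 iB
          exact Or.inl ⟨hyT, iB, ip.tail ⟨iT, hyT, Or.inr ⟨iB, iB, Or.inr (Or.inr ⟨rfl, h4, rfl⟩)⟩⟩⟩
    · exact Or.inr h3

/-- the conclusion of the local change lemma for the arc `i`; `v₁ h`, `v₂ h` are the two colours of the
arc `h` -/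
structure Link (B : Set τ) (T₁ : Finset τ) (w₁ w₂ : Half τ → Half τ) (z₁ z₂ : Half τ)
    (e₁ : Fin 3 → Half τ) (ω₁ : Finset τ) (i : Fin 3) (c₁ c₂ : Half τ → ZMod 2)
    (v₁ v₂ : Fin 3 → ZMod 2) (x : Half τ) : Prop where
  path : ReflTransGen (StS B T₁ w₁ w₂ z₁ z₂ ω₁) (e₁ (i + 2)) x ∨
    ReflTransGen (StS B T₁ w₁ w₂ z₁ z₂ ω₁) (rho (e₁ (i + 1))) x
  mem : x.1 ∈ T₁
  out : x.1 ∉ B
  exit : ∃ x' : Half τ, x'.1 = x.1 ∧ ((w₁ x').1 ∈ B ∨ (w₂ x').1 ∈ B)
  val1 : c₁ x = v₁ i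
  val2 : c₂ x = v₂ i
  /-- the two colours separate the arc `i` from the other arcs -/
  sep : ∀ h : Fin 3, h ≠ i → v₁ h = v₁ i → v₂ h ≠ v₂ i

theorem st_path_const {c : Half τ → ZMod 2}
    (hc : ∀ {x y : Half τ}, StS B T₁ w₁ w₂ z₁ z₂ ω₁ x y → c y = c x)
    {s x : Half τ} (hp : ReflTransGen (StS B T₁ w₁ w₂ z₁ z₂ ω₁) s x) : c x = c s := by
  induction hp with
  | refl => rfl
  | tail _ h2 ih => rw [hc h2, ih]

theorem Col.cyc (h : Mk T₁ w₁ z₁ e₁) {j : Fin 3} {c : Half τ → ZMod 2}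
    (hc : Col T₁ w₁ z₁ e₁ ω₁ j c) (i : Fin 3) : c (rho (e₁ i)) = c (e₁ (i + 1)) :=
  h.cyc i c hc.corner (by rw [(hc.hit _ (Conn.refl _)).1, (hc.hit _ (Conn.refl _)).2])

/-- the mark `e k` is not on the strand of `z` if the exit is `e j` -/
theorem Col.not_on (h : Mk T₁ w₁ z₁ e₁) {j k : Fin 3} (hj : other (mate ω₁) w₁ z₁ = e₁ j) (hk : k ≠ j) :
    ¬ Conn (mate ω₁) w₁ z₁ (e₁ k) := by
  intro h2
  rcases (h.glu.conn_iff h.bz (h.be k)).1 h2 with h3 | h3
  · exact h.ze k h3.symm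
  · rw [hj] at h3
    exact hk (h.ee h3)

/-- one half of the local change lemma: the exit `e j` of the first region is an end of the arc `i`; the
second colour is any function which is constant along common steps and changes at the mark `e j` -/
theorem link_half (h₁ : Mk T₁ w₁ z₁ e₁) (ha : Agree B T₁ T₂ w₁ w₂ z₁ z₂ ω₁ ω₂)
    {j i : Fin 3} (hj : other (mate ω₁) w₁ z₁ = e₁ j) (hij : i ≠ j)
    (hB1 : (e₁ (i + 1)).1 ∉ B) (hB2 : (e₁ (i + 2)).1 ∉ B) {c₁ c₂ : Half τ → ZMod 2}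
    (hc₁ : Col T₁ w₁ z₁ e₁ ω₁ j c₁)
    (k2 : ∀ {x y : Half τ}, StS B T₁ w₁ w₂ z₁ z₂ ω₁ x y → c₂ y = c₂ x) {v₂ : Fin 3 → ZMod 2}
    (va : c₂ (e₁ j) = v₂ (j + 1)) (vb : c₂ (rho (e₁ j)) = v₂ (j + 2)) (vc : v₂ (j + 1) ≠ v₂ (j + 2)) :
    ∃ x, Link B T₁ w₁ w₂ z₁ z₂ e₁ ω₁ i c₁ c₂ (fun h => c₁ (e₁ (h + 2))) v₂ x := by
  have k1 : ∀ {x y : Half τ}, StS B T₁ w₁ w₂ z₁ z₂ ω₁ x y → c₁ y = c₁ x := fun hs => hc₁.st h₁ hs
  have hsd := h₁.sides ω₁
  rw [hj] at hsd
  have hT : ∀ i, (e₁ i).1 ∈ T₁ := fun i => (h₁.be i).1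
  have one : (1 : ZMod 2) ≠ 0 := by decide
  have hc1 := hc₁.e0
  have hc2 := hc₁.e1
  have hc3 := hc₁.e2
  rcases f0 hij with rfl | rfl
  · -- `e (i + 2) = e j`
    have e3 : j + 1 + 2 = j := f12 j
    rw [e3] at hB2
    rcases first_exit h₁ ha (hT j) hB2 hsd with ⟨-, -, hp⟩ | ⟨x, x', hp, m1, m2, m3, m4⟩
    · exfalso
      have h5 := st_path_const k2 hp
      rw [va, vb] at h5
      exact vc h5.symm
    · refine ⟨x, Or.inl ?_, m1, m2, ⟨x', m3, Or.inl m4⟩, ?_, ?_, ?_⟩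
      · rw [e3]; exact hp
      · show _ = c₁ (e₁ (j + 1 + 2)); rw [e3]; exact st_path_const k1 hp
      · rw [← va]; exact st_path_const k2 hp
      · intro h hh
        show c₁ (e₁ (h + 2)) = c₁ (e₁ (j + 1 + 2)) → _
        rw [e3]
        rcases f1 hh with rfl | rfl
        · intro h6
          rw [hc3, hc1] at h6
          exact absurd h6 one
        · intro _
          exact Ne.symm vc
  · -- `e (i + 1) = e j`
    have e3 : j + 2 + 1 = j := f21 j
    have e4 : j + 2 + 2 = j + 1 := f22 j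
    rw [e3] at hB1
    rcases first_exit h₁ ha (s := rho (e₁ j)) (hT j) hB1 (lks_symm hsd) with
      ⟨-, -, hp⟩ | ⟨x, x', hp, m1, m2, m3, m4⟩
    · exfalso
      have h5 := st_path_const k2 hp
      rw [va, vb] at h5
      exact vc h5
    · refine ⟨x, Or.inr ?_, m1, m2, ⟨x', m3, Or.inl m4⟩, ?_, ?_, ?_⟩
      · rw [e3]; exact hp
      · show _ = c₁ (e₁ (j + 2 + 2)); rw [e4, ← Col.cyc h₁ hc₁ j]; exact st_path_const k1 hp
      · rw [← vb]; exact st_path_const k2 hp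
      · intro h hh
        show c₁ (e₁ (h + 2)) = c₁ (e₁ (j + 2 + 2)) → _
        rw [e4]
        rcases f2 hh with rfl | rfl
        · intro h6
          rw [hc3, hc2] at h6
          exact absurd h6 one
        · intro _
          exact vc

/-- **local change**: the regions agree outside `B`, the exits are different; then every arc `i` whose
ends are outside `B` is joined to `B` by a common path of the two regions, and two colours separate the
path from the other arcs -/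
theorem lc (h₁ : Mk T₁ w₁ z₁ e₁) (h₂ : Mk T₂ w₂ z₂ e₂) (ha : Agree B T₁ T₂ w₁ w₂ z₁ z₂ ω₁ ω₂)
    {j k : Fin 3} (hj : other (mate ω₁) w₁ z₁ = e₁ j) (hk : other (mate ω₂) w₂ z₂ = e₂ k)
    (hjk : j ≠ k) {c₁ c₂ : Half τ → ZMod 2}
    (hc₁ : Col T₁ w₁ z₁ e₁ ω₁ j c₁) (hc₂ : Col T₂ w₂ z₂ e₂ ω₂ k c₂)
    (i : Fin 3) (he1 : e₁ (i + 1) = e₂ (i + 1)) (he2 : e₁ (i + 2) = e₂ (i + 2))
    (hB1 : (e₁ (i + 1)).1 ∉ B) (hB2 : (e₁ (i + 2)).1 ∉ B) :
    ∃ x, Link B T₁ w₁ w₂ z₁ z₂ e₁ ω₁ i c₁ c₂ (fun h => c₁ (e₁ (h + 2))) (fun h => c₂ (e₂ (h + 2))) x := by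
  -- the half for the exit which is an end of the arc `i`
  have half : ∀ {T₁ T₂ : Finset τ} {w₁ w₂ : Half τ → Half τ} {z₁ z₂ : Half τ}
      {e₁ e₂ : Fin 3 → Half τ} {ω₁ ω₂ : Finset τ} (h₁ : Mk T₁ w₁ z₁ e₁) (h₂ : Mk T₂ w₂ z₂ e₂)
      (ha : Agree B T₁ T₂ w₁ w₂ z₁ z₂ ω₁ ω₂)
      {j k : Fin 3} (hj : other (mate ω₁) w₁ z₁ = e₁ j) (hk : other (mate ω₂) w₂ z₂ = e₂ k)
      (hjk : j ≠ k) {c₁ c₂ : Half τ → ZMod 2}
      (hc₁ : Col T₁ w₁ z₁ e₁ ω₁ j c₁) (hc₂ : Col T₂ w₂ z₂ e₂ ω₂ k c₂)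
      (he1 : e₁ (i + 1) = e₂ (i + 1)) (he2 : e₁ (i + 2) = e₂ (i + 2))
      (hB1 : (e₁ (i + 1)).1 ∉ B) (hB2 : (e₁ (i + 2)).1 ∉ B) (hij : i ≠ j),
      ∃ x, Link B T₁ w₁ w₂ z₁ z₂ e₁ ω₁ i c₁ c₂ (fun h => c₁ (e₁ (h + 2))) (fun h => c₂ (e₂ (h + 2))) x := by
    intro T₁ T₂ w₁ w₂ z₁ z₂ e₁ e₂ ω₁ ω₂ h₁ h₂ ha j k hj hk hjk c₁ c₂ hc₁ hc₂ he1 he2 hB1 hB2 hij
    have hee : e₁ j = e₂ j := by
      rcases f0 hij with rfl | rfl
      · rw [f12] at he2; exact he2
      · rw [f21] at he1; exact he1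
    have hchg : c₂ (rho (e₂ j)) = c₂ (e₂ j) + 1 := hc₂.miss _ (h₂.be j).1 (Col.not_on h₂ hk hjk)
    refine link_half h₁ ha hj hij hB1 hB2 hc₁ (fun hs => hc₂.st h₂ (hs.swap ha)) ?_ ?_ ?_
    · show _ = c₂ (e₂ (j + 1 + 2)); rw [f12, hee]
    · show _ = c₂ (e₂ (j + 2 + 2)); rw [f22, hee, Col.cyc h₂ hc₂ j]
    · show c₂ (e₂ (j + 1 + 2)) ≠ c₂ (e₂ (j + 2 + 2))
      rw [f12, f22, ← Col.cyc h₂ hc₂ j, hchg]
      intro h
      have h1 : (1 : ZMod 2) = 0 := by linear_combination -h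
      exact absurd h1 (by decide)
  by_cases hij : i = j
  · have hik : i ≠ k := by rw [hij]; exact hjk
    obtain ⟨x, hx⟩ := half h₂ h₁ ha.symm hk hj (Ne.symm hjk) hc₂ hc₁ he1.symm he2.symm
      (by rw [← he1]; exact hB1) (by rw [← he2]; exact hB2) hik
    have hpath : ∀ {s x : Half τ}, ReflTransGen (StS B T₂ w₂ w₁ z₂ z₁ ω₂) s x →
        ReflTransGen (StS B T₁ w₁ w₂ z₁ z₂ ω₁) s x := fun hp => by
      induction hp with
      | refl => exact ReflTransGen.refl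
      | tail _ h2 ih => exact ih.tail (h2.swap ha.symm)
    refine ⟨x, ?_, (ha.T _ hx.out).2 hx.mem, hx.out, ?_, hx.val2, hx.val1, ?_⟩
    · rcases hx.path with hp | hp
      · left; rw [he2]; exact hpath hp
      · right; rw [he1]; exact hpath hp
    · obtain ⟨x', h1, h2⟩ := hx.exit
      exact ⟨x', h1, h2.symm⟩
    · intro h hh h6 h7
      exact hx.sep h hh h7 h6
  · exact half h₁ h₂ ha hj hk hjk hc₁ hc₂ he1 he2 hB1 hB2 hij

/-- on a path of colour 1 the diagonals are in tiles which the strand of `z` does not visit -/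
theorem Col.fresh (h : Mk T₁ w₁ z₁ e₁) {j : Fin 3} {c : Half τ → ZMod 2}
    (hc : Col T₁ w₁ z₁ e₁ ω₁ j c) {x y : Half τ} (hx : x.1 ∈ T₁) (hd : mate ω₁ x = rho x)
    (h1 : c x = 1) (hy : y.1 = x.1) : ¬ Conn (mate ω₁) w₁ z₁ y := by
  intro hcy
  have hT2 := h.glu.two ω₁
  have h2 := hc.diag x hx hd
  have one : (1 : ZMod 2) ≠ 0 := by decide
  have hm : ∀ u, Conn (mate ω₁) w₁ z₁ u → Conn (mate ω₁) w₁ z₁ (mate ω₁ u) := fun u hu =>
    hu.trans (Conn.m_step _)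
  -- the strand would touch one of the two ends of the diagonal
  have key : ∀ u, Conn (mate ω₁) w₁ z₁ u → c u = 0 ∧ c (rho u) = 0 := hc.hit
  have hd2 : mate ω₁ (rho x) = x := by rw [← hd, mate_mate]
  obtain ⟨t, d⟩ := x
  obtain ⟨t', d'⟩ := y
  obtain rfl : t' = t := hy
  have hcases : d' = d ∨ d' = d.ccw ∨ d' = d.opp ∨ d' = d.opp.ccw := by
    cases d <;> cases d' <;> decide
  rcases hcases with rfl | rfl | rfl | rfl
  · rw [(key _ hcy).1] at h1; exact one h1.symm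
  · have h3 := hm _ hcy
    have h4 : mate ω₁ (t', d.ccw) = (t', d) := hd2
    rw [h4] at h3
    rw [(key _ h3).1] at h1; exact one h1.symm
  · have h5 : c (t', d.opp) = c (t', d) := h2
    rw [← h5, (key _ hcy).1] at h1; exact one h1.symm
  · have h3 := hm _ hcy
    have h4 : mate ω₁ (t', d.opp.ccw) = (t', d.opp) := by
      have h6 : mate ω₁ (t', d) = (t', d.ccw) := hd
      unfold mate at h6 ⊢
      have h7 : Dir.mt (decide (t' ∈ ω₁)) d = d.ccw := congrArg Prod.snd h6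
      have h8 : Dir.mt (decide (t' ∈ ω₁)) d.opp.ccw = d.opp := by
        revert h7
        generalize decide (t' ∈ ω₁) = b
        cases b <;> cases d <;> decide
      exact Prod.ext rfl h8
    rw [h4] at h3
    have h5 : c (t', d.opp) = c (t', d) := h2
    rw [← h5, (key _ h3).1] at h1; exact one h1.symm

end

end Full.P5
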