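import Pool.Agent.Full.Disc.Tangle

/-!
# A circuit of one colour around a boundary point: the exit of `z`

`(T, g)` is a region with an interior end `z` (it is simply connected except for `z`: `SCz`), `w` is a
closed wall with the ends `z, e, e', q`; `e, e', q` follow each other on the outer boundary.  `ins` is the
inside of a circuit of colour `κ` (a set of half edges: strands can leave it only around boundary corners
of colour `κ`), `col` is the colour of the corners outside of `ins`.  If the boundary pieces which meet the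
circuit belong to the arc from `e` to `e'`, and `z` is joined inside `ins` to a point of this arc,
then the strand of `z` does not end at `q`.
-/

set_option autoImplicit false

namespace Full.P5
open Function Relation

variable {τ : Type*} {T : Finset τ} {g w : Half τ → Half τ}

/-- simply connected (mod 2) except for the end `z` -/
def SCz (T : Finset τ) (g : Half τ → Half τ) (z : Half τ) : Prop :=
  ∀ χ : Half τ → ZMod 2, (∀ x, χ (g x) = χ x) → (∀ t ∈ T, ∑ d, χ (t, d) = 0) → χ z = 0 →
    ∃ c : Half τ → ZMod 2, Corner g c ∧ ∀ x : Half τ, x.1 ∈ T → c (rho x) = c x + χ x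

theorem SCz.of_sc (h : SC T g) (z : Half τ) : SCz T g z := fun χ h1 h2 _ => h χ h1 h2

/-- `u` is reached from `a` along the wall, through pairs of neighbouring boundary half edges which are
joined by `w` -/
inductive Arc (g w : Half τ → Half τ) (a : Half τ) : Half τ → Prop
  | base : Arc g w a a
  | step {u : Half τ} : Arc g w a u → w u = next g u → Arc g w a (next g (next g u))

theorem arc_bd (hG : Glu T g) {a u : Half τ} (ha : Bd T g a) (h : Arc g w a u) : Bd T g u := by
  induction h with
  | base => exact ha
  | step _ _ ih => exact hG.next_bd (hG.next_bd ih)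

/-- a side function is constant on the wall corners of an arc -/
theorem arc_const (hG : Glu T g) {c χ : Half τ → ZMod 2}
    (hc : Corner g c) (hr : ∀ x : Half τ, x.1 ∈ T → c (rho x) = c x + χ x) (hχ : ∀ x, χ (w x) = χ x)
    {a u : Half τ} (ha : Bd T g a) (h : Arc g w a u) : c u = c a := by
  induction h with
  | base => rfl
  | @step u hu hwu ih =>
    have hb := arc_bd hG ha hu
    have hb2 := hG.next_bd hb
    rw [hG.corner_next hc hb2.2, hr _ hb2.1, hG.corner_next hc hb.2, hr _ hb.1]
    have h1 := hχ u
    rw [hwu] at h1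
    rw [h1, ih, add_assoc, CharTwo.add_self_eq_zero, add_zero]

variable [DecidableEq τ]

section
variable (hG : Glu T g) (hw : Wall T g w) (ω : Finset τ)
include hG hw

omit hG in
/-- the side function of a strand of a closed wall -/
theorem side {z : Half τ} (hS : SCz T g z) {e : Half τ} (hne : ¬ Conn (mate ω) w e z) :
    ∃ c χ : Half τ → ZMod 2, Corner g c ∧ (∀ x : Half τ, x.1 ∈ T → c (rho x) = c x + χ x) ∧
      (∀ x, Conn (mate ω) w e x → χ x = 1) ∧ (∀ x, ¬ Conn (mate ω) w e x → χ x = 0) ∧
      (∀ x, χ (w x) = χ x) := by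
  obtain ⟨χ, h1, h2, h3, h4, h5⟩ := hw.toGlu.cross_closed ω e
  have hg : ∀ x, χ (g x) = χ x := fun x => by
    by_cases h : g x = x
    · rw [h]
    · rw [← hw.ext x h]; exact h3 x
  obtain ⟨c, hc, hcr⟩ := hS χ hg (fun t _ => h5 t) (h2 z hne)
  exact ⟨c, χ, hc, hcr, h1, h2, h3⟩

omit [DecidableEq τ] in
theorem wall_cases (x : Half τ) (hx : x.1 ∈ T) : w x = x ∨ (g x ≠ x ∧ w x = g x) ∨
    (Bd T g x ∧ w x = next g x) ∨ (Bd T g (w x) ∧ w (w x) = next g (w x)) := by
  by_cases h : g x = x
  · rcases hw.near x ⟨hx, h⟩ with h1 | h1 | h1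
    · exact Or.inl h1
    · exact Or.inr (Or.inr (Or.inl ⟨⟨hx, h⟩, h1⟩))
    · refine Or.inr (Or.inr (Or.inr ⟨⟨hw.mem x hx, ?_⟩, (hw.inv x).trans h1⟩))
      by_contra h2
      have h3 := hw.ext _ h2
      rw [hw.inv] at h3
      have h4 : g x = w x := by
        have h5 := congrArg g h3
        rwa [hG.inv] at h5
      rw [h] at h4
      rw [← h4] at h2
      exact h2 h
  · exact Or.inr (Or.inl ⟨h, hw.ext x h⟩)

/-- **polarity**: a strand of `w` which starts outside of `ins` at `s` never enters `ins` -/
theorem never {c χ col : Half τ → ZMod 2} {ins : Half τ → Prop} {κ : ZMod 2} {a : Half τ}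
    (ha : Bd T g a)
    (hc : Corner g c) (hr : ∀ x : Half τ, x.1 ∈ T → c (rho x) = c x + χ x) (hχ : ∀ x, χ (w x) = χ x)
    (hcol : Corner g col) (hcol1 : ∀ x : Half τ, x.1 ∈ T → ¬ ins x → col (rho x) = col x + 1)
    (ig : ∀ x : Half τ, x.1 ∈ T → g x ≠ x → (ins (g x) ↔ ins x))
    (im : ∀ x : Half τ, x.1 ∈ T → (ins (mate ω x) ↔ ins x))
    (iw : ∀ u, Bd T g u → w u = next g u → (ins (next g u) ↔ ins u) ∨
      (Arc g w a u ∧ col (next g u) = κ))
    {s : Half τ} (hs : Bd T w s) (hs1 : ∀ x, Conn (mate ω) w s x → χ x = 1) (hsi : ¬ ins s)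
    (hp : col s + c s = κ + c a) :
    ∀ x, Conn (mate ω) w s x → ¬ ins x := by
  have one : (1 : ZMod 2) + 1 = 0 := CharTwo.add_self_eq_zero 1
  have key : ∀ x, Conn (mate ω) w s x → x.1 ∈ T ∧ ¬ ins x ∧ col x + c x = κ + c a := by
    intro x hx
    induction hx with
    | refl => exact ⟨hs.1, hsi, hp⟩
    | @tail x y hsx h2 ih =>
      obtain ⟨iT, ii, ip⟩ := ih
      have hsy : Conn (mate ω) w s y := hsx.tail h2
      have hχx := hs1 x hsx
      have hχy := hs1 y hsy
      rcases h2 with rfl | rfl
      · -- inside a tile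
        have h3 : ¬ ins (mate ω x) := fun h => ii ((im x iT).1 h)
        refine ⟨iT, h3, ?_⟩
        rcases mate_cases ω x with e | e
        · rw [e, hcol1 x iT ii, hr x iT, hχx, ← ip]
          linear_combination one
        · have h4 := hcol1 (mate ω x) iT h3
          have h5 := hr (mate ω x) iT
          rw [e] at h4 h5
          rw [hχy] at h5
          rw [← ip, h4, h5]
          linear_combination -one
      · rcases wall_cases hG hw x iT with h3 | ⟨h3, h4⟩ | ⟨h3, h4⟩ | ⟨h3, h4⟩
        · rw [h3]; exact ⟨iT, ii, ip⟩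
        · -- a glued side
          rw [h4]
          refine ⟨hG.mem x iT, fun h => ii ((ig x iT h3).1 h), ?_⟩
          rw [hcol x h3, hc x h3, hcol1 x iT ii, hr x iT, hχx, ← ip]
          linear_combination one
        · -- bounce from `x` to `next g x`
          have e1 : col (next g x) = col x + 1 := by rw [hG.corner_next hcol h3.2, hcol1 x iT ii]
          have e2 : c (next g x) = c x + 1 := by rw [hG.corner_next hc h3.2, hr x iT, hχx]
          have hpn : col (next g x) + c (next g x) = κ + c a := by
            rw [e1, e2, ← ip]; linear_combination one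
          rw [h4]
          refine ⟨(hG.next_bd h3).1, ?_, hpn⟩
          rcases iw x h3 h4 with h5 | ⟨h5, h6⟩
          · exact fun h => ii (h5.1 h)
          · exfalso
            have h7 := arc_const hG hc hr hχ ha h5
            rw [h6, e2, h7] at hpn
            have h8 : (1 : ZMod 2) = 0 := by linear_combination hpn
            exact absurd h8 (by decide)
        · -- bounce from `x = next g u` to `u = w x`
          set u := w x with hu
          have hux : next g u = x := by rw [← h4, hu, hw.inv]
          have e2 : c x = c u + 1 := by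
            have h5 := hG.corner_next hc h3.2
            rw [hux, hr u h3.1, hχy] at h5
            exact h5
          have hui : ¬ ins u := by
            rcases iw u h3 h4 with h5 | ⟨h5, h6⟩
            · rw [hux] at h5
              exact fun h => ii (h5.2 h)
            · exfalso
              have h7 := arc_const hG hc hr hχ ha h5
              rw [hux] at h6
              rw [h6, e2, h7] at ip
              have h8 : (1 : ZMod 2) = 0 := by linear_combination ip
              exact absurd h8 (by decide)
          have e1 : col x = col u + 1 := by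
            have h5 := hG.corner_next hcol h3.2
            rw [hux, hcol1 u h3.1 hui] at h5
            exact h5
          refine ⟨h3.1, hui, ?_⟩
          rw [← ip, e1, e2]
          linear_combination -one
  exact fun x hx => (key x hx).2.1

/-- the side function is constant along the other strands -/
theorem const_other {c χ : Half τ → ZMod 2} (hc : Corner g c)
    (hr : ∀ x : Half τ, x.1 ∈ T → c (rho x) = c x + χ x)
    {p : Half τ} (hp : Bd T w p) (hp0 : ∀ x, Conn (mate ω) w p x → χ x = 0) :
    ∀ x, Conn (mate ω) w p x → c x = c p := by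
  have key : ∀ x, Conn (mate ω) w p x → x.1 ∈ T ∧ c x = c p := by
    intro x hx
    induction hx with
    | refl => exact ⟨hp.1, rfl⟩
    | @tail x y hsx h2 ih =>
      obtain ⟨iT, ip⟩ := ih
      have hsy : Conn (mate ω) w p y := hsx.tail h2
      have hχx := hp0 x hsx
      have hχy := hp0 y hsy
      rcases h2 with rfl | rfl
      · refine ⟨iT, ?_⟩
        rcases mate_cases ω x with e | e
        · rw [e, hr x iT, hχx, add_zero, ip]
        · have h5 := hr (mate ω x) iT
          rw [e, hχy, add_zero] at h5
          rw [← h5, ip]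
      · rcases wall_cases hG hw x iT with h3 | ⟨h3, h4⟩ | ⟨h3, h4⟩ | ⟨h3, h4⟩
        · rw [h3]; exact ⟨iT, ip⟩
        · rw [h4]
          exact ⟨hG.mem x iT, by rw [hc x h3, hr x iT, hχx, add_zero, ip]⟩
        · rw [h4]
          exact ⟨(hG.next_bd h3).1, by rw [hG.corner_next hc h3.2, hr x iT, hχx, add_zero, ip]⟩
        · have hux : next g (w x) = x := by rw [← h4, hw.inv]
          refine ⟨h3.1, ?_⟩
          have h5 := hG.corner_next hc h3.2
          rw [hux, hr _ h3.1, hχy, add_zero] at h5
          rw [← h5, ip]
  exact fun x hx => (key x hx).2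

/-- **a circuit around a boundary point of the arc from `e` to `e'`: the strand of `z` does not end
at `q`** -/
theorem block {z e e' q : Half τ} (hS : SCz T g z) (hz : Bd T w z) (he : Bd T w e) (he' : Bd T w e')
    (hze : z ≠ e) (hze' : z ≠ e') (hqe : q ≠ e)
    (four : ∀ x, Bd T w x → x = z ∨ x = e ∨ x = e' ∨ x = q)
    (A1 : Arc g w (next g e) e') (A2 : Arc g w (next g e') q) (heg : g e = e) (heg' : g e' = e')
    {ins : Half τ → Prop} {col : Half τ → ZMod 2} {κ : ZMod 2}
    (hcol : Corner g col) (hcol1 : ∀ x : Half τ, x.1 ∈ T → ¬ ins x → col (rho x) = col x + 1)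
    (ig : ∀ x : Half τ, x.1 ∈ T → g x ≠ x → (ins (g x) ↔ ins x))
    (im : ∀ x : Half τ, x.1 ∈ T → (ins (mate ω x) ↔ ins x))
    (iw : ∀ u, Bd T g u → w u = next g u → (ins (next g u) ↔ ins u) ∨
      (Arc g w (next g e) u ∧ col (next g u) = κ))
    (hei : ¬ ins e) (hei' : ¬ ins e') (hκ : col (rho e) = κ ∨ col e' = κ)
    {b : Half τ} (hb : Arc g w (next g e) b)
    (hzb : Relation.ReflTransGen (fun x y : Half τ => x.1 ∈ T ∧ ins x ∧ (y = rho x ∨ y = g x)) z b) :
    other (mate ω) w z ≠ q := by
  intro hzq
  have hW := hw.toGlu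
  have one : (1 : ZMod 2) + 1 = 0 := CharTwo.add_self_eq_zero 1
  -- the strand of `e` ends at `e'`
  have hoz : other (mate ω) w e = e' := by
    rcases four _ (hW.other_bd he) with h | h | h | h
    · exfalso
      have h1 := hW.other_other (ω := ω) he
      rw [h, hzq] at h1
      exact hqe h1
    · exact absurd h (hW.other_ne he)
    · exact h
    · exfalso
      have h1 := hW.other_other (ω := ω) he
      rw [h, ← hzq, hW.other_other hz] at h1
      exact hze h1
  have hne : ¬ Conn (mate ω) w e z := fun h => by
    rcases (hW.conn_iff he hz).1 h with h1 | h1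
    · exact hze h1
    · exact hze' (h1.trans hoz)
  obtain ⟨c, χ, hc, hr, h1, h0, hχ⟩ := side hw ω hS hne
  have hbe : Bd T g e := ⟨he.1, heg⟩
  have hbe' : Bd T g e' := ⟨he'.1, heg'⟩
  have ha : Bd T g (next g e) := hG.next_bd hbe
  have hce : c (next g e) = c e + 1 := by
    rw [hG.corner_next hc heg, hr e he.1, h1 e (Conn.refl _)]
  have hce' : c e' = c (next g e) := arc_const hG hc hr hχ ha A1
  have hconn : Conn (mate ω) w e e' := by rw [← hoz]; exact Two.conn_other e
  have hT2 := hW.two ω
  -- the strand never enters `ins`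
  have never1 : ∀ x, Conn (mate ω) w e x → ¬ ins x := by
    rcases hκ with h | h
    · refine never hG hw ω ha hc hr hχ hcol hcol1 ig im iw he h1 hei ?_
      rw [hce, ← h, hcol1 e he.1 hei]
      linear_combination -one
    · intro x hx
      refine never hG hw ω ha hc hr hχ hcol hcol1 ig im iw he'
        (fun y hy => h1 y (hconn.trans hy)) hei' ?_ x ((hT2.symm hconn).trans hx)
      rw [h, hce']
  -- values of the side function
  have hcq : c q = c (next g e) + 1 := by
    rw [arc_const hG hc hr hχ (hG.next_bd hbe') A2, hG.corner_next hc heg', hr e' he'.1,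
      h1 e' hconn, hce']
  have hcz : c q = c z := by
    rw [← hzq]
    refine const_other hG hw ω hc hr hz (fun x hx => h0 x fun h => hne ?_) _ (Two.conn_other z)
    exact h.trans (hT2.symm hx)
  have hcb : c b = c (next g e) := arc_const hG hc hr hχ ha hb
  have hch : ∀ x, Relation.ReflTransGen
      (fun x y : Half τ => x.1 ∈ T ∧ ins x ∧ (y = rho x ∨ y = g x)) z x → c x = c z := by
    intro x hx
    induction hx with
    | refl => rfl
    | @tail x y _ h2 ih =>
      obtain ⟨i1, i2, i3⟩ := h2
      have hχx : χ x = 0 := h0 x fun h => never1 x h i2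
      rcases i3 with rfl | rfl
      · rw [hr x i1, hχx, add_zero, ih]
      · by_cases h3 : g x = x
        · rw [h3]; exact ih
        · rw [hc x h3, hr x i1, hχx, add_zero, ih]
  have h9 := hch b hzb
  rw [hcb, ← hcz, hcq] at h9
  have h8 : (1 : ZMod 2) = 0 := by linear_combination -h9
  exact absurd h8 (by decide)

/-- strands do not leave a set which is closed under all three steps (a circuit whose colour is the
colour of all the walls it meets) -/
theorem stays {ins : Half τ → Prop} (ig : ∀ x : Half τ, x.1 ∈ T → g x ≠ x → (ins (g x) ↔ ins x))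
    (im : ∀ x : Half τ, x.1 ∈ T → (ins (mate ω x) ↔ ins x))
    (iw : ∀ u, Bd T g u → w u = next g u → (ins (next g u) ↔ ins u))
    {p : Half τ} (hp : p.1 ∈ T) {x : Half τ} (hx : Conn (mate ω) w p x) : ins x ↔ ins p := by
  have key : x.1 ∈ T ∧ (ins x ↔ ins p) := by
    induction hx with
    | refl => exact ⟨hp, Iff.rfl⟩
    | @tail x y _ h2 ih =>
      obtain ⟨iT, ip⟩ := ih
      rcases h2 with rfl | rfl
      · exact ⟨iT, (im x iT).trans ip⟩
      · refine ⟨hw.mem x iT, ?_⟩
        rcases wall_cases hG hw x iT with h3 | ⟨h3, h4⟩ | ⟨h3, h4⟩ | ⟨h3, h4⟩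
        · rw [h3]; exact ip
        · rw [h4]; exact (ig x iT h3).trans ip
        · rw [h4]; exact (iw x h3 h4).trans ip
        · have hux : next g (w x) = x := by rw [← h4, hw.inv]
          have h5 := iw _ h3 h4
          rw [hux] at h5
          exact h5.symm.trans ip
  exact key.2

end

end Full.P5
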