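import Pool.Agent.Full.P5.Bd

/-!
# The exit near an arc

If `z` is joined to the arc `j` by a short path of tiles, and the arc `i ≠ j` is far, then the strand of
`z` ends at the mark `e j` (opposite to the arc `j`) only with small probability.
-/

set_option autoImplicit false
set_option linter.unusedSectionVars false

namespace Full.P5
open Function Relation
open Pool.Agent.Helper69.RSW (P P_mono P_congr P_restrict Dep P_nonneg P_le_one P_or_le)

section
variable {τ : Type} [DecidableEq τ] {T : Finset τ} {g w : Half τ → Half τ} {z : Half τ} {e : Fin 3 → Half τ}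
  {lab : Half τ → Fin 3} {pos : Half τ → ℤ × ℤ} {kt : Dir → τ → ℤ × ℤ} {m : ℕ}

lemma fj2 : ∀ j : Fin 3, j + 2 ≠ j := by decide

/-- if the strand of `z` ends at the mark opposite to the arc of `b`, then there is an arm -/
theorem arm_of_exit (h : Lab T g w z e lab) (hP : Pos T g pos kt m) {b : Half τ}
    {i : Fin 3} (hi : i ≠ lab b) {B : Set τ} (hzB : z.1 ∈ B) {r R : ℤ}
    (hB : ∀ x : Half τ, x.1 ∈ T → x.1 ∈ B → nrm (pos x) ≤ r) (hrR : r < R)
    (hnear : ∀ u, Bd T g u → u ≠ z → nrm (pos u) < R + 2 → lab u ≠ i) {K : Finset τ}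
    (hK : ∀ t ∈ T, t ∉ B → t ∈ K) {c cut : Half τ → ZMod 2} (hc : CutCol T g z b B c cut) {ω : Finset τ}
    (hj : other (mate ω) w z = e (lab b)) :
    ∃ u v, nrm (pos0 T pos u) ≤ r + 2 ∧ R ≤ nrm (pos0 T pos v) ∧
      ReflTransGen (St (ga c (c (e (i + 2)))) (gb c (c (e (i + 2)))) (Sm T pos kt m)
        (Sg K c (c (e (i + 2))) ω)) u v := by
  have one : (1 : ZMod 2) + 1 = 0 := CharTwo.add_self_eq_zero 1
  have hG := h.glu
  set j := lab b with hjb
  have hbe : ∀ k, Bd T g (e k) := fun k => h.bd_of_w (h.be k)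
  -- the two ends of the arc `i` are far
  have hfar1 : ¬ nrm (pos (rho (e (i + 1)))) < R + 2 := by
    intro hh
    have h1 := (hP.sm_next hG (hbe (i + 1))).2.2.1
    have h2 : lab (next g (e (i + 1))) = i := by rw [(h.lab_e (i + 1)).2, f12]
    by_cases h3 : next g (e (i + 1)) = z
    · have h4 : next g z ≠ z := by
        rcases h.next_e_ne (i + 1) with h5 | h5
        · rw [h3] at h5; exact h5
        · exact absurd h3 h5
      have h5 : lab (next g z) = i := by
        rw [h.step z (h.bd_of_w h.bz) h.ze, ← h3, h2]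
      have h6 := (hP.sm_next hG (h.bd_of_w h.bz)).2.2.1
      have h7 := hB (rho z) h.bz.1 hzB
      rw [h6] at h7
      exact hnear _ (hG.next_bd (h.bd_of_w h.bz)) h4 (by omega) h5
    · rw [h1] at hh
      exact hnear _ (hG.next_bd (hbe _)) h3 hh h2
  have hfar2 : ¬ nrm (pos (e (i + 2))) < R + 2 := fun hh =>
    hnear _ (hbe _) (Ne.symm (h.ze _)) hh (by rw [(h.lab_e _).1, f21])
  have hB1 : (e (i + 1)).1 ∉ B := fun hm =>
    hfar1 (lt_of_le_of_lt (hB (rho (e (i + 1))) (h.be _).1 hm) (by omega))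
  have hB2 : (e (i + 2)).1 ∉ B := fun hm =>
    hfar2 (lt_of_le_of_lt (hB (e (i + 2)) (h.be _).1 hm) (by omega))
  obtain ⟨c₁, hc₁⟩ := h.mk'.col hj
  have hzc : 1 + cut z = 0 := by rw [hc.zc, one]
  have vb : c (rho (e j)) = c (e (j + 1)) :=
    h.val_next hc.corner hc.nx hzc j (hc.pair h (i := j + 2) (fj2 j))
  have hne : e j ≠ b := fun h1 => by
    have h2 := (h.lab_e j).1
    rw [h1, ← hjb] at h2
    exact fn1 j h2.symm
  have vc : c (rho (e j)) ≠ c (e j) := by
    rw [hc.nx _ (h.be j).1, hc.bd _ (hbe j).2 (Ne.symm (h.ze j)) hne, add_zero]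
    exact z2' _
  obtain ⟨x, hx⟩ := link_half (B := B) (T₂ := T) (w₂ := w) (z₂ := z) (ω₂ := ω) h.mk'
    ⟨fun t _ => Iff.rfl, fun t _ _ => Iff.rfl, fun x _ _ => rfl, fun x _ _ => rfl, Or.inl rfl⟩ hj hi hB1 hB2
    hc₁ (fun hs => hc.st h hzB hs) (v₂ := fun k => c (e (k + 2))) (by show _ = c (e (j + 1 + 2)); rw [f12])
    (by show _ = c (e (j + 2 + 2)); rw [f22]; exact vb)
    (by show c (e (j + 1 + 2)) ≠ c (e (j + 2 + 2)); rw [f12, f22, ← vb]; exact Ne.symm vc)
  -- the start of the path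
  obtain ⟨s, hs, hsR, hsc⟩ : ∃ s, ReflTransGen (StS B T w w z z ω) s x ∧ R ≤ nrm (pos s) ∧
      c s = c (e (i + 2)) := by
    rcases hx.path with hp | hp
    · exact ⟨_, hp, by omega, rfl⟩
    · refine ⟨_, hp, by omega, ?_⟩
      have h1 := h.val_next hc.corner hc.nx hzc (i + 1) (hc.pair h (i := i + 1 + 2) (by rw [f12]; exact hi))
      rw [f11] at h1
      exact h1
  have k1 : ∀ {x y : Half τ}, StS B T w w z z ω x y → c₁ y = c₁ x := fun hs => hc₁.st h.mk' hs
  have k2 : ∀ {x y : Half τ}, StS B T w w z z ω x y → c y = c x := fun hs => hc.st h hzB hs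
  have hcc : ∀ y, ReflTransGen (StS B T w w z z ω) s y → c y = c (e (i + 2)) := fun y hy =>
    (st_path_const k2 hy).trans hsc
  have hcz : c₁ (rho z) = c₁ z := by rw [(hc₁.hit _ (Conn.refl _)).1, (hc₁.hit _ (Conn.refl _)).2]
  have hwall : ∀ y, Bd T g y → w y = next g y → w y ≠ y → nrm (pos y) < R + 2 →
      ReflTransGen (StS B T w w z z ω) s y → False := by
    intro y hy hwy hwy' hyR hsy
    have hyz : y ≠ z := fun h1 => hwy' (by rw [h1]; exact h.bz.2)
    have hyi := hnear y hy hyz hyR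
    have e1 : c₁ y = c₁ (e (i + 2)) := by
      rw [st_path_const k1 hsy, ← st_path_const k1 hs, hx.val1]
    have e2 := h.val_w hc₁.corner hcz hy (Or.inr hyz) (Or.inl hwy)
    have e3 := hx.sep (lab y) hyi (by show c₁ (e (lab y + 2)) = c₁ (e (i + 2)); rw [← e2, e1])
    by_cases h4 : lab y = j
    · rw [h4] at e2
      rw [hc₁.e2, e1] at e2
      rcases f0 hi with h5 | h5
      · rw [h5, f12, hc₁.e0] at e2
        exact absurd e2 (by decide)
      · rw [h5, f22, hc₁.e1] at e2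
        exact absurd e2 (by decide)
    · exact e3 ((hc.val h h4 hy (Or.inr hyz) rfl (Or.inl hwy)).symm.trans (hcc y hsy))
  obtain ⟨v, hv1, hv2, hv3⟩ := arm_of_path hG h.wall hP hK
    (fun x hx hxB => by rw [hc.nx x hx, hc.supp x hxB, add_zero]) hzB hs hsR hcc hwall
  have hvT : v.1 ∈ T := by
    rcases hv2 with h1 | h1
    · rw [h1]; exact hx.mem
    · exact h1
  refine ⟨x, v, ?_, by rw [pos0_eq hvT]; exact hv1, hv3⟩
  rw [pos0_eq hx.mem]
  obtain ⟨x', h1, h2⟩ := hx.exit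
  rw [or_self] at h2
  have h3 : x'.1 ∈ T := by rw [h1]; exact hx.mem
  have h4 : w x' ≠ x' := fun h4 => hx.out (by rw [← h1, ← h4]; exact h2)
  have h5 := hP.nrm_tile (x := x) (y := x') hx.mem h1.symm
  rcases hP.sm_w hG h.wall h3 h4 with h6 | ⟨h6, h7⟩
  · have h8 := hB (rho (w x')) (h.wall.mem x' h3) h2
    rw [← h6.2.2.1] at h8
    omega
  · have h8 := hB (w x') (h.wall.mem x' h3) h2
    rw [h7, ← (hP.sm_next hG h6).2.2.1] at h8
    have h9 := hP.nrm_tile (x := x) (y := rho x') hx.mem h1.symm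
    omega

end

/-- the tiles near the centre -/
def Bl {τ : Type} (T : Finset τ) (pos : Half τ → ℤ × ℤ) (r : ℤ) : Set τ :=
  {t | ∀ d, t ∈ T → nrm (pos (t, d)) ≤ r}

/-- **exit near an arc**: `z` is joined to the boundary half edge `b` by a short path and the arc `i`,
which does not contain `b`, is far; then the strand of `z` rarely ends at the mark opposite to `b` -/
theorem exit_le : ∃ C c : ℝ, 0 < C ∧ 0 < c ∧ ∀ (τ : Type) (_ : DecidableEq τ) (T : Finset τ)
    (g w : Half τ → Half τ) (z : Half τ) (e : Fin 3 → Half τ) (lab : Half τ → Fin 3)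
    (pos : Half τ → ℤ × ℤ) (kt : Dir → τ → ℤ × ℤ) (m : ℕ) (b : Half τ) (i : Fin 3) (r R : ℕ),
    Lab T g w z e lab → Pos T g pos kt m → Bd T g b → b ≠ z → i ≠ lab b → 1 ≤ r → m ≤ r → 1 ≤ R →
    nrm (pos z) ≤ r →
    ReflTransGen (fun u v : Half τ => u.1 ∈ T ∧ nrm (pos u) ≤ r ∧ (v = rho u ∨ v = g u)) z b →
    (∀ u, Bd T g u → u ≠ z → nrm (pos u) < R → lab u ≠ i) →
    P T (fun ω => other (mate ω) w z = e (lab b)) ≤ C * ((r : ℝ) / R) ^ c := by
  obtain ⟨C, c, hC, hc, harm⟩ := arm_le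
  refine ⟨max 1 C * 6 ^ c, c, by positivity, hc, ?_⟩
  intro τ _ T g w z e lab pos kt m b i r R h hP hb hbz hi hr hm hR hzr hp hnear
  have hr0 : (0 : ℝ) < r := by exact_mod_cast hr
  have hR0 : (0 : ℝ) < R := by exact_mod_cast hR
  by_cases hRr : R ≤ r + 5
  · -- trivial bound
    have h1 : (1 : ℝ) ≤ 6 * ((r : ℝ) / R) := by
      rw [mul_div_assoc', le_div_iff₀ hR0, one_mul]
      have h2 : R ≤ 6 * r := by omega
      exact_mod_cast h2
    have h2 : (1 : ℝ) ≤ (6 * ((r : ℝ) / R)) ^ c := Real.one_le_rpow h1 hc.le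
    rw [Real.mul_rpow (by norm_num) (by positivity)] at h2
    have h3 := P_le_one (F := T) (A := fun ω => other (mate ω) w z = e (lab b))
    calc P T (fun ω => other (mate ω) w z = e (lab b)) ≤ 1 := h3
      _ ≤ 6 ^ c * ((r : ℝ) / R) ^ c := h2
      _ ≤ max 1 C * 6 ^ c * ((r : ℝ) / R) ^ c := by
        have h4 : (1 : ℝ) ≤ max 1 C := le_max_left _ _
        have h5 : (0 : ℝ) ≤ 6 ^ c * ((r : ℝ) / R) ^ c := by positivity
        nlinarith
  · classical
    set B : Set τ := Bl T pos (r + 1) with hBd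
    have hG := h.glu
    have hzB : z.1 ∈ B := by
      intro d _
      have := hP.nrm_tile (x := (z.1, d)) (y := z) h.bz.1 rfl
      omega
    have hBB : ∀ x : Half τ, x.1 ∈ T → x.1 ∈ B → nrm (pos x) ≤ r + 1 := fun x hx hxB => hxB x.2 hx
    have hp' : ReflTransGen (fun x y : Half τ => y.1 ∈ B ∧ (y = rho x ∨ y = g x)) z b := by
      refine ReflTransGen.mono ?_ z b hp
      rintro u v ⟨h1, h2, rfl | rfl⟩
      · refine ⟨fun d _ => ?_, Or.inl rfl⟩
        have := hP.nrm_tile (x := (u.1, d)) (y := u) h1 rfl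
        show nrm (pos (u.1, d)) ≤ _
        omega
      · refine ⟨fun d _ => ?_, Or.inr rfl⟩
        by_cases h3 : g u = u
        · rw [h3]
          have := hP.nrm_tile (x := (u.1, d)) (y := u) h1 rfl
          omega
        · have h4 := (hP.sm hG h1 h3).2.2.1
          have := hP.nrm_tile (x := ((g u).1, d)) (y := rho (g u)) (hG.mem u h1) rfl
          rw [← h4] at this
          omega
    obtain ⟨cc, cut, hcc⟩ := exists_cutCol hG h.sc (h.bd_of_w h.bz) hb hbz hzB hp'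
    set K : Finset τ := T.filter fun t => t ∉ B with hK
    have hKT : K ⊆ T := Finset.filter_subset _ _
    set ε := cc (e (i + 2)) with hε
    have h1 : P T (fun ω => other (mate ω) w z = e (lab b)) ≤
        P T (fun ω => ∃ u v, nrm (pos0 T pos u) ≤ ((r + 3 : ℕ) : ℤ) ∧ ((R - 2 : ℕ) : ℤ) ≤ nrm (pos0 T pos v) ∧
          ReflTransGen (St (ga cc ε) (gb cc ε) (Sm T pos kt m) (Sg K cc ε ω)) u v) := by
      refine P_mono fun ω _ hω => ?_
      obtain ⟨u, v, h2, h3, h4⟩ := arm_of_exit h hP (r := r + 1) (R := R - 2) hi hzB hBB (by omega)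
        (fun u hu huz hur => hnear u hu huz (by omega)) (K := K)
        (fun t ht htB => Finset.mem_filter.2 ⟨ht, htB⟩) hcc hω
      exact ⟨u, v, by push_cast; omega, by omega, h4⟩
    have h2 : P T (fun ω => ∃ u v, nrm (pos0 T pos u) ≤ ((r + 3 : ℕ) : ℤ) ∧
          ((R - 2 : ℕ) : ℤ) ≤ nrm (pos0 T pos v) ∧
          ReflTransGen (St (ga cc ε) (gb cc ε) (Sm T pos kt m) (Sg K cc ε ω)) u v) =
        P K (fun S => ∃ u v, nrm (pos0 T pos u) ≤ ((r + 3 : ℕ) : ℤ) ∧
          ((R - 2 : ℕ) : ℤ) ≤ nrm (pos0 T pos v) ∧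
          ReflTransGen (St (ga cc ε) (gb cc ε) (Sm T pos kt m) S) u v) :=
      P_good hKT (fun t => cc (t, .E) ≠ ε) (fun S => ∃ u v, nrm (pos0 T pos u) ≤ ((r + 3 : ℕ) : ℤ) ∧
          ((R - 2 : ℕ) : ℤ) ≤ nrm (pos0 T pos v) ∧
          ReflTransGen (St (ga cc ε) (gb cc ε) (Sm T pos kt m) S) u v)
    have h3 := harm τ (Half τ) inferInstance K (ga cc ε) (gb cc ε) (Sm T pos kt m) (pos0 T pos) kt (kv kt) m
      (r + 3) (R - 2) (hP.charts hKT cc ε) (by omega) (by omega) (by omega)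
    rw [h2] at h1
    refine (h1.trans h3).trans ?_
    have h4 : (((r + 3 : ℕ) : ℝ) / ((R - 2 : ℕ) : ℝ)) ≤ 6 * ((r : ℝ) / R) := by
      have h5 : (0 : ℝ) < ((R - 2 : ℕ) : ℝ) := by exact_mod_cast (show 0 < R - 2 by omega)
      rw [mul_div_assoc', div_le_div_iff₀ h5 hR0]
      have h6 : (r + 3) * R ≤ 6 * r * (R - 2) := by
        obtain ⟨R', rfl⟩ : ∃ R', R = R' + 2 := ⟨R - 2, by omega⟩
        rw [Nat.add_sub_cancel]
        nlinarith
      exact_mod_cast h6
    calc C * (((r + 3 : ℕ) : ℝ) / ((R - 2 : ℕ) : ℝ)) ^ c ≤ C * (6 * ((r : ℝ) / R)) ^ c :=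
        mul_le_mul_of_nonneg_left (Real.rpow_le_rpow (by positivity) h4 hc.le) hC.le
      _ = C * 6 ^ c * ((r : ℝ) / R) ^ c := by
        rw [Real.mul_rpow (by norm_num) (by positivity)]; ring
      _ ≤ max 1 C * 6 ^ c * ((r : ℝ) / R) ^ c := by
        have h4 : C ≤ max 1 C := le_max_right _ _
        have h5 : (0 : ℝ) ≤ 6 ^ c * ((r : ℝ) / R) ^ c := by positivity
        nlinarith

end Full.P5
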