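import Pool.Agent.Full.P5.Obs

/-!
# Exit probabilities near the arcs and the marks of a shape
-/

set_option autoImplicit false
set_option linter.unusedSectionVars false

namespace Full.P5
open Function Relation Full.Shape
open Pool.Agent.Helper69.RSW (P P_mono P_congr P_nonneg P_le_one)

/-- one step of a path in the domain with the end `z`, at distance at most `r` from `z` -/
abbrev ZSt (S : Shape) (n : ℕ) (s : S.Q × Bool → ℕ) (q : S.Q) (x y r : ℤ) : Half ZT → Half ZT → Prop :=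
  PS (S.zT n s q y) (S.zg n s q x y) fun u => nrm (zpos x y u) ≤ r

/-- labels of the boundary of the domain with the end `z` -/
structure ZL {S : Shape} (m : S.Marks) (n : ℕ) (s : S.Q × Bool → ℕ) (σ : Fin 4 → ℕ) (q : S.Q) (x y : ℤ)
    (lab : Half ZT → Fin 4) : Prop where
  step : ∀ u, Bd (S.zT n s q y) (S.zg n s q x y) u → u ≠ zz x y → (∀ j, u ≠ m.ez n σ q j) →
    lab (next (S.zg n s q x y) u) = lab u
  bd : ∀ j, Bd (S.zT n s q y) (S.zg n s q x y) (m.ez n σ q j)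
  lab_e : ∀ j, lab (m.ez n σ q j) = j - 1 ∧ lab (next (S.zg n s q x y) (m.ez n σ q j)) = j
  near : ∀ u, Bd (S.zT n s q y) (S.zg n s q x y) u → u ≠ zz x y → ∀ t : ℤ × ℤ, (u.1 = .inl t ∨ u.1 = .inr t) →
    Metric.infDist (⟨(t.1 : ℝ) / n, (t.2 : ℝ) / n⟩ : ℂ) (m.arc (lab u)) ≤ 1 / 2

section
variable {S : Shape} {m : S.Marks} {n : ℕ} {s : S.Q × Bool → ℕ} {σ : Fin 4 → ℕ} {q : S.Q} {x y : ℤ}
  {lab : Half ZT → Fin 4}

lemma arc_sub_opp (k : Fin 4) : m.arc k ⊆ m.opp (tr k) := by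
  intro w hw
  fin_cases k
  · exact hw
  · exact hw
  · exact Or.inl hw
  · exact Or.inr hw

lemma zpos_zz : zpos x y (zz x y) = (0, 0) := by
  show (clps x (x + 1), y - 1 + 1 - y) = _
  have h := clps_cases x (x + 1)
  rw [Prod.mk.injEq]
  omega

lemma nrm_zero : nrm ((0, 0) : ℤ × ℤ) = 0 := by decide

/-- the boundary half edges near `z` have the label of a near arc -/
theorem ZL.far (hl : ZL m n s σ q x y lab) (hm : m.Ok) (hn : 8 ≤ n) {z : ℂ}
    (hx : |(x : ℝ) - n * z.re| ≤ 1) (hy : |(y : ℝ) - n * z.im| ≤ 1) {i : Fin 3} {R : ℝ} (hR : 2 < R)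
    (hfar : ∀ w ∈ m.opp i, R ≤ dist z w) {u : Half ZT} (hu : Bd (S.zT n s q y) (S.zg n s q x y) u)
    (huz : u ≠ zz x y) (hr : (nrm (zpos x y u) : ℝ) ≤ n * (R / 4)) : tr (lab u) ≠ i := by
  intro hi
  obtain ⟨t, ht⟩ : ∃ t, u.1 = .inl t ∨ u.1 = .inr t := by
    rcases hu1 : u.1 with t | t
    · exact ⟨t, Or.inl rfl⟩
    · exact ⟨t, Or.inr rfl⟩
  have h1 := infDist_le_of_zpos hn hx hy ht hr (hl.near u hu huz t ht)
  have h2 : R ≤ Metric.infDist z (m.arc (lab u)) := by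
    rw [Metric.le_infDist (arc_nonempty hm _)]
    exact fun w hw => hfar w (hi ▸ arc_sub_opp _ hw)
  linarith

end

/-- **exit near a boundary half edge `b`**: the arc `i` which does not contain `b` is far -/
theorem near_le : ∃ C c : ℝ, 0 < C ∧ 0 < c ∧ ∀ (S : Shape), S.Ok → ∀ (m : S.Marks), m.Ok →
    ∀ (n : ℕ) (s : S.Q × Bool → ℕ), S.Small n s → ∀ (σ : Fin 4 → ℕ) (q : S.Q) (x y : ℤ), S.In n s q x y →
    ∀ (z : ℂ), |(x : ℝ) - n * z.re| ≤ 1 → |(y : ℝ) - n * z.im| ≤ 1 → ∀ (lab : Half ZT → Fin 4),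
    ZL m n s σ q x y lab → ∀ (w : Half ZT → Half ZT),
    IsW (S.zT n s q y) (S.zg n s q x y) ({zz x y} ∪ Set.range fun j : Fin 3 => m.ez n σ q j.castSucc) w →
    ∀ (b : Half ZT), Bd (S.zT n s q y) (S.zg n s q x y) b → b ≠ zz x y → ∀ (i : Fin 3), i ≠ tr (lab b) →
    ∀ (δ R : ℝ) (r : ℕ), 1 ≤ δ → 0 < R → 1 ≤ r → (r : ℝ) ≤ 16 * (n * δ) →
    ReflTransGen (ZSt S n s q x y r) (zz x y) b → (∀ w ∈ m.opp i, R ≤ dist z w) →
    ex (S.zT n s q y) w (zz x y) (fun j => m.ez n σ q j.castSucc) (tr (lab b)) ≤ C * (δ / R) ^ c := by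
  obtain ⟨C, c, hC, hc, hex⟩ := exit_le
  refine ⟨max 1 C * 128 ^ c, c, by positivity, hc, ?_⟩
  intro S hS m hm n s hs σ q x y hin z hx hy lab hl w hw b hb hbz i hi δ R r hδ hR hr1 hr hp hfar
  have hn := hs.1
  have hn0 : (8 : ℝ) ≤ n := by exact_mod_cast hn
  have hM : (1 : ℝ) ≤ max 1 C := le_max_left _ _
  have hMC : C ≤ max 1 C := le_max_right _ _
  by_cases hR4 : R ≤ 4
  · have h1 : (1 : ℝ) ≤ 128 * (δ / R) := by
      rw [mul_div_assoc', le_div_iff₀ hR]
      linarith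
    have h2 : (1 : ℝ) ≤ (128 * (δ / R)) ^ c := Real.one_le_rpow h1 hc.le
    rw [Real.mul_rpow (by norm_num) (by positivity)] at h2
    have h3 : ex (S.zT n s q y) w (zz x y) (fun j => m.ez n σ q j.castSucc) (tr (lab b)) ≤ 1 := P_le_one _ _
    have h5 : (0 : ℝ) ≤ 128 ^ c * (δ / R) ^ c := by positivity
    nlinarith
  · have hR4 : 4 < R := not_le.1 hR4
    set N : ℕ := ⌊n * R / 4⌋₊ with hN
    have hN1 : (N : ℝ) ≤ n * R / 4 := Nat.floor_le (by positivity)
    have hN2 : n * R / 4 < N + 1 := Nat.lt_floor_add_one _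
    have hN3 : n * R / 8 ≤ N := by nlinarith
    have hN0 : (0 : ℝ) < N := by nlinarith
    have hL := zlab hS hs hin hl.step hl.bd hl.lab_e hw
    have h1 := hex ZT inferInstance _ _ _ _ _ _ _ _ 1 b i r N hL (zpos_pos hS hs.two hin) hb hbz hi hr1 hr1
      (by exact_mod_cast hN0) (by rw [zpos_zz, nrm_zero]; positivity) hp (fun u hu huz hur => by
        refine hl.far hm hn hx hy (by linarith) hfar hu huz ?_
        have h2 : (nrm (zpos x y u) : ℝ) < N := by exact_mod_cast hur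
        linarith)
    refine h1.trans ?_
    have h4 : ((r : ℝ) / N) ≤ 128 * (δ / R) := by
      rw [mul_div_assoc', div_le_div_iff₀ hN0 hR]
      nlinarith
    calc C * ((r : ℝ) / N) ^ c ≤ C * (128 * (δ / R)) ^ c :=
        mul_le_mul_of_nonneg_left (Real.rpow_le_rpow (by positivity) h4 hc.le) hC.le
      _ = C * 128 ^ c * (δ / R) ^ c := by
        rw [Real.mul_rpow (by norm_num) (by positivity)]; ring
      _ ≤ max 1 C * 128 ^ c * (δ / R) ^ c := by
        have h5 : (0 : ℝ) ≤ 128 ^ c * (δ / R) ^ c := by positivity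
        nlinarith

section
variable {S : Shape} {m : S.Marks} {n : ℕ} {s : S.Q × Bool → ℕ} {σ : Fin 4 → ℕ} {q : S.Q} {x y : ℤ}
  {lab : Half ZT → Fin 4}

/-- the end of a short path is near -/
lemma path_end {r : ℤ} (hr : 0 ≤ r) {b : Half ZT} (hp : ReflTransGen (ZSt S n s q x y r) (zz x y) b) :
    nrm (zpos x y b) ≤ r + 1 := by
  rcases ReflTransGen.cases_tail hp with h | ⟨u, -, hu, h1, h2⟩
  · rw [h, zpos_zz, nrm_zero]; omega
  · rcases h2 with rfl | rfl
    · have h3 := zpos_step (x := x) (y := y) u.1 (rho u).2 u.2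
      have h4 := nrm_near h3.1 h3.2
      exact h4.trans (by have h5 : nrm (zpos x y (u.1, u.2)) ≤ r := h1; omega)
    · by_cases h3 : S.zg n s q x y u = u
      · rw [h3]; omega
      · have h4 := (zsm_rot h3).1
        have h5 := zpos_step (x := x) (y := y) (S.zg n s q x y u).1 (S.zg n s q x y u).2
          (rho (S.zg n s q x y u)).2
        have h6 := nrm_near h5.1 h5.2
        have h7 : nrm (zpos x y (rho (S.zg n s q x y u))) ≤ r := by rw [h4]; exact h1
        exact h6.trans (by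
          have h8 : nrm (zpos x y ((S.zg n s q x y u).1, (rho (S.zg n s q x y u)).2)) ≤ r := h7
          omega)

lemma zst_mono {r r' : ℤ} (h : r ≤ r') {u v : Half ZT} (hp : ReflTransGen (ZSt S n s q x y r) u v) :
    ReflTransGen (ZSt S n s q x y r') u v :=
  ReflTransGen.mono (fun _ _ (h1 : ZSt S n s q x y r _ _) =>
    (⟨h1.1, h1.2.1.trans h, h1.2.2⟩ : ZSt S n s q x y r' _ _)) _ _ hp

/-- around a corner, to the next boundary half edge -/
theorem path_next {r : ℤ} {u : Half ZT} (hu : Bd (S.zT n s q y) (S.zg n s q x y) u)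
    (hr : nrm (zpos x y u) ≤ r) : ReflTransGen (ZSt S n s q x y (r + 2)) u (next (S.zg n s q x y) u) := by
  have hG : Glu (S.zT n s q y) (S.zg n s q x y) := Surf.glu _ _
  obtain ⟨k, hk, h1, -, h2⟩ := hG.next_spec hu.2
  have key : ∀ j, 1 ≤ j → j ≤ k → ((rot (S.zg n s q x y))^[j] u).1 ∈ S.zT n s q y ∧
      nrm (zpos x y ((rot (S.zg n s q x y))^[j] u)) ≤ r + 1 ∧
      ReflTransGen (ZSt S n s q x y (r + 2)) u ((rot (S.zg n s q x y))^[j] u) := by
    intro j hj
    induction j, hj using Nat.le_induction with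
    | base =>
      intro _
      have h3 : (rot (S.zg n s q x y))^[1] u = rho u := by
        show rho (S.zg n s q x y u) = rho u
        rw [hu.2]
      rw [h3]
      have h4 := zpos_step (x := x) (y := y) u.1 (rho u).2 u.2
      have h5 := nrm_near h4.1 h4.2
      have h6 : nrm (zpos x y (u.1, u.2)) ≤ r := hr
      refine ⟨hu.1, h5.trans (by omega), ReflTransGen.single ⟨hu.1, hr.trans (by omega), Or.inl rfl⟩⟩
    | succ j hj ih =>
      intro h3
      obtain ⟨i1, i2, i3⟩ := ih (by omega)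
      rw [iterate_succ_apply']
      set v := (rot (S.zg n s q x y))^[j] u with hv
      have h4 : S.zg n s q x y v ≠ v := h2 j hj (by omega)
      have h5 := (zsm_rot h4).1
      have h6 := zpos_step (x := x) (y := y) (S.zg n s q x y v).1 (S.zg n s q x y v).2
          (rho (S.zg n s q x y v)).2
      have h7 := nrm_near h6.1 h6.2
      have h8 : nrm (zpos x y ((S.zg n s q x y v).1, (rho (S.zg n s q x y v)).2)) ≤ r + 1 := by
        show nrm (zpos x y (rho (S.zg n s q x y v))) ≤ r + 1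
        rw [h5]; exact i2
      have h9 : (S.zg n s q x y v).1 ∈ S.zT n s q y := hG.mem v i1
      refine ⟨h9, by show nrm (zpos x y (rho (S.zg n s q x y v))) ≤ r + 1; rw [h5]; exact i2, ?_⟩
      refine (i3.tail ⟨i1, i2.trans (by omega), Or.inr rfl⟩).tail ⟨h9, ?_, Or.inl rfl⟩
      exact h7.trans (by omega)
  rw [h1]
  exact (key k hk le_rfl).2.2

end

/-- **near an arc** -/
theorem arc_le : ∃ C c : ℝ, 0 < C ∧ 0 < c ∧ ∀ (S : Shape), S.Ok → ∀ (m : S.Marks), m.Ok →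
    ∀ (n : ℕ) (s : S.Q × Bool → ℕ), S.Small n s → ∀ (σ : Fin 4 → ℕ) (q : S.Q) (x y : ℤ), S.In n s q x y →
    ∀ (z : ℂ), |(x : ℝ) - n * z.re| ≤ 1 → |(y : ℝ) - n * z.im| ≤ 1 → ∀ (lab : Half ZT → Fin 4),
    ZL m n s σ q x y lab → ∀ (w : Half ZT → Half ZT),
    IsW (S.zT n s q y) (S.zg n s q x y) ({zz x y} ∪ Set.range fun j : Fin 3 => m.ez n σ q j.castSucc) w →
    ∀ (j : Fin 3) (δ R : ℝ), 1 ≤ δ → δ ≤ R → Metric.infDist z (m.opp j) ≤ δ →
    (∀ k, k ≠ j → ∀ w ∈ m.opp k, R ≤ dist z w) →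
    ex (S.zT n s q y) w (zz x y) (fun j => m.ez n σ q j.castSucc) j ≤ C * (δ / R) ^ c := by
  obtain ⟨C, c, hC, hc, hex⟩ := near_le
  refine ⟨max C (64 ^ c), c, by positivity, hc, ?_⟩
  intro S hS m hm n s hs σ q x y hin z hx hy lab hl w hw j δ R hδ hδR hzj hfar
  have hn := hs.1
  have hn0 : (8 : ℝ) ≤ n := by exact_mod_cast hn
  have hR0 : 0 < R := by linarith
  have hp0 : (0 : ℝ) ≤ (δ / R) ^ c := by positivity
  by_cases hR : R ≤ 64 * δ
  · have h1 : (1 : ℝ) ≤ 64 * (δ / R) := by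
      rw [mul_div_assoc', le_div_iff₀ hR0]
      linarith
    have h2 : (1 : ℝ) ≤ (64 * (δ / R)) ^ c := Real.one_le_rpow h1 hc.le
    rw [Real.mul_rpow (by norm_num) (by positivity)] at h2
    have h3 : ex (S.zT n s q y) w (zz x y) (fun j => m.ez n σ q j.castSucc) j ≤ 1 := P_le_one _ _
    have h4 := mul_le_mul_of_nonneg_right (le_max_right C (64 ^ c)) hp0
    linarith
  · have hR : 64 * δ < R := not_le.1 hR
    set r : ℕ := ⌈4 * n * δ⌉₊ with hr
    have hr1 : 4 * n * δ ≤ r := Nat.le_ceil _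
    have hr2 : (r : ℝ) < 4 * n * δ + 1 := Nat.ceil_lt_add_one (by positivity)
    have hr3 : 1 ≤ r := by
      have : (1 : ℝ) ≤ r := by nlinarith
      exact_mod_cast this
    obtain ⟨b, hb, hbz, -, hp⟩ := path_opp (r := (r : ℤ)) hS (tree hS) hm hs hin
      (by rw [abs_sub_comm]; exact hx) (by rw [abs_sub_comm]; exact hy) hδ hzj (by exact_mod_cast hr1)
    have hend := path_end (by omega) hp
    have hj : tr (lab b) = j := by
      by_contra hne
      refine hl.far hm hn hx hy (R := R) (by linarith) (hfar _ hne) hb hbz ?_ rfl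
      have h2 : (nrm (zpos x y b) : ℝ) ≤ r + 1 := by exact_mod_cast hend
      nlinarith
    have h1 := hex S hS m hm n s hs σ q x y hin z hx hy lab hl w hw b hb hbz (j + 1) (by rw [hj]; exact fn1 j)
      δ R r hδ hR0 hr3 (by nlinarith) hp (hfar _ (fn1 j))
    rw [hj] at h1
    exact h1.trans (mul_le_mul_of_nonneg_right (le_max_left _ _) hp0)

/-- **near a mark** -/
theorem mark_le : ∃ C c : ℝ, 0 < C ∧ 0 < c ∧ ∀ (S : Shape), S.Ok → ∀ (m : S.Marks), m.Ok →
    ∀ (n : ℕ) (s : S.Q × Bool → ℕ), S.Small n s → ∀ (σ : Fin 4 → ℕ) (q : S.Q) (x y : ℤ), S.In n s q x y →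
    ∀ (z : ℂ), |(x : ℝ) - n * z.re| ≤ 1 → |(y : ℝ) - n * z.im| ≤ 1 → ∀ (lab : Half ZT → Fin 4),
    ZL m n s σ q x y lab → ∀ (w : Half ZT → Half ZT),
    IsW (S.zT n s q y) (S.zg n s q x y) ({zz x y} ∪ Set.range fun j : Fin 3 => m.ez n σ q j.castSucc) w →
    ∀ (j h : Fin 3) (δ R : ℝ) (r : ℕ), h ≠ j → 1 ≤ δ → δ ≤ R → 1 ≤ r → (r : ℝ) ≤ 8 * (n * δ) →
    ReflTransGen (ZSt S n s q x y r) (zz x y) (m.ez n σ q j.castSucc) →
    (∀ w ∈ m.opp j, R ≤ dist z w) →
    ex (S.zT n s q y) w (zz x y) (fun j => m.ez n σ q j.castSucc) h ≤ C * (δ / R) ^ c := by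
  obtain ⟨C, c, hC, hc, hex⟩ := near_le
  refine ⟨C, c, hC, hc, ?_⟩
  intro S hS m hm n s hs σ q x y hin z hx hy lab hl w hw j h δ R r hh hδ hδR hr1 hr hp hfar
  have hn := hs.1
  have hn0 : (8 : ℝ) ≤ n := by exact_mod_cast hn
  have hR0 : 0 < R := by linarith
  have hz0 := bd_zz hS hs.two hin
  have hnz : next (S.zg n s q x y) (zz x y) = zz x y := next_z hS hs.two q hin.1.1 hin.1.2 hin.2.1 hin.2.2
  have hG : Glu (S.zT n s q y) (S.zg n s q x y) := Surf.glu _ _
  have hL := zlab hS hs hin hl.step hl.bd hl.lab_e hw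
  have hez : m.ez n σ q j.castSucc ≠ zz x y := Ne.symm (hL.ze j)
  have hlab := hL.lab_e j
  rcases f0 hh with h1 | h1
  · -- the arc before the mark
    have h2 : tr (lab (m.ez n σ q j.castSucc)) = h := by rw [h1]; exact hlab.1
    have h3 := hex S hS m hm n s hs σ q x y hin z hx hy lab hl w hw (m.ez n σ q j.castSucc) (hl.bd _) hez j
      (by rw [h2]; exact Ne.symm hh) δ R r hδ hR0 hr1 (by nlinarith) hp hfar
    rw [h2] at h3
    exact h3
  · -- the arc after the mark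
    have h2 : tr (lab (next (S.zg n s q x y) (m.ez n σ q j.castSucc))) = h := by rw [h1]; exact hlab.2
    have h4 : next (S.zg n s q x y) (m.ez n σ q j.castSucc) ≠ zz x y := by
      intro h5
      exact hez (hG.next_inj (hl.bd _).2 hz0.2 (h5.trans hnz.symm))
    have h5 := path_next (hl.bd j.castSucc) (path_end (by omega) hp)
    have h6 := (zst_mono (r' := ((r + 3 : ℕ) : ℤ)) (by push_cast; omega) hp).trans
      (zst_mono (r' := ((r + 3 : ℕ) : ℤ)) (by push_cast; omega) h5)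
    have h3 := hex S hS m hm n s hs σ q x y hin z hx hy lab hl w hw _ (hG.next_bd (hl.bd _)) h4 j
      (by rw [h2]; exact Ne.symm hh) δ R (r + 3) hδ hR0 (by omega) (by push_cast; nlinarith) h6 hfar
    rw [h2] at h3
    exact h3

end Full.P5
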